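import Pool.Agent.P8b2208.Statement

open MeasureTheory AddCircle Filter Topology
open scoped ENNReal InnerProductSpace ComplexConjugate

set_option linter.unusedSectionVars false
set_option linter.unusedSimpArgs false

namespace Pool.Agent.P8b2208

noncomputable abbrev mu : Measure Circ := haarAddCircle

section mulC

variable {E : Type*} [NormedAddCommGroup E] [InnerProductSpace ℂ E] [CompleteSpace E]

/-- Multiplication by a continuous scalar function on `L²(𝕋; E)`. -/
noncomputable def mulC (b : C(Circ, ℂ)) : L2 E →L[ℂ] L2 E :=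
  (ContinuousLinearMap.lsmul ℂ ℂ).holderL mu ∞ 2 2 (ContinuousMap.toLp ∞ mu ℂ b)

lemma coeFn_mulC (b : C(Circ, ℂ)) (f : L2 E) : mulC b f =ᵐ[mu] fun t => b t • f t := by
  have h1 : mulC b f =ᵐ[mu] fun t => (ContinuousLinearMap.lsmul ℂ ℂ)
      ((ContinuousMap.toLp ∞ mu ℂ b) t) (f t) :=
    ContinuousLinearMap.coeFn_holder (r := 2) (ContinuousLinearMap.lsmul ℂ ℂ)
      (ContinuousMap.toLp ∞ mu ℂ b) f
  have h2 := ContinuousMap.coeFn_toLp (p := ∞) (𝕜 := ℂ) mu b
  filter_upwards [h1, h2] with t h1 h2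
  rw [h1, h2]
  simp

lemma norm_mulC_le (b : C(Circ, ℂ)) (f : L2 E) : ‖mulC b f‖ ≤ ‖b‖ * ‖f‖ := by
  refine Lp.norm_le_mul_norm_of_ae_le_mul ?_
  filter_upwards [coeFn_mulC b f] with t ht
  rw [ht, norm_smul]
  gcongr
  exact b.norm_coe_le_norm t

lemma mulC_ext {b : C(Circ, ℂ)} {f g : L2 E} (h : ∀ᵐ t ∂mu, g t = b t • f t) :
    mulC b f = g := by
  apply Lp.ext
  filter_upwards [coeFn_mulC b f, h] with t h1 h2
  rw [h1, h2]

lemma mulC_mul (b c : C(Circ, ℂ)) (f : L2 E) : mulC (b * c) f = mulC b (mulC c f) := by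
  apply mulC_ext
  filter_upwards [coeFn_mulC b (mulC c f), coeFn_mulC c f] with t h1 h2
  rw [h1, h2, smul_smul]
  rfl

lemma mulC_one (f : L2 E) : mulC 1 f = f := by
  apply mulC_ext
  filter_upwards with t
  simp

lemma mulC_add (b c : C(Circ, ℂ)) (f : L2 E) : mulC (b + c) f = mulC b f + mulC c f := by
  apply mulC_ext
  filter_upwards [coeFn_mulC b f, coeFn_mulC c f, Lp.coeFn_add (mulC b f) (mulC c f)]
    with t h1 h2 h3
  rw [h3, Pi.add_apply, h1, h2, ← add_smul]
  rfl

lemma mulC_sub (b c : C(Circ, ℂ)) (f : L2 E) : mulC (b - c) f = mulC b f - mulC c f := by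
  apply mulC_ext
  filter_upwards [coeFn_mulC b f, coeFn_mulC c f, Lp.coeFn_sub (mulC b f) (mulC c f)]
    with t h1 h2 h3
  rw [h3, Pi.sub_apply, h1, h2, ← sub_smul]
  rfl

lemma mulC_smul (a : ℂ) (b : C(Circ, ℂ)) (f : L2 E) : mulC (a • b) f = a • mulC b f := by
  apply mulC_ext
  filter_upwards [coeFn_mulC b f, Lp.coeFn_smul a (mulC b f)] with t h1 h3
  rw [h3, Pi.smul_apply, h1, smul_smul]
  rfl

lemma inner_mulC_left (b : C(Circ, ℂ)) (f g : L2 E) :
    ⟪mulC b f, g⟫_ℂ = ⟪f, mulC (star b) g⟫_ℂ := by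
  rw [L2.inner_def, L2.inner_def]
  apply integral_congr_ae
  filter_upwards [coeFn_mulC b f, coeFn_mulC (star b) g] with t h1 h2
  rw [h1, h2, inner_smul_left, inner_smul_right]
  rfl

lemma inner_mulC_right (b : C(Circ, ℂ)) (f g : L2 E) :
    ⟪f, mulC b g⟫_ℂ = ⟪mulC (star b) f, g⟫_ℂ := by
  rw [inner_mulC_left, star_star]

lemma adjoint_mulC (b : C(Circ, ℂ)) :
    ContinuousLinearMap.adjoint (mulC b : L2 E →L[ℂ] L2 E) = mulC (star b) := by
  symm
  rw [ContinuousLinearMap.eq_adjoint_iff]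
  intro f g
  rw [inner_mulC_left, star_star]

end mulC

section coeff

variable {E : Type*} [NormedAddCommGroup E] [InnerProductSpace ℂ E] [CompleteSpace E]

/-- Multiplication by `ζ ^ n`. -/
noncomputable def zm (n : ℤ) : L2 E →L[ℂ] L2 E := mulC (fourier n)

lemma coeFn_zm (n : ℤ) (f : L2 E) : zm n f =ᵐ[mu] fun t => fourier n t • f t :=
  coeFn_mulC _ _

lemma zm_zm (m n : ℤ) (f : L2 E) : zm m (zm n f) = zm (m + n) f := by
  unfold zm
  rw [← mulC_mul]
  congr 1
  congr 1
  ext t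
  simp [fourier_add]

lemma zm_zero (f : L2 E) : zm 0 f = f := by
  unfold zm
  rw [show (fourier 0 : C(Circ, ℂ)) = 1 by ext t; simp, mulC_one]

lemma star_fourier (n : ℤ) : star (fourier n : C(Circ, ℂ)) = fourier (-n) := by
  ext t
  simp

lemma inner_zm_left (n : ℤ) (f g : L2 E) : ⟪zm n f, g⟫_ℂ = ⟪f, zm (-n) g⟫_ℂ := by
  unfold zm
  rw [inner_mulC_left, star_fourier]

lemma inner_zm_right (n : ℤ) (f g : L2 E) : ⟪f, zm n g⟫_ℂ = ⟪zm (-n) f, g⟫_ℂ := by
  rw [inner_zm_left, neg_neg]

lemma norm_zm (n : ℤ) (f : L2 E) : ‖zm n f‖ = ‖f‖ := by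
  have h1 : ∀ (n : ℤ) (f : L2 E), ‖zm n f‖ ≤ ‖f‖ := by
    intro n f
    have := norm_mulC_le (fourier n) f
    rwa [fourier_norm, one_mul] at this
  apply le_antisymm (h1 n f)
  have := h1 (-n) (zm n f)
  rwa [zm_zm, neg_add_cancel, zm_zero] at this

/-- The function `ζ ↦ ζ ^ n • e`. -/
noncomputable def mono (n : ℤ) : E →L[ℂ] L2 E := (zm n).comp (Lp.constL 2 mu ℂ)

lemma coeFn_mono (n : ℤ) (e : E) : mono n e =ᵐ[mu] fun t => fourier n t • e := by
  have h1 : mono n e = zm n (Lp.const 2 mu e) := rfl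
  rw [h1]
  filter_upwards [coeFn_zm n (Lp.const 2 mu e), Lp.coeFn_const (p := 2) (μ := mu) e]
    with t h1 h2
  rw [h1, h2]
  rfl

lemma zm_mono (m n : ℤ) (e : E) : zm m (mono n e) = mono (m + n) e := by
  simp only [mono, ContinuousLinearMap.comp_apply, zm_zm]

/-- Fourier coefficient functional. -/
noncomputable def coeff (n : ℤ) : L2 E →L[ℂ] E := ContinuousLinearMap.adjoint (mono n)

lemma inner_mono_left (n : ℤ) (e : E) (f : L2 E) : ⟪mono n e, f⟫_ℂ = ⟪e, coeff n f⟫_ℂ := by
  unfold coeff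
  rw [ContinuousLinearMap.adjoint_inner_right]

lemma inner_mono_right (n : ℤ) (e : E) (f : L2 E) : ⟪f, mono n e⟫_ℂ = ⟪coeff n f, e⟫_ℂ := by
  unfold coeff
  rw [ContinuousLinearMap.adjoint_inner_left]

lemma coeff_eq_fourierCoeff (n : ℤ) (f : L2 E) : coeff n f = fourierCoeff f n := by
  apply ext_inner_left ℂ
  intro e
  rw [← inner_mono_left, L2.inner_def, fourierCoeff, ← integral_inner]
  · apply integral_congr_ae
    filter_upwards [coeFn_mono n e] with t h1
    rw [h1, inner_smul_left, inner_smul_right, fourier_neg]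
  · have := (integrable_L2 f)
    exact this.fourier_smul (-n)

lemma mem_H2_iff (f : L2 E) : f ∈ H2 E ↔ ∀ n : ℤ, n < 0 → coeff n f = 0 := by
  simp only [coeff_eq_fourierCoeff]
  rfl

lemma coeff_zm (n m : ℤ) (f : L2 E) : coeff n (zm m f) = coeff (n - m) f := by
  apply ext_inner_left ℂ
  intro e
  rw [← inner_mono_left, inner_zm_right, zm_mono, inner_mono_left]
  congr 2
  congr 1
  ring

lemma coeff_mono_self (n : ℤ) (e : E) : coeff n (mono n e) = e := by
  rw [coeff_eq_fourierCoeff, fourierCoeff, integral_congr_ae (g := fun _ => e)]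
  · simp
  · filter_upwards [coeFn_mono n e] with t h1
    rw [h1, smul_smul, ← fourier_add]
    simp

lemma coeff_mono_ne {n m : ℤ} (h : n ≠ m) (e : E) : coeff n (mono m e) = 0 := by
  rw [coeff_eq_fourierCoeff, fourierCoeff,
    integral_congr_ae (g := fun t => (fourier (-n + m) t : ℂ) • e)]
  · rw [integral_smul_const]
    have h2 := fourierCoeff_fourier (T := 2 * Real.pi) m
    have h3 : ∫ t : Circ, (fourier (-n + m) t : ℂ) ∂mu = 0 := by
      have h4 := congrFun h2 n
      rw [fourierCoeff, Pi.single_eq_of_ne h] at h4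
      rw [← h4]
      apply integral_congr_ae
      filter_upwards with t
      rw [fourier_add]
      rfl
    rw [h3, zero_smul]
  · filter_upwards [coeFn_mono m e] with t h1
    rw [h1, smul_smul, ← fourier_add]

lemma coeff_mono (n m : ℤ) (e : E) : coeff n (mono m e) = if n = m then e else 0 := by
  split_ifs with h
  · rw [h, coeff_mono_self]
  · exact coeff_mono_ne h e

/-- Completeness of the trigonometric system, vector-valued. -/
lemma eq_zero_of_coeff_eq_zero (f : L2 E) (h : ∀ n, coeff n f = 0) : f = 0 := by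
  obtain ⟨s, hs, hs'⟩ := (Lp.aestronglyMeasurable f).isSeparable_ae_range
  have key : ∀ c : StrongDual ℂ E, (fun x => c (f x)) =ᵐ[mu] 0 := by
    intro c
    obtain ⟨e, rfl⟩ := (InnerProductSpace.toDual ℂ E).surjective c
    have h1 : (innerSL ℂ e).compLp f = (0 : L2 ℂ) := by
      have h2 : ∀ n, (@fourierBasis (2 * Real.pi) _).repr ((innerSL ℂ e).compLp f) n = 0 := by
        intro n
        rw [fourierBasis_repr, fourierCoeff_congr_ae ((innerSL ℂ e).coeFn_compLp f)]
        have h3 := h n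
        rw [coeff_eq_fourierCoeff] at h3
        have h4 : ⟪e, fourierCoeff f n⟫_ℂ = 0 := by rw [h3, inner_zero_right]
        rw [fourierCoeff, ← integral_inner] at h4
        · rw [← h4, fourierCoeff]
          apply integral_congr_ae
          filter_upwards with t
          simp [inner_smul_right]
        · exact (integrable_L2 f).fourier_smul (-n)
      have h3 : (@fourierBasis (2 * Real.pi) _).repr ((innerSL ℂ e).compLp f) = 0 := by
        ext n
        simpa using h2 n
      simpa using h3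
    have h5 := (innerSL ℂ e).coeFn_compLp f
    rw [h1] at h5
    filter_upwards [h5, Lp.coeFn_zero ℂ 2 mu] with t h6 h7
    rw [h7] at h6
    simpa using h6.symm
  have h0 := ae_eq_zero_of_forall_dual_of_isSeparable ℂ hs key hs'
  exact (Lp.eq_zero_iff_ae_eq_zero).2 h0

lemma ext_coeff {f g : L2 E} (h : ∀ n, coeff n f = coeff n g) : f = g := by
  rw [← sub_eq_zero]
  apply eq_zero_of_coeff_eq_zero
  intro n
  rw [map_sub, h n, sub_self]

end coeff

end Pool.Agent.P8b2208
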