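import Pool.Agent.P8b2208.Coll

open MeasureTheory AddCircle Filter Topology
open scoped ENNReal InnerProductSpace ComplexConjugate

set_option linter.unusedSectionVars false
set_option linter.unusedSimpArgs false

namespace Pool.Agent.P8b2208

open ContinuousLinearMap

section fourier_lemmas

lemma norm_fourier_apply (n : ℤ) (t : Circ) : ‖(fourier n t : ℂ)‖ = 1 := by
  rw [fourier_apply]
  exact Circle.norm_coe _

variable {E F : Type*} [NormedAddCommGroup E] [InnerProductSpace ℂ E] [CompleteSpace E]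
  [NormedAddCommGroup F] [InnerProductSpace ℂ F] [CompleteSpace F]

lemma fourierCoeff_clm (A : E →L[ℂ] F) (w : Circ → E) (hw : Integrable w mu) (n : ℤ) :
    fourierCoeff (fun t => A (w t)) n = A (fourierCoeff w n) := by
  unfold fourierCoeff
  rw [← ContinuousLinearMap.integral_comp_comm A (hw.fourier_smul (-n))]
  apply integral_congr_ae
  filter_upwards with t
  rw [map_smul]

lemma fourierCoeff_fourier_smul (m : ℤ) (w : Circ → E) (n : ℤ) :
    fourierCoeff (fun t => (fourier m t : ℂ) • w t) n = fourierCoeff w (n - m) := by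
  unfold fourierCoeff
  apply integral_congr_ae
  filter_upwards with t
  rw [smul_smul, ← fourier_add]
  congr 3
  ring

lemma fourierCoeff_const (c : E) (n : ℤ) :
    fourierCoeff (fun _ : Circ => c) n = if n = 0 then c else 0 := by
  have h := coeff_mono n 0 c
  rw [coeff_eq_fourierCoeff, fourierCoeff_congr_ae (g := fun _ => c)] at h
  · exact h
  · filter_upwards [coeFn_mono 0 c] with t ht
    rw [ht]
    simp

end fourier_lemmas

section boundary

variable {H L : Type*} [NormedAddCommGroup H] [InnerProductSpace ℂ H] [CompleteSpace H]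
  [NormedAddCommGroup L] [InnerProductSpace ℂ L] [CompleteSpace L]

variable {K : H →L[ℂ] H} {Γ : H →L[ℂ] L}

lemma norm_real_mul_circle {r : ℝ} (hr0 : 0 ≤ r) (hr1 : r < 1) (t : Circ) :
    ‖(r : ℂ) * toCircle t‖ < 1 := by
  rw [norm_mul, Complex.norm_real, Circle.norm_coe, mul_one, Real.norm_of_nonneg hr0]
  exact hr1

/-- Radial norm convergence of `Q` almost everywhere. -/
def RadialConv (K : H →L[ℂ] H) (Γ : H →L[ℂ] L) : Prop :=
  ∀ᵐ t ∂mu, ∃ Y : L →L[ℂ] H,
    Tendsto (fun r : ℝ => cQ K Γ ((r : ℂ) * toCircle t)) (𝓝[<] 1) (𝓝 Y)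

/-- The boundary function. -/
noncomputable def cθb (K : H →L[ℂ] H) (Γ : H →L[ℂ] L) (t : Circ) : L →L[ℂ] L :=
  limUnder (𝓝[<] (1 : ℝ)) (fun r : ℝ => cθ K Γ ((r : ℂ) * toCircle t))

lemma tendsto_real_mul (z : ℂ) :
    Tendsto (fun r : ℝ => (r : ℂ) * z) (𝓝[<] 1) (𝓝 z) := by
  have h1 : Continuous (fun r : ℝ => (r : ℂ) * z) := by fun_prop
  have h2 := (h1.tendsto 1).mono_left (nhdsWithin_le_nhds (s := Set.Iio (1 : ℝ)))
  simpa using h2

lemma tendsto_θ_of_Q {t : Circ} {Y : L →L[ℂ] H}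
    (hY : Tendsto (fun r : ℝ => cQ K Γ ((r : ℂ) * toCircle t)) (𝓝[<] 1) (𝓝 Y)) :
    Tendsto (fun r : ℝ => cθ K Γ ((r : ℂ) * toCircle t)) (𝓝[<] 1)
      (𝓝 (cO K Γ + (toCircle t : ℂ) • (cD K Γ ∘L Y))) := by
  unfold cθ
  apply tendsto_const_nhds.add
  apply (tendsto_real_mul _).smul
  have h1 : Continuous (fun A : L →L[ℂ] H => cD K Γ ∘L A) :=
    (ContinuousLinearMap.compL ℂ L H L (cD K Γ)).continuous
  exact (h1.tendsto Y).comp hY

lemma tendsto_θb_of_Q {t : Circ} {Y : L →L[ℂ] H}
    (hY : Tendsto (fun r : ℝ => cQ K Γ ((r : ℂ) * toCircle t)) (𝓝[<] 1) (𝓝 Y)) :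
    Tendsto (fun r : ℝ => cθ K Γ ((r : ℂ) * toCircle t)) (𝓝[<] 1) (𝓝 (cθb K Γ t)) := by
  have h1 := tendsto_θ_of_Q hY
  unfold cθb
  rw [h1.limUnder_eq]
  exact h1

lemma RadialConv.tendsto (hb : RadialConv K Γ) : ∀ᵐ t ∂mu,
    Tendsto (fun r : ℝ => cθ K Γ ((r : ℂ) * toCircle t)) (𝓝[<] 1) (𝓝 (cθb K Γ t)) := by
  filter_upwards [hb] with t ht
  obtain ⟨Y, hY⟩ := ht
  exact tendsto_θb_of_Q hY

/-- radii `1 - 1/(k+1)`. -/
noncomputable def rad (k : ℕ) : ℝ := 1 - 1 / ((k : ℝ) + 1)

lemma rad_nonneg (k : ℕ) : 0 ≤ rad k := by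
  unfold rad
  have : (1 : ℝ) / ((k : ℝ) + 1) ≤ 1 := by
    rw [div_le_one (by positivity)]
    linarith [Nat.cast_nonneg (α := ℝ) k]
  linarith

lemma rad_lt_one (k : ℕ) : rad k < 1 := by
  unfold rad
  have : (0 : ℝ) < 1 / ((k : ℝ) + 1) := by positivity
  linarith

lemma tendsto_rad : Tendsto rad atTop (𝓝[<] 1) := by
  rw [tendsto_nhdsWithin_iff]
  constructor
  · have h1 := tendsto_one_div_add_atTop_nhds_zero_nat (𝕜 := ℝ)
    have h2 := (tendsto_const_nhds (x := (1 : ℝ))).sub h1
    rw [sub_zero] at h2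
    exact h2
  · exact Eventually.of_forall rad_lt_one

lemma eventually_nonneg : ∀ᶠ r : ℝ in 𝓝[<] 1, 0 ≤ r := by
  have h : ∀ᶠ r : ℝ in 𝓝 1, 0 ≤ r := by
    filter_upwards [lt_mem_nhds (show (0 : ℝ) < 1 by norm_num)] with r hr using hr.le
  exact h.filter_mono nhdsWithin_le_nhds

lemma IsColl.isometry_ae (h : IsColl K Γ) (hb : RadialConv K Γ) :
    ∀ᵐ t ∂mu, ∀ u : L, ‖cθb K Γ t u‖ = ‖u‖ := by
  filter_upwards [hb] with t ht u
  obtain ⟨Y, hY⟩ := ht
  have h1 := tendsto_θb_of_Q hY
  have h2 : Tendsto (fun r : ℝ => cQ K Γ ((r : ℂ) * toCircle t) u) (𝓝[<] 1) (𝓝 (Y u)) :=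
    ((ContinuousLinearMap.apply ℂ H u).continuous.tendsto Y).comp hY
  have h3 : Tendsto (fun r : ℝ => cθ K Γ ((r : ℂ) * toCircle t) u) (𝓝[<] 1)
      (𝓝 (cθb K Γ t u)) :=
    ((ContinuousLinearMap.apply ℂ L u).continuous.tendsto _).comp h1
  have h4 : Tendsto (fun r : ℝ => ‖(r : ℂ) * toCircle t‖ ^ 2 *
      ‖cQ K Γ ((r : ℂ) * toCircle t) u‖ ^ 2 + ‖u‖ ^ 2 - ‖cQ K Γ ((r : ℂ) * toCircle t) u‖ ^ 2)
      (𝓝[<] 1) (𝓝 (‖(toCircle t : ℂ)‖ ^ 2 * ‖Y u‖ ^ 2 + ‖u‖ ^ 2 - ‖Y u‖ ^ 2)) :=
    ((((tendsto_real_mul _).norm.pow 2).mul (h2.norm.pow 2)).add tendsto_const_nhds).sub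
      (h2.norm.pow 2)
  have h5 : Tendsto (fun r : ℝ => ‖cθ K Γ ((r : ℂ) * toCircle t) u‖ ^ 2)
      (𝓝[<] 1) (𝓝 (‖(toCircle t : ℂ)‖ ^ 2 * ‖Y u‖ ^ 2 + ‖u‖ ^ 2 - ‖Y u‖ ^ 2)) := by
    refine h4.congr' ?_
    filter_upwards [eventually_nonneg, self_mem_nhdsWithin] with r hr0 hr1
    have := h.energy_θ (norm_real_mul_circle hr0 hr1 t) u
    linarith
  have h6 := tendsto_nhds_unique (h3.norm.pow 2) h5
  rw [Circle.norm_coe] at h6
  have h7 : ‖cθb K Γ t u‖ ^ 2 = ‖u‖ ^ 2 := by rw [h6]; ring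
  exact (sq_eq_sq₀ (norm_nonneg _) (norm_nonneg _)).1 h7

lemma continuous_toCircle' : Continuous (fun t : Circ => (toCircle t : ℂ)) :=
  by
  have h := (fourier 1 : C(Circ, ℂ)).continuous
  exact h.congr fun t => fourier_one

lemma IsColl.continuous_Q (h : IsColl K Γ) (k : ℕ) :
    Continuous (fun t : Circ => cQ K Γ ((rad k : ℂ) * toCircle t)) := by
  rw [continuous_iff_continuousAt]
  intro t
  have h1 : ContinuousAt (cQ K Γ) ((rad k : ℂ) * toCircle t) :=
    (h.differentiableAt_Q (norm_real_mul_circle (rad_nonneg k) (rad_lt_one k) t)).continuousAt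
  have h2 : Continuous (fun t : Circ => ((rad k : ℂ) * toCircle t)) :=
    continuous_const.mul continuous_toCircle'
  exact ContinuousAt.comp (f := fun t : Circ => ((rad k : ℂ) * toCircle t)) h1 h2.continuousAt

lemma IsColl.continuous_θ (h : IsColl K Γ) (k : ℕ) :
    Continuous (fun t : Circ => cθ K Γ ((rad k : ℂ) * toCircle t)) := by
  unfold cθ
  apply continuous_const.add
  apply (continuous_const.mul continuous_toCircle').smul
  exact continuous_const.clm_comp (h.continuous_Q k)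

lemma IsColl.aesm_θb (h : IsColl K Γ) (hb : RadialConv K Γ) :
    AEStronglyMeasurable (cθb K Γ) mu := by
  refine aestronglyMeasurable_of_tendsto_ae (u := atTop)
    (f := fun (k : ℕ) (t : Circ) => cθ K Γ ((rad k : ℂ) * toCircle t)) ?_ ?_
  · intro k
    exact (h.continuous_θ k).aestronglyMeasurable
  · filter_upwards [hb.tendsto] with t ht
    exact ht.comp tendsto_rad

lemma IsColl.memLp_θb (h : IsColl K Γ) (hb : RadialConv K Γ) :
    MemLp (cθb K Γ) ∞ mu := by
  refine memLp_top_of_bound (h.aesm_θb hb) 1 ?_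
  filter_upwards [h.isometry_ae hb] with t ht
  refine ContinuousLinearMap.opNorm_le_bound _ zero_le_one fun u => ?_
  rw [ht, one_mul]

/-- Fourier coefficients of `Q` on a circle of radius `< 1`. -/
lemma IsColl.fourierCoeff_Q (h : IsColl K Γ) (k : ℕ) (u : L) (n : ℤ) :
    fourierCoeff (fun t : Circ => cQ K Γ ((rad k : ℂ) * toCircle t) u) n =
      if 0 ≤ n then (((rad k : ℂ) • cTs K) ^ n.toNat) (cEs K Γ u) else 0 := by
  set w : Circ → H := fun t : Circ => cQ K Γ ((rad k : ℂ) * toCircle t) u with hw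
  have hwc : Continuous w := (h.continuous_Q k).clm_apply continuous_const
  have hwi : Integrable w mu := hwc.integrable_of_hasCompactSupport
    (HasCompactSupport.of_compactSpace w)
  -- the recursion
  have hrec : ∀ n : ℤ, fourierCoeff w n =
      (if n = 0 then cEs K Γ u else 0) + ((rad k : ℂ) • cTs K) (fourierCoeff w (n - 1)) := by
    intro n
    have h1 : w = (fun _ : Circ => cEs K Γ u) +
        (fun t : Circ => ((rad k : ℂ) • cTs K) ((fourier 1 t : ℂ) • w t)) := by
      funext t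
      have := h.cQ_eq (norm_real_mul_circle (rad_nonneg k) (rad_lt_one k) t) u
      simp only [Pi.add_apply, hw]
      rw [map_smul]
      conv_lhs => rw [this]
      rw [fourier_one, smul_apply, smul_smul, mul_comm (toCircle t : ℂ)]
    have hi2 : Integrable (fun t : Circ => (fourier 1 t : ℂ) • w t) mu := hwi.fourier_smul 1
    conv_lhs => rw [h1]
    rw [fourierCoeff.add (integrable_const _)
      (((rad k : ℂ) • cTs K).integrable_comp hi2), Pi.add_apply, fourierCoeff_const]
    congr 1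
    rw [fourierCoeff_clm _ _ hi2, fourierCoeff_fourier_smul]
  -- uniform bound
  obtain ⟨C, hC⟩ : ∃ C : ℝ, ∀ n : ℤ, ‖fourierCoeff w n‖ ≤ C := by
    refine ⟨∫ t, ‖w t‖ ∂mu, fun n => ?_⟩
    unfold fourierCoeff
    refine (norm_integral_le_integral_norm _).trans (le_of_eq ?_)
    apply integral_congr_ae
    filter_upwards with t
    rw [norm_smul, norm_fourier_apply, one_mul]
  have hneg : ∀ n : ℤ, n < 0 → fourierCoeff w n = 0 := by
    intro n hn
    have h2 : ∀ j : ℕ, ‖fourierCoeff w n‖ ≤ (rad k) ^ j * C := by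
      intro j
      have h3 : ∀ j : ℕ, ∀ n : ℤ, n < 0 → ‖fourierCoeff w n‖ ≤
          (rad k) ^ j * ‖fourierCoeff w (n - j)‖ := by
        intro j
        induction j with
        | zero => intro n _; simp
        | succ j ih =>
          intro n hn
          rw [hrec n, if_neg (by omega), zero_add]
          have h4 := ih (n - 1) (by omega)
          have h5 : ‖((rad k : ℂ) • cTs K) (fourierCoeff w (n - 1))‖ ≤
              rad k * ‖fourierCoeff w (n - 1)‖ := by
            rw [smul_apply, norm_smul, Complex.norm_real, Real.norm_of_nonneg (rad_nonneg k)]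
            gcongr
            · exact rad_nonneg k
            · refine ((cTs K).le_opNorm _).trans ?_
              have := h.norm_Ts_le
              nlinarith [norm_nonneg (fourierCoeff w (n - 1))]
          calc _ ≤ rad k * ‖fourierCoeff w (n - 1)‖ := h5
            _ ≤ rad k * ((rad k) ^ j * ‖fourierCoeff w (n - 1 - j)‖) := by
                gcongr
                exact rad_nonneg k
            _ = (rad k) ^ (j + 1) * ‖fourierCoeff w (n - (j + 1 : ℕ))‖ := by
                rw [pow_succ, show n - 1 - (j : ℤ) = n - (j + 1 : ℕ) by push_cast; ring]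
                ring
      calc _ ≤ (rad k) ^ j * ‖fourierCoeff w (n - j)‖ := h3 j n hn
        _ ≤ _ := by
          gcongr
          · exact pow_nonneg (rad_nonneg k) j
          · exact hC _
    have h4 : Tendsto (fun j : ℕ => (rad k) ^ j * C) atTop (𝓝 (0 * C)) :=
      (tendsto_pow_atTop_nhds_zero_of_lt_one (rad_nonneg k) (rad_lt_one k)).mul_const C
    rw [zero_mul] at h4
    have h5 : ‖fourierCoeff w n‖ ≤ 0 := ge_of_tendsto' h4 h2
    exact norm_le_zero_iff.1 h5
  split_ifs with hn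
  · obtain ⟨m, rfl⟩ := Int.eq_ofNat_of_zero_le hn
    rw [Int.toNat_natCast]
    clear hn
    induction m with
    | zero =>
      rw [hrec, hneg _ (by norm_num)]
      simp
    | succ m ih =>
      rw [hrec, if_neg (by omega), zero_add, show ((m + 1 : ℕ) : ℤ) - 1 = m by push_cast; ring,
        ih, pow_succ']
      rfl
  · exact hneg n (by omega)

/-- Fourier coefficients of the boundary function applied to a vector. -/
lemma IsColl.fourierCoeff_θb (h : IsColl K Γ) (hb : RadialConv K Γ) (u : L) (n : ℤ) :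
    fourierCoeff (fun t : Circ => cθb K Γ t u) n =
      (if n = 0 then cO K Γ u else 0) +
      (if 0 ≤ n - 1 then cD K Γ ((cTs K ^ (n - 1).toNat) (cEs K Γ u)) else 0) := by
  have hk : ∀ k : ℕ, fourierCoeff (fun t : Circ => cθ K Γ ((rad k : ℂ) * toCircle t) u) n =
      (if n = 0 then cO K Γ u else 0) + (rad k : ℂ) • cD K Γ
      (if 0 ≤ n - 1 then (((rad k : ℂ) • cTs K) ^ (n - 1).toNat) (cEs K Γ u) else 0) := by
    intro k
    have hwc : Continuous (fun t : Circ => cQ K Γ ((rad k : ℂ) * toCircle t) u) :=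
      (h.continuous_Q k).clm_apply continuous_const
    have hwi : Integrable (fun t : Circ => cQ K Γ ((rad k : ℂ) * toCircle t) u) mu :=
      hwc.integrable_of_hasCompactSupport (HasCompactSupport.of_compactSpace _)
    have h1 : (fun t : Circ => cθ K Γ ((rad k : ℂ) * toCircle t) u) =
        (fun _ : Circ => cO K Γ u) + (fun t : Circ => ((rad k : ℂ) • cD K Γ)
          ((fourier 1 t : ℂ) • cQ K Γ ((rad k : ℂ) * toCircle t) u)) := by
      funext t
      simp only [Pi.add_apply]
      rw [cθ_apply, map_smul, smul_apply, smul_smul, fourier_one, mul_comm (toCircle t : ℂ)]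
    have hi2 := hwi.fourier_smul 1
    rw [h1, fourierCoeff.add (integrable_const _) (((rad k : ℂ) • cD K Γ).integrable_comp hi2),
      Pi.add_apply, fourierCoeff_const, fourierCoeff_clm _ _ hi2, fourierCoeff_fourier_smul,
      h.fourierCoeff_Q]
    rfl
  have hlim1 : Tendsto (fun k : ℕ =>
      fourierCoeff (fun t : Circ => cθ K Γ ((rad k : ℂ) * toCircle t) u) n) atTop
      (𝓝 (fourierCoeff (fun t : Circ => cθb K Γ t u) n)) := by
    unfold fourierCoeff
    refine tendsto_integral_of_dominated_convergence (fun _ => ‖u‖) ?_ (integrable_const _) ?_ ?_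
    · intro k
      have h1 : Continuous (fun t : Circ => (fourier (-n) t : ℂ) •
          cθ K Γ ((rad k : ℂ) * toCircle t) u) :=
        (fourier (-n) : C(Circ, ℂ)).continuous.smul
          ((h.continuous_θ k).clm_apply continuous_const)
      exact h1.aestronglyMeasurable
    · intro k
      filter_upwards with t
      rw [norm_smul]
      rw [norm_fourier_apply, one_mul]
      exact h.norm_θ_le (norm_real_mul_circle (rad_nonneg k) (rad_lt_one k) t) u
    · filter_upwards [hb.tendsto] with t ht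
      have h1 := ht.comp tendsto_rad
      have h2 : Tendsto (fun k : ℕ => cθ K Γ ((rad k : ℂ) * toCircle t) u) atTop
          (𝓝 (cθb K Γ t u)) :=
        ((ContinuousLinearMap.apply ℂ L u).continuous.tendsto _).comp h1
      exact h2.const_smul _
  have hradc : Tendsto (fun k : ℕ => ((rad k : ℝ) : ℂ)) atTop (𝓝 1) := by
    have h1 : Tendsto (fun k : ℕ => ((rad k : ℝ) : ℂ)) atTop (𝓝 ((1 : ℝ) : ℂ)) :=
      (Complex.continuous_ofReal.tendsto 1).comp
        (tendsto_rad.mono_right nhdsWithin_le_nhds)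
    simpa using h1
  have hlim2 : Tendsto (fun k : ℕ => (if n = 0 then cO K Γ u else 0) + (rad k : ℂ) • cD K Γ
      (if 0 ≤ n - 1 then (((rad k : ℂ) • cTs K) ^ (n - 1).toNat) (cEs K Γ u) else 0)) atTop
      (𝓝 ((if n = 0 then cO K Γ u else 0) + (1 : ℂ) • cD K Γ
      (if 0 ≤ n - 1 then (((1 : ℂ) • cTs K) ^ (n - 1).toNat) (cEs K Γ u) else 0))) := by
    apply tendsto_const_nhds.add
    apply hradc.smul
    split_ifs with h0
    · have h1 : Continuous (fun z : ℂ => cD K Γ (((z • cTs K) ^ (n - 1).toNat) (cEs K Γ u))) := by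
        have h2 : Continuous (fun z : ℂ => (z • cTs K) ^ (n - 1).toNat) :=
          (continuous_id.smul continuous_const).pow _
        exact (cD K Γ).continuous.comp (h2.clm_apply continuous_const)
      exact (h1.tendsto 1).comp hradc
    · exact tendsto_const_nhds
  have h3 := tendsto_nhds_unique hlim1 (hlim2.congr fun k => (hk k).symm)
  rw [h3, one_smul, one_smul]
  congr 1
  split_ifs <;> simp

end boundary

end Pool.Agent.P8b2208
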