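import Pool.Agent.P8b2208.MulOp

open MeasureTheory AddCircle Filter Topology
open scoped ENNReal InnerProductSpace ComplexConjugate

set_option linter.unusedSectionVars false
set_option linter.unusedSimpArgs false

namespace Pool.Agent.P8b2208

open ContinuousLinearMap

section algebra

variable {H L : Type*} [NormedAddCommGroup H] [InnerProductSpace ℂ H] [CompleteSpace H]
  [NormedAddCommGroup L] [InnerProductSpace ℂ L] [CompleteSpace L]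

/-- The contraction `T = 1 - K`. -/
noncomputable def cT (K : H →L[ℂ] H) : H →L[ℂ] H := 1 - K

/-- The adjoint contraction `1 - K*`. -/
noncomputable def cTs (K : H →L[ℂ] H) : H →L[ℂ] H := 1 - adjoint K

noncomputable def cD (K : H →L[ℂ] H) (Γ : H →L[ℂ] L) : H →L[ℂ] L := Γ ∘L adjoint K

noncomputable def cDs (K : H →L[ℂ] H) (Γ : H →L[ℂ] L) : L →L[ℂ] H := K ∘L adjoint Γ

noncomputable def cE (K : H →L[ℂ] H) (Γ : H →L[ℂ] L) : H →L[ℂ] L := Γ ∘L K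

noncomputable def cEs (K : H →L[ℂ] H) (Γ : H →L[ℂ] L) : L →L[ℂ] H := adjoint K ∘L adjoint Γ

noncomputable def cO (K : H →L[ℂ] H) (Γ : H →L[ℂ] L) : L →L[ℂ] L :=
  1 - Γ ∘L adjoint K ∘L adjoint Γ

noncomputable def cOs (K : H →L[ℂ] H) (Γ : H →L[ℂ] L) : L →L[ℂ] L :=
  1 - Γ ∘L K ∘L adjoint Γ

/-- The two identities that make the colligation unitary. -/
structure IsColl (K : H →L[ℂ] H) (Γ : H →L[ℂ] L) : Prop where
  hα : ∀ x, K (adjoint Γ (Γ (adjoint K x))) = K x + adjoint K x - K (adjoint K x)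
  hβ : ∀ x, adjoint K (adjoint Γ (Γ (K x))) = K x + adjoint K x - adjoint K (K x)

variable {K : H →L[ℂ] H} {Γ : H →L[ℂ] L}

lemma cT_apply (x : H) : cT K x = x - K x := rfl
lemma cTs_apply (x : H) : cTs K x = x - adjoint K x := rfl
lemma cD_apply (x : H) : cD K Γ x = Γ (adjoint K x) := rfl
lemma cDs_apply (x : L) : cDs K Γ x = K (adjoint Γ x) := rfl
lemma cE_apply (x : H) : cE K Γ x = Γ (K x) := rfl
lemma cEs_apply (x : L) : cEs K Γ x = adjoint K (adjoint Γ x) := rfl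
lemma cO_apply (x : L) : cO K Γ x = x - Γ (adjoint K (adjoint Γ x)) := rfl
lemma cOs_apply (x : L) : cOs K Γ x = x - Γ (K (adjoint Γ x)) := rfl

lemma inner_cTs (x y : H) : ⟪cTs K x, y⟫_ℂ = ⟪x, cT K y⟫_ℂ := by
  simp only [cTs_apply, cT_apply, inner_sub_left, inner_sub_right, adjoint_inner_left]

lemma inner_cT (x y : H) : ⟪cT K x, y⟫_ℂ = ⟪x, cTs K y⟫_ℂ := by
  simp only [cTs_apply, cT_apply, inner_sub_left, inner_sub_right, adjoint_inner_right]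

lemma inner_cD (x : H) (u : L) : ⟪cD K Γ x, u⟫_ℂ = ⟪x, cDs K Γ u⟫_ℂ := by
  simp only [cD_apply, cDs_apply]
  rw [← adjoint_inner_right, adjoint_inner_left]

lemma inner_cDs (x : H) (u : L) : ⟪cDs K Γ u, x⟫_ℂ = ⟪u, cD K Γ x⟫_ℂ := by
  simp only [cD_apply, cDs_apply]
  rw [← adjoint_inner_right, adjoint_inner_left]

lemma inner_cE (x : H) (u : L) : ⟪cE K Γ x, u⟫_ℂ = ⟪x, cEs K Γ u⟫_ℂ := by
  simp only [cE_apply, cEs_apply]
  rw [adjoint_inner_right, adjoint_inner_right]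

lemma inner_cEs (x : H) (u : L) : ⟪cEs K Γ u, x⟫_ℂ = ⟪u, cE K Γ x⟫_ℂ := by
  simp only [cE_apply, cEs_apply]
  rw [adjoint_inner_left, adjoint_inner_left]

lemma inner_cO (u v : L) : ⟪cO K Γ u, v⟫_ℂ = ⟪u, cOs K Γ v⟫_ℂ := by
  simp only [cO_apply, cOs_apply, inner_sub_left, inner_sub_right]
  rw [← adjoint_inner_right, adjoint_inner_left, adjoint_inner_left]

lemma inner_cOs (u v : L) : ⟪cOs K Γ u, v⟫_ℂ = ⟪u, cO K Γ v⟫_ℂ := by
  simp only [cO_apply, cOs_apply, inner_sub_left, inner_sub_right]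
  rw [← adjoint_inner_right, ← adjoint_inner_right, adjoint_inner_left]

namespace IsColl

variable (h : IsColl K Γ)
include h

lemma id1 (x : H) : cT K (cTs K x) + cDs K Γ (cD K Γ x) = x := by
  simp only [cT_apply, cTs_apply, cD_apply, cDs_apply, h.hα, map_sub]
  abel

lemma id2 (u : L) : cT K (cEs K Γ u) + cDs K Γ (cO K Γ u) = 0 := by
  simp only [cT_apply, cTs_apply, cD_apply, cDs_apply, cEs_apply, cO_apply, h.hα, map_sub,
    map_add]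
  abel

lemma id3 (u : L) : cE K Γ (cEs K Γ u) + cOs K Γ (cO K Γ u) = u := by
  simp only [cE_apply, cEs_apply, cO_apply, cOs_apply, h.hα, map_sub, map_add]
  abel

lemma id2' (x : H) : cE K Γ (cTs K x) + cOs K Γ (cD K Γ x) = 0 := by
  simp only [cE_apply, cTs_apply, cD_apply, cOs_apply, h.hα, map_sub, map_add]
  abel

lemma id4 (x : H) : cTs K (cT K x) + cEs K Γ (cE K Γ x) = x := by
  simp only [cT_apply, cTs_apply, cE_apply, cEs_apply, h.hβ, map_sub, map_add]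
  abel

lemma id5 (x : H) : cD K Γ (cT K x) + cO K Γ (cE K Γ x) = 0 := by
  simp only [cT_apply, cD_apply, cE_apply, cO_apply, h.hβ, map_sub, map_add]
  abel

lemma id5' (u : L) : cTs K (cDs K Γ u) + cEs K Γ (cOs K Γ u) = 0 := by
  simp only [cTs_apply, cDs_apply, cEs_apply, cOs_apply, h.hβ, map_sub, map_add]
  abel

lemma id6 (u : L) : cD K Γ (cDs K Γ u) + cO K Γ (cOs K Γ u) = u := by
  simp only [cD_apply, cDs_apply, cO_apply, cOs_apply, h.hβ, map_sub, map_add]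
  abel

lemma norm_Ts (x : H) : ‖cTs K x‖ ^ 2 + ‖cD K Γ x‖ ^ 2 = ‖x‖ ^ 2 := by
  have h1 : ⟪cTs K x, cTs K x⟫_ℂ + ⟪cD K Γ x, cD K Γ x⟫_ℂ = ⟪x, x⟫_ℂ := by
    rw [inner_cTs, inner_cD, ← inner_add_right, h.id1]
  have h2 := congrArg Complex.re h1
  rw [Complex.add_re] at h2
  rw [← inner_self_eq_norm_sq (𝕜 := ℂ), ← inner_self_eq_norm_sq (𝕜 := ℂ),
    ← inner_self_eq_norm_sq (𝕜 := ℂ)]
  exact h2

lemma norm_T (x : H) : ‖cT K x‖ ^ 2 + ‖cE K Γ x‖ ^ 2 = ‖x‖ ^ 2 := by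
  have h1 : ⟪cT K x, cT K x⟫_ℂ + ⟪cE K Γ x, cE K Γ x⟫_ℂ = ⟪x, x⟫_ℂ := by
    rw [inner_cT, inner_cE, ← inner_add_right, h.id4]
  have h2 := congrArg Complex.re h1
  rw [Complex.add_re] at h2
  rw [← inner_self_eq_norm_sq (𝕜 := ℂ), ← inner_self_eq_norm_sq (𝕜 := ℂ),
    ← inner_self_eq_norm_sq (𝕜 := ℂ)]
  exact h2

/-- Unitarity of the colligation (isometry part). -/
lemma energy (x : H) (u : L) :
    ‖cTs K x + cEs K Γ u‖ ^ 2 + ‖cD K Γ x + cO K Γ u‖ ^ 2 = ‖x‖ ^ 2 + ‖u‖ ^ 2 := by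
  have h1 : ⟪cTs K x + cEs K Γ u, cTs K x + cEs K Γ u⟫_ℂ +
      ⟪cD K Γ x + cO K Γ u, cD K Γ x + cO K Γ u⟫_ℂ = ⟪x, x⟫_ℂ + ⟪u, u⟫_ℂ := by
    have h3 : cT K (cTs K x + cEs K Γ u) + cDs K Γ (cD K Γ x + cO K Γ u) = x := by
      rw [map_add, map_add]
      calc _ = (cT K (cTs K x) + cDs K Γ (cD K Γ x)) +
          (cT K (cEs K Γ u) + cDs K Γ (cO K Γ u)) := by abel
        _ = x := by rw [h.id1, h.id2, add_zero]
    have h4 : cE K Γ (cTs K x + cEs K Γ u) + cOs K Γ (cD K Γ x + cO K Γ u) = u := by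
      rw [map_add, map_add]
      calc _ = (cE K Γ (cTs K x) + cOs K Γ (cD K Γ x)) +
          (cE K Γ (cEs K Γ u) + cOs K Γ (cO K Γ u)) := by abel
        _ = u := by rw [h.id2', h.id3, zero_add]
    rw [inner_add_left, inner_add_left, inner_cTs, inner_cEs, inner_cD, inner_cO]
    calc _ = ⟪x, cT K (cTs K x + cEs K Γ u) + cDs K Γ (cD K Γ x + cO K Γ u)⟫_ℂ +
          ⟪u, cE K Γ (cTs K x + cEs K Γ u) + cOs K Γ (cD K Γ x + cO K Γ u)⟫_ℂ := by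
            simp only [inner_add_right]; ring
      _ = _ := by rw [h3, h4]
  have h2 := congrArg Complex.re h1
  rw [Complex.add_re, Complex.add_re] at h2
  rw [← inner_self_eq_norm_sq (𝕜 := ℂ), ← inner_self_eq_norm_sq (𝕜 := ℂ),
    ← inner_self_eq_norm_sq (𝕜 := ℂ), ← inner_self_eq_norm_sq (𝕜 := ℂ)]
  exact h2

lemma norm_Ts_le : ‖cTs K‖ ≤ 1 := by
  refine ContinuousLinearMap.opNorm_le_bound _ zero_le_one fun x => ?_
  rw [one_mul]
  have h1 := h.norm_Ts x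
  have h2 : ‖cTs K x‖ ^ 2 ≤ ‖x‖ ^ 2 := by nlinarith [sq_nonneg ‖cD K Γ x‖]
  exact (sq_le_sq₀ (norm_nonneg _) (norm_nonneg _)).1 h2

end IsColl

/-- The resolvent `(1 - λ T*)⁻¹`. -/
noncomputable def cR (K : H →L[ℂ] H) (l : ℂ) : H →L[ℂ] H := Ring.inverse (1 - l • cTs K)

/-- `(1 - λ T*)⁻¹ D'*`. -/
noncomputable def cQ (K : H →L[ℂ] H) (Γ : H →L[ℂ] L) (l : ℂ) : L →L[ℂ] H := cR K l ∘L cEs K Γ

/-- The transfer function. -/
noncomputable def cθ (K : H →L[ℂ] H) (Γ : H →L[ℂ] L) (l : ℂ) : L →L[ℂ] L :=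
  cO K Γ + l • (cD K Γ ∘L cQ K Γ l)

lemma cθ_apply (l : ℂ) (u : L) : cθ K Γ l u = cO K Γ u + l • cD K Γ (cQ K Γ l u) := rfl

namespace IsColl

variable (h : IsColl K Γ)
include h

lemma norm_smul_Ts_lt {l : ℂ} (hl : ‖l‖ < 1) : ‖l • cTs K‖ < 1 := by
  rw [norm_smul]
  have := h.norm_Ts_le
  nlinarith [norm_nonneg l, norm_nonneg (cTs K)]

lemma isUnit_one_sub {l : ℂ} (hl : ‖l‖ < 1) : IsUnit (1 - l • cTs K) :=
  isUnit_one_sub_of_norm_lt_one (h.norm_smul_Ts_lt hl)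

lemma cR_eq {l : ℂ} (hl : ‖l‖ < 1) (x : H) : cR K l x = x + l • cTs K (cR K l x) := by
  have h1 : (1 - l • cTs K) * cR K l = 1 := Ring.mul_inverse_cancel _ (h.isUnit_one_sub hl)
  have h2 := congrArg (fun A : H →L[ℂ] H => A x) h1
  simp only [mul_apply_eq_comp, sub_apply,
    one_apply_eq_self, smul_apply] at h2
  rw [sub_eq_iff_eq_add] at h2
  exact h2

lemma cR_eq' {l : ℂ} (hl : ‖l‖ < 1) (x : H) : cR K l (x - l • cTs K x) = x := by
  have h1 : cR K l * (1 - l • cTs K) = 1 := Ring.inverse_mul_cancel _ (h.isUnit_one_sub hl)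
  have h2 := congrArg (fun A : H →L[ℂ] H => A x) h1
  simpa only [mul_apply_eq_comp, sub_apply,
    one_apply_eq_self, smul_apply] using h2

lemma cQ_eq {l : ℂ} (hl : ‖l‖ < 1) (u : L) :
    cQ K Γ l u = cEs K Γ u + l • cTs K (cQ K Γ l u) := h.cR_eq hl (cEs K Γ u)

lemma energy_θ {l : ℂ} (hl : ‖l‖ < 1) (u : L) :
    ‖cQ K Γ l u‖ ^ 2 + ‖cθ K Γ l u‖ ^ 2 = ‖l‖ ^ 2 * ‖cQ K Γ l u‖ ^ 2 + ‖u‖ ^ 2 := by
  have h1 := h.energy (l • cQ K Γ l u) u
  rw [map_smul, map_smul, norm_smul, mul_pow] at h1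
  rw [← h1]
  congr 2
  · rw [add_comm, ← h.cQ_eq hl]
  · rw [cθ_apply, add_comm]

lemma norm_θ_le {l : ℂ} (hl : ‖l‖ < 1) (u : L) : ‖cθ K Γ l u‖ ≤ ‖u‖ := by
  have h1 := h.energy_θ hl u
  have h2 : ‖l‖ ^ 2 ≤ 1 := by
    have := norm_nonneg l
    nlinarith
  have h3 : ‖cθ K Γ l u‖ ^ 2 ≤ ‖u‖ ^ 2 := by
    nlinarith [sq_nonneg ‖cQ K Γ l u‖]
  exact (sq_le_sq₀ (norm_nonneg _) (norm_nonneg _)).1 h3

lemma opNorm_θ_le {l : ℂ} (hl : ‖l‖ < 1) : ‖cθ K Γ l‖ ≤ 1 :=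
  ContinuousLinearMap.opNorm_le_bound _ zero_le_one fun u => by
    rw [one_mul]; exact h.norm_θ_le hl u

lemma differentiableAt_R {l : ℂ} (hl : ‖l‖ < 1) : DifferentiableAt ℂ (cR K) l := by
  have h1 : DifferentiableAt ℂ (fun l : ℂ => (1 : H →L[ℂ] H) - l • cTs K) l := by fun_prop
  obtain ⟨u, hu⟩ := h.isUnit_one_sub hl
  have h2 : DifferentiableAt ℂ (Ring.inverse : (H →L[ℂ] H) → (H →L[ℂ] H))
      ((1 : H →L[ℂ] H) - l • cTs K) := by
    rw [← hu]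
    exact (hasFDerivAt_ringInverse (𝕜 := ℂ) u).differentiableAt
  exact DifferentiableAt.comp l h2 h1

lemma differentiableAt_Q {l : ℂ} (hl : ‖l‖ < 1) : DifferentiableAt ℂ (cQ K Γ) l := by
  unfold cQ
  exact (h.differentiableAt_R hl).clm_comp (differentiableAt_const _)

lemma differentiableAt_θ {l : ℂ} (hl : ‖l‖ < 1) : DifferentiableAt ℂ (cθ K Γ) l := by
  unfold cθ
  have h1 := (differentiableAt_const (𝕜 := ℂ) (x := l) (cD K Γ)).clm_comp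
    (h.differentiableAt_Q hl)
  exact (differentiableAt_const _).add (differentiableAt_id.smul h1)

end IsColl

end algebra

end Pool.Agent.P8b2208
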