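import Pool.Agent.P8b2208.Sym4

open MeasureTheory AddCircle Filter Topology
open scoped ENNReal InnerProductSpace ComplexConjugate

set_option linter.unusedSectionVars false
set_option linter.unusedSimpArgs false

namespace Pool.Agent.P8b2208

/-- Boundary values of a disc algebra function. -/
lemma isAn_of_diffContOnCl {G : ℂ → ℂ} (hG : DiffContOnCl ℂ G (Metric.ball 0 1)) (b : C(Circ, ℂ))
    (hb : ∀ t, b t = G (toCircle t)) : IsAn b := by
  intro n hn
  obtain ⟨m, hm⟩ : ∃ m : ℕ, -n = (m : ℤ) + 1 := ⟨(-n - 1).toNat, by omega⟩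
  have h1 : DiffContOnCl ℂ (fun z => z ^ m * G z) (Metric.ball 0 1) := by
    have h2 : DiffContOnCl ℂ (fun z : ℂ => z ^ m) (Metric.ball 0 1) :=
      (differentiable_id.pow m).diffContOnCl
    exact h2.smul hG
  have h3 := h1.circleIntegral_eq_zero zero_le_one
  rw [circleIntegral] at h3
  rw [fourierCoeff_eq_intervalIntegral _ _ 0, zero_add]
  have h4 : ∫ x in (0 : ℝ)..2 * Real.pi, (fourier (-n) (x : Circ) : ℂ) • b (x : Circ) = 0 := by
    have h5 : ∀ x : ℝ, deriv (circleMap 0 1) x • ((circleMap 0 1 x) ^ m * G (circleMap 0 1 x)) =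
        Complex.I * ((fourier (-n) (x : Circ) : ℂ) • b (x : Circ)) := by
      intro x
      have h6 : (toCircle (x : Circ) : ℂ) = circleMap 0 1 x := by
        rw [AddCircle.toCircle_apply_mk, Circle.coe_exp]
        have : 2 * Real.pi / (2 * Real.pi) * x = x := by
          field_simp
        rw [this]
        simp [circleMap]
      have h7 : (fourier (-n) (x : Circ) : ℂ) = (circleMap 0 1 x) ^ (m + 1) := by
        rw [hm, fourier_apply, ← h6]
        have : ((m : ℤ) + 1) • (x : Circ) = (m + 1) • (x : Circ) := by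
          rw [← natCast_zsmul]; push_cast; rfl
        rw [this, AddCircle.toCircle_nsmul]
        rfl
      rw [deriv_circleMap, h7, hb, h6, smul_eq_mul, smul_eq_mul]
      ring
    simp only [h5] at h3
    rw [intervalIntegral.integral_const_mul] at h3
    rcases mul_eq_zero.1 h3 with h8 | h8
    · exact absurd h8 Complex.I_ne_zero
    · exact h8
  rw [h4, smul_zero]

/-- principal square roots of `1 + z` and `1 - z` -/
noncomputable def pf (z : ℂ) : ℂ := (1 + z) ^ (2⁻¹ : ℂ)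

noncomputable def qf (z : ℂ) : ℂ := (1 - z) ^ (2⁻¹ : ℂ)

lemma pf_sq (z : ℂ) : pf z ^ 2 = 1 + z := Complex.cpow_ofNat_inv_pow (1 + z) 2

lemma qf_sq (z : ℂ) : qf z ^ 2 = 1 - z := Complex.cpow_ofNat_inv_pow (1 - z) 2

lemma sqrt_re_nonneg (w : ℂ) : 0 ≤ (w ^ (2⁻¹ : ℂ)).re := by
  rw [Complex.cpow_inv_two_re]
  exact Real.sqrt_nonneg _

/-- if `Re w ≥ 0` and `Re w² ≥ 0` then `|Im w| ≤ Re w`. -/
lemma abs_im_le_re {w : ℂ} (h0 : 0 ≤ w.re) (h : 0 ≤ (w ^ 2).re) : |w.im| ≤ w.re := by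
  rw [pow_two, Complex.mul_re] at h
  exact abs_le_of_sq_le_sq (by nlinarith) h0

lemma re_bound {z : ℂ} (hz : ‖z‖ ≤ 1) : -1 ≤ z.re ∧ z.re ≤ 1 := by
  have := Complex.abs_re_le_norm z
  rw [abs_le] at this
  constructor <;> linarith [this.1, this.2]

lemma pf_abs {z : ℂ} (hz : ‖z‖ ≤ 1) : |(pf z).im| ≤ (pf z).re := by
  have h : 0 ≤ (pf z ^ 2).re := by
    rw [pf_sq]
    have := re_bound hz
    simp only [Complex.add_re, Complex.one_re]
    linarith
  exact abs_im_le_re (sqrt_re_nonneg _) h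

lemma qf_abs {z : ℂ} (hz : ‖z‖ ≤ 1) : |(qf z).im| ≤ (qf z).re := by
  have h : 0 ≤ (qf z ^ 2).re := by
    rw [qf_sq]
    have := re_bound hz
    simp only [Complex.sub_re, Complex.one_re]
    linarith
  exact abs_im_le_re (sqrt_re_nonneg _) h

lemma not_both_zero {z : ℂ} (hp : pf z = 0) (hq : qf z = 0) : False := by
  have h1 := pf_sq z
  have h2 := qf_sq z
  rw [hp] at h1
  rw [hq] at h2
  have h3 : (2 : ℂ) = 0 := by linear_combination (-1 : ℂ) * h1 + (-1 : ℂ) * h2
  norm_num at h3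

/-- first denominator `(1+i) q + p` -/
noncomputable def d1 (z : ℂ) : ℂ := (1 + Complex.I) * qf z + pf z

/-- second denominator `2 q + (1+i) p` -/
noncomputable def d2 (z : ℂ) : ℂ := 2 * qf z + (1 + Complex.I) * pf z

lemma eq_zero_of_re {w : ℂ} (h : |w.im| ≤ w.re) (h0 : w.re = 0) : w = 0 := by
  rw [h0] at h
  have : w.im = 0 := abs_eq_zero.1 (le_antisymm h (abs_nonneg _))
  exact Complex.ext h0 this

lemma d1_ne {z : ℂ} (hz : ‖z‖ ≤ 1) : d1 z ≠ 0 := by
  intro h
  have hp := pf_abs hz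
  have hq := qf_abs hz
  have h1 := congrArg Complex.re h
  simp only [d1, Complex.add_re, Complex.mul_re, Complex.one_re, Complex.I_re, Complex.add_im,
    Complex.one_im, Complex.I_im, Complex.zero_re] at h1
  have h2 := abs_le.1 hp
  have h3 := abs_le.1 hq
  have hp0 : (pf z).re = 0 := by
    have := abs_nonneg (pf z).im
    linarith [h3.2]
  have hp' := eq_zero_of_re hp hp0
  have hq' : qf z = 0 := by
    rw [d1, hp', add_zero] at h
    rcases mul_eq_zero.1 h with h4 | h4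
    · have := congrArg Complex.re h4
      simp at this
    · exact h4
  exact not_both_zero hp' hq'

lemma d2_ne {z : ℂ} (hz : ‖z‖ ≤ 1) : d2 z ≠ 0 := by
  intro h
  have hp := pf_abs hz
  have hq := qf_abs hz
  have h1 := congrArg Complex.re h
  simp only [d2, Complex.add_re, Complex.mul_re, Complex.one_re, Complex.I_re, Complex.add_im,
    Complex.one_im, Complex.I_im, Complex.zero_re, Complex.re_ofNat, Complex.im_ofNat] at h1
  have h2 := abs_le.1 hp
  have h3 := abs_le.1 hq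
  have hq0 : (qf z).re = 0 := by
    have := abs_nonneg (qf z).im
    linarith [h2.2]
  have hq' := eq_zero_of_re hq hq0
  have hp' : pf z = 0 := by
    rw [d2, hq', mul_zero, zero_add] at h
    rcases mul_eq_zero.1 h with h4 | h4
    · have := congrArg Complex.re h4
      simp at this
    · exact h4
  exact not_both_zero hp' hq'

lemma diffContOnCl_sqrt {g : ℂ → ℂ} (hg : Differentiable ℂ g)
    (h0 : ∀ z : ℂ, ‖z‖ < 1 → 0 < (g z).re) (h1 : ∀ z : ℂ, ‖z‖ ≤ 1 → 0 ≤ (g z).re) :
    DiffContOnCl ℂ (fun z => (g z) ^ (2⁻¹ : ℂ)) (Metric.ball 0 1) := by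
  constructor
  · intro z hz
    rw [mem_ball_zero_iff] at hz
    have h2 : g z ∈ Complex.slitPlane := Or.inl (h0 z hz)
    exact (DifferentiableAt.cpow_const (hg z) h2).differentiableWithinAt
  · rw [closure_ball _ one_ne_zero]
    intro z hz
    rw [mem_closedBall_zero_iff] at hz
    have h3 := Complex.continuousAt_cpow_const_of_re_pos (z := g z) (w := 2⁻¹) (Or.inl (h1 z hz))
      (by norm_num)
    exact (ContinuousAt.comp (f := g) h3 hg.continuous.continuousAt).continuousWithinAt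

lemma diffContOnCl_pf : DiffContOnCl ℂ pf (Metric.ball 0 1) := by
  apply diffContOnCl_sqrt (g := fun z => 1 + z) (by fun_prop)
  · intro z hz
    have h1 := Complex.abs_re_le_norm z
    have h2 := (abs_lt.1 (lt_of_le_of_lt h1 hz)).1
    simp only [Complex.add_re, Complex.one_re]
    linarith
  · intro z hz
    have := re_bound hz
    simp only [Complex.add_re, Complex.one_re]
    linarith

lemma diffContOnCl_qf : DiffContOnCl ℂ qf (Metric.ball 0 1) := by
  apply diffContOnCl_sqrt (g := fun z => 1 - z) (by fun_prop)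
  · intro z hz
    have h1 := Complex.abs_re_le_norm z
    have h2 := (abs_lt.1 (lt_of_le_of_lt h1 hz)).2
    simp only [Complex.sub_re, Complex.one_re]
    linarith
  · intro z hz
    have := re_bound hz
    simp only [Complex.sub_re, Complex.one_re]
    linarith

lemma diffContOnCl_d1 : DiffContOnCl ℂ d1 (Metric.ball 0 1) :=
  (diffContOnCl_qf.const_smul (1 + Complex.I)).add diffContOnCl_pf

lemma diffContOnCl_d2 : DiffContOnCl ℂ d2 (Metric.ball 0 1) :=
  (diffContOnCl_qf.const_smul (2 : ℂ)).add (diffContOnCl_pf.const_smul (1 + Complex.I))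

/-- `c = (2q + (1+i)p) / (2((1+i)q + p))` -/
noncomputable def cf (z : ℂ) : ℂ := (2⁻¹ * d2 z) * (d1 z)⁻¹

/-- `κ = 1/c`. -/
noncomputable def kf (z : ℂ) : ℂ := (2 * d1 z) * (d2 z)⁻¹

lemma closure_ball_norm {z : ℂ} (hz : z ∈ closure (Metric.ball (0 : ℂ) 1)) : ‖z‖ ≤ 1 := by
  rw [closure_ball _ one_ne_zero, mem_closedBall_zero_iff] at hz
  exact hz

lemma diffContOnCl_cf : DiffContOnCl ℂ cf (Metric.ball 0 1) :=
  (diffContOnCl_d2.const_smul (2⁻¹ : ℂ)).smul
    (diffContOnCl_d1.inv fun _ hz => d1_ne (closure_ball_norm hz))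

lemma diffContOnCl_kf : DiffContOnCl ℂ kf (Metric.ball 0 1) :=
  (diffContOnCl_d1.const_smul (2 : ℂ)).smul
    (diffContOnCl_d2.inv fun _ hz => d2_ne (closure_ball_norm hz))

lemma continuous_circle_comp {G : ℂ → ℂ} (hG : DiffContOnCl ℂ G (Metric.ball 0 1)) :
    Continuous (fun t : Circ => G (toCircle t)) := by
  have h1 := hG.continuousOn
  rw [closure_ball _ one_ne_zero] at h1
  refine h1.comp_continuous continuous_toCircle' fun t => ?_
  rw [mem_closedBall_zero_iff, Circle.norm_coe]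

/-- the symbol `c` -/
noncomputable def cs : C(Circ, ℂ) := ⟨fun t => cf (toCircle t), continuous_circle_comp diffContOnCl_cf⟩

/-- the symbol `κ` -/
noncomputable def ks : C(Circ, ℂ) := ⟨fun t => kf (toCircle t), continuous_circle_comp diffContOnCl_kf⟩

lemma isAn_cs : IsAn cs := isAn_of_diffContOnCl diffContOnCl_cf cs fun _ => rfl

lemma isAn_ks : IsAn ks := isAn_of_diffContOnCl diffContOnCl_kf ks fun _ => rfl

lemma ks_mul_cs : ks * cs = 1 := by
  ext t
  have h1 : ‖(toCircle t : ℂ)‖ ≤ 1 := (Circle.norm_coe _).le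
  have h2 := d1_ne h1
  have h3 := d2_ne h1
  change (2 * d1 _) * (d2 _)⁻¹ * ((2⁻¹ * d2 _) * (d1 _)⁻¹) = 1
  field_simp

/-- `X = (1+i) q p̄` -/
noncomputable def Xf (z : ℂ) : ℂ := (1 + Complex.I) * qf z * conj (pf z)

lemma Xf_sq {z : ℂ} (hz : ‖z‖ = 1) : Xf z ^ 2 = ((4 * z.im : ℝ) : ℂ) := by
  have h1 : Xf z ^ 2 = (1 + Complex.I) ^ 2 * qf z ^ 2 * conj (pf z ^ 2) := by
    rw [Xf, map_pow]; ring
  rw [h1, pf_sq, qf_sq, map_add, map_one]
  have h2 : z * conj z = 1 := by
    rw [Complex.mul_conj, Complex.normSq_eq_norm_sq, hz]; norm_num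
  have h3 : z - conj z = 2 * Complex.I * (z.im : ℂ) := by
    apply Complex.ext
    · simp
    · simp; ring
  have h4 : (1 + Complex.I) ^ 2 = 2 * Complex.I := by
    have := Complex.I_sq
    linear_combination this
  calc (1 + Complex.I) ^ 2 * (1 - z) * (1 + conj z)
      = 2 * Complex.I * (1 - (z - conj z) - z * conj z) := by rw [h4]; ring
    _ = ((4 * z.im : ℝ) : ℂ) := by
        rw [h2, h3]
        push_cast
        have := Complex.I_sq
        linear_combination (-4 * (z.im : ℂ)) * this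

lemma Xf_re_im {z : ℂ} (hz : ‖z‖ = 1) :
    (Xf z).re * (Xf z).im = 0 ∧ (Xf z).re ^ 2 - (Xf z).im ^ 2 = 4 * z.im := by
  have h := Xf_sq hz
  have h1 := congrArg Complex.re h
  have h2 := congrArg Complex.im h
  rw [pow_two, Complex.mul_re, Complex.ofReal_re] at h1
  rw [pow_two, Complex.mul_im, Complex.ofReal_im] at h2
  constructor
  · linarith
  · nlinarith

/-- `Re X + Im X ≥ 0`: since `q p̄` has nonnegative real part. -/
lemma Xf_sum_nonneg {z : ℂ} (hz : ‖z‖ ≤ 1) : 0 ≤ (Xf z).re + (Xf z).im := by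
  have hp := abs_le.1 (pf_abs hz)
  have hq := abs_le.1 (qf_abs hz)
  have h1 : (Xf z).re + (Xf z).im = 2 * ((qf z).re * (pf z).re + (qf z).im * (pf z).im) := by
    simp only [Xf, Complex.mul_re, Complex.mul_im, Complex.add_re, Complex.add_im, Complex.one_re,
      Complex.one_im, Complex.I_re, Complex.I_im, Complex.conj_re, Complex.conj_im]
    ring
  rw [h1]
  nlinarith [mul_nonneg (by linarith [hp.1, hp.2] : 0 ≤ (pf z).re + (pf z).im)
    (by linarith [hq.1, hq.2] : 0 ≤ (qf z).re + (qf z).im),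
    mul_nonneg (by linarith [hp.1, hp.2] : 0 ≤ (pf z).re - (pf z).im)
    (by linarith [hq.1, hq.2] : 0 ≤ (qf z).re - (qf z).im)]

lemma Xf_im_of_nonneg {z : ℂ} (hz : ‖z‖ = 1) (h : 0 ≤ z.im) : (Xf z).im = 0 := by
  obtain ⟨h1, h2⟩ := Xf_re_im hz
  rcases mul_eq_zero.1 h1 with h3 | h3
  · rw [h3] at h2
    have h4 : (Xf z).im ^ 2 = 0 := by nlinarith [sq_nonneg (Xf z).im]
    exact pow_eq_zero_iff (two_ne_zero) |>.1 h4
  · exact h3

lemma Xf_im_of_neg {z : ℂ} (hz : ‖z‖ = 1) (h : z.im < 0) : 0 < (Xf z).im := by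
  obtain ⟨h1, h2⟩ := Xf_re_im hz
  have h5 := Xf_sum_nonneg hz.le
  rcases mul_eq_zero.1 h1 with h3 | h3
  · rw [h3, zero_add] at h5
    rcases lt_or_eq_of_le h5 with h6 | h6
    · exact h6
    · rw [h3, ← h6] at h2
      norm_num at h2
      linarith
  · rw [h3] at h2
    nlinarith [sq_nonneg (Xf z).re]

/-- `2 Re c - 1 = 2 Im X / |d1|²`. -/
lemma two_re_cf {z : ℂ} (hz : ‖z‖ ≤ 1) :
    2 * (cf z).re - 1 = 2 * (Xf z).im / Complex.normSq (d1 z) := by
  have hd := d1_ne hz
  have hn : Complex.normSq (d1 z) ≠ 0 := by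
    rwa [Ne, Complex.normSq_eq_zero]
  rw [eq_div_iff hn]
  have h1 : cf z = (2⁻¹ * d2 z * conj (d1 z)) * (((Complex.normSq (d1 z))⁻¹ : ℝ) : ℂ) := by
    rw [cf, Complex.inv_def (d1 z)]
    push_cast
    ring
  rw [h1, Complex.re_mul_ofReal]
  have h2 : 2 * ((2⁻¹ * d2 z * conj (d1 z)).re * (Complex.normSq (d1 z))⁻¹) *
      Complex.normSq (d1 z) = 2 * (2⁻¹ * d2 z * conj (d1 z)).re := by
    field_simp
  rw [sub_mul, h2, one_mul, Complex.normSq_apply]
  simp only [Xf, d1, d2, Complex.mul_re, Complex.mul_im, Complex.add_re, Complex.add_im,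
    Complex.one_re, Complex.one_im, Complex.I_re, Complex.I_im, Complex.conj_re, Complex.conj_im,
    Complex.inv_re, Complex.inv_im, Complex.re_ofNat, Complex.im_ofNat, Complex.normSq_ofNat]
  ring

lemma cs_nonneg (t : Circ) : 0 ≤ 2 * (cs t).re - 1 := by
  have h1 : ‖(toCircle t : ℂ)‖ = 1 := Circle.norm_coe _
  change 0 ≤ 2 * (cf _).re - 1
  rw [two_re_cf h1.le]
  apply div_nonneg _ (Complex.normSq_nonneg _)
  rcases lt_or_ge (toCircle t : ℂ).im 0 with h | h
  · linarith [Xf_im_of_neg h1 h]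
  · rw [Xf_im_of_nonneg h1 h]; norm_num

/-- the weight `ρ = (2 Re c - 1)^{1/2}` -/
noncomputable def rs : C(Circ, ℂ) :=
  ⟨fun t => ((Real.sqrt (2 * (cs t).re - 1) : ℝ) : ℂ),
    Complex.continuous_ofReal.comp (Real.continuous_sqrt.comp
      ((continuous_const.mul (Complex.continuous_re.comp (map_continuous cs))).sub
        continuous_const))⟩

lemma rs_eq_zero_iff (t : Circ) : rs t = 0 ↔ 0 ≤ (toCircle t : ℂ).im := by
  have h1 : ‖(toCircle t : ℂ)‖ = 1 := Circle.norm_coe _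
  have h2 : rs t = 0 ↔ 2 * (cs t).re - 1 = 0 := by
    change ((Real.sqrt (2 * (cs t).re - 1) : ℝ) : ℂ) = 0 ↔ _
    rw [Complex.ofReal_eq_zero, Real.sqrt_eq_zero (cs_nonneg t)]
  rw [h2]
  change 2 * (cf _).re - 1 = 0 ↔ _
  rw [two_re_cf h1.le]
  have hn : Complex.normSq (d1 (toCircle t : ℂ)) ≠ 0 := by
    rw [Ne, Complex.normSq_eq_zero]
    exact d1_ne h1.le
  constructor
  · intro h
    by_contra hcon
    have h3 := Xf_im_of_neg h1 (not_le.1 hcon)
    rcases div_eq_zero_iff.1 h with h4 | h4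
    · linarith
    · exact hn h4
  · intro h
    rw [Xf_im_of_nonneg h1 h]; simp

lemma toCircle_inj : Function.Injective (toCircle : Circ → Circle) :=
  injective_toCircle (by positivity)

lemma cf_injOn {z w : ℂ} (hz : ‖z‖ ≤ 1) (hw : ‖w‖ ≤ 1) (h : cf z = cf w) : z = w := by
  have h1 := d1_ne hz
  have h2 := d1_ne hw
  rw [cf, cf, ← div_eq_mul_inv, ← div_eq_mul_inv, div_eq_div_iff h1 h2] at h
  have h3 : d2 z * d1 w = d2 w * d1 z := by
    have := congrArg (fun x => 2 * x) h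
    simpa [mul_assoc] using this
  simp only [d1, d2] at h3
  have h4 : (1 - Complex.I) * (qf z * pf w) = (1 - Complex.I) * (pf z * qf w) := by
    have hI := Complex.I_sq
    linear_combination (1 / 2 : ℂ) * h3 + (1 / 2 : ℂ) * (qf z * pf w - pf z * qf w) * hI
  have h5 : qf z * pf w = pf z * qf w := by
    apply mul_left_cancel₀ _ h4
    intro h0
    have := congrArg Complex.re h0
    simp at this
  have h6 : (1 - z) * (1 + w) = (1 + z) * (1 - w) := by
    rw [← pf_sq, ← qf_sq, ← pf_sq, ← qf_sq, ← mul_pow, ← mul_pow, h5]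
  linear_combination (-1 / 2 : ℂ) * h6

lemma cs_inj {s t : Circ} (h : cs s = cs t) : s = t := by
  have h1 : (toCircle s : ℂ) = (toCircle t : ℂ) :=
    cf_injOn (Circle.norm_coe _).le (Circle.norm_coe _).le h
  exact toCircle_inj (Circle.ext h1)

end Pool.Agent.P8b2208
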