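import Pool.Agent.P8b2208.Concrete

open MeasureTheory AddCircle Filter Topology
open scoped ENNReal InnerProductSpace ComplexConjugate

set_option linter.unusedSectionVars false
set_option linter.unusedSimpArgs false

namespace Pool.Agent.P8b2208

lemma rs_star : star rs = rs := by
  ext t
  change conj (((Real.sqrt (2 * (cs t).re - 1) : ℝ) : ℂ)) = _
  rw [Complex.conj_ofReal]
  rfl

lemma rs_sq : rs * rs = cs + star cs - 1 := by
  ext t
  change ((Real.sqrt (2 * (cs t).re - 1) : ℝ) : ℂ) * ((Real.sqrt (2 * (cs t).re - 1) : ℝ) : ℂ) =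
    cs t + conj (cs t) - 1
  rw [← Complex.ofReal_mul, Real.mul_self_sqrt (cs_nonneg t), Complex.add_conj]
  push_cast
  ring

lemma continuous_im_circle : Continuous (fun t : Circ => (toCircle t : ℂ).im) :=
  Complex.continuous_im.comp continuous_toCircle'

lemma toCircle_pi_div_two : (toCircle ((Real.pi / 2 : ℝ) : Circ) : ℂ) = Complex.I := by
  rw [AddCircle.toCircle_apply_mk, Circle.coe_exp]
  have : 2 * Real.pi / (2 * Real.pi) * (Real.pi / 2) = Real.pi / 2 := by field_simp
  rw [this]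
  push_cast
  exact Complex.exp_pi_div_two_mul_I

lemma toCircle_neg_pi_div_two : (toCircle ((-(Real.pi / 2) : ℝ) : Circ) : ℂ) = -Complex.I := by
  rw [AddCircle.toCircle_apply_mk, Circle.coe_exp]
  have : 2 * Real.pi / (2 * Real.pi) * (-(Real.pi / 2)) = -(Real.pi / 2) := by field_simp
  rw [this]
  push_cast
  rw [← neg_div]
  exact Complex.exp_neg_pi_div_two_mul_I

lemma nontrivial_circ : Nontrivial Circ := by
  refine ⟨((Real.pi / 2 : ℝ) : Circ), ((-(Real.pi / 2) : ℝ) : Circ), ?_⟩
  intro h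
  have h1 : (toCircle ((Real.pi / 2 : ℝ) : Circ) : ℂ) =
    (toCircle ((-(Real.pi / 2) : ℝ) : Circ) : ℂ) := by rw [h]
  rw [toCircle_pi_div_two, toCircle_neg_pi_div_two] at h1
  have h2 := congrArg Complex.im h1
  simp at h2
  norm_num at h2

lemma nullSingleton : NullSingletonClass (mu : Measure Circ) := by
  have := nontrivial_circ
  have : (𝓝[≠] (0 : Circ)).NeBot := inferInstance
  infer_instance

lemma pos_upper : mu {t | rs t = 0} ≠ 0 := by
  have h1 : IsOpen {t : Circ | 0 < (toCircle t : ℂ).im} :=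
    isOpen_lt continuous_const continuous_im_circle
  have h2 : {t : Circ | 0 < (toCircle t : ℂ).im}.Nonempty := by
    refine ⟨((Real.pi / 2 : ℝ) : Circ), ?_⟩
    change 0 < (toCircle ((Real.pi / 2 : ℝ) : Circ) : ℂ).im
    rw [toCircle_pi_div_two]
    simp
  have h3 := h1.measure_pos mu h2
  have h4 : mu {t : Circ | 0 < (toCircle t : ℂ).im} ≤ mu {t | rs t = 0} := by
    apply measure_mono
    intro t ht
    exact (rs_eq_zero_iff t).2 (le_of_lt ht)
  exact (lt_of_lt_of_le h3 h4).ne'

lemma pos_lower : mu {t | rs t ≠ 0} ≠ 0 := by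
  have h1 : IsOpen {t : Circ | (toCircle t : ℂ).im < 0} :=
    isOpen_lt continuous_im_circle continuous_const
  have h2 : {t : Circ | (toCircle t : ℂ).im < 0}.Nonempty := by
    refine ⟨((-(Real.pi / 2) : ℝ) : Circ), ?_⟩
    change (toCircle ((-(Real.pi / 2) : ℝ) : Circ) : ℂ).im < 0
    rw [toCircle_neg_pi_div_two]
    simp
  have h3 := h1.measure_pos mu h2
  have h4 : mu {t : Circ | (toCircle t : ℂ).im < 0} ≤ mu {t | rs t ≠ 0} := by
    apply measure_mono
    intro t ht h0
    have := (rs_eq_zero_iff t).1 h0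
    exact absurd ht (not_lt.2 this)
  exact (lt_of_lt_of_le h3 h4).ne'

/-- The (finite) set of points with `Im ζ = 0`. -/
lemma finite_real : {t : Circ | (toCircle t : ℂ).im = 0}.Finite := by
  have h1 : {t : Circ | (toCircle t : ℂ).im = 0} ⊆
      (fun t : Circ => (toCircle t : ℂ)) ⁻¹' {1, -1} := by
    intro t ht
    have h2 : ‖(toCircle t : ℂ)‖ ^ 2 = 1 := by rw [Circle.norm_coe]; norm_num
    rw [← Complex.normSq_eq_norm_sq, Complex.normSq_apply] at h2
    have h3 : (toCircle t : ℂ).im = 0 := ht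
    rw [h3, mul_zero, add_zero] at h2
    have h4 : ((toCircle t : ℂ).re - 1) * ((toCircle t : ℂ).re + 1) = 0 := by linarith
    rcases mul_eq_zero.1 h4 with h5 | h5
    · left
      apply Complex.ext
      · rw [Complex.one_re]; linarith
      · rw [Complex.one_im]; exact h3
    · right
      apply Complex.ext
      · rw [Complex.neg_re, Complex.one_re]; linarith
      · rw [Complex.neg_im, Complex.one_im, neg_zero]; exact h3
  refine Set.Finite.subset (Set.Finite.preimage ?_ (Set.toFinite _)) h1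
  intro s _ t _ hst
  exact toCircle_inj (Circle.ext hst)

lemma mu_finite_zero {S : Set Circ} (hS : S.Finite) : mu S = 0 := by
  have := nullSingleton
  exact hS.measure_zero _

lemma norm_φs_le (s : Circ) : ‖(1 - ks) s‖ ^ 2 =
    1 - (2 * (cs s).re - 1) / ‖cs s‖ ^ 2 := by
  have hc : cs s ≠ 0 := by
    have h1 := congrArg (fun f : C(Circ, ℂ) => f s) ks_mul_cs
    simp only [ContinuousMap.mul_apply, ContinuousMap.one_apply] at h1
    intro h0
    rw [h0, mul_zero] at h1
    exact zero_ne_one h1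
  have hk : ks s = (cs s)⁻¹ := by
    have h1 := congrArg (fun f : C(Circ, ℂ) => f s) ks_mul_cs
    simp only [ContinuousMap.mul_apply, ContinuousMap.one_apply] at h1
    exact eq_inv_of_mul_eq_one_left h1
  have h1 : (1 - ks) s = (cs s - 1) / cs s := by
    simp only [ContinuousMap.sub_apply, ContinuousMap.one_apply]
    rw [hk]
    field_simp
  have hc' : ‖cs s‖ ^ 2 ≠ 0 := by positivity
  rw [h1, norm_div, div_pow, eq_sub_iff_add_eq, ← add_div, div_eq_one_iff_eq hc',
    ← Complex.normSq_eq_norm_sq, ← Complex.normSq_eq_norm_sq, Complex.normSq_apply,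
    Complex.normSq_apply]
  simp only [Complex.sub_re, Complex.one_re, Complex.sub_im, Complex.one_im]
  ring

lemma norm_φs_eq_one_of {s : Circ} (h : (toCircle s : ℂ).im = 0) : ‖(1 - ks) s‖ = 1 := by
  have h1 := norm_φs_le s
  have h2 : rs s = 0 := (rs_eq_zero_iff s).2 h.ge
  have h3 : 2 * (cs s).re - 1 = 0 := by
    have h4 : ((Real.sqrt (2 * (cs s).re - 1) : ℝ) : ℂ) = 0 := h2
    rw [Complex.ofReal_eq_zero, Real.sqrt_eq_zero (cs_nonneg s)] at h4
    exact h4
  rw [h3, zero_div, sub_zero] at h1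
  have h5 : ‖(1 - ks) s‖ ^ 2 = 1 ^ 2 := by rw [h1]; norm_num
  exact (sq_eq_sq₀ (norm_nonneg _) zero_le_one).1 h5

lemma norm_φs_lt_of {s : Circ} (h : (toCircle s : ℂ).im < 0) : ‖(1 - ks) s‖ < 1 := by
  have h1 := norm_φs_le s
  have h2 : rs s ≠ 0 := fun h0 => absurd h (not_lt.2 ((rs_eq_zero_iff s).1 h0))
  have h3 : 0 < 2 * (cs s).re - 1 := by
    rcases lt_or_eq_of_le (cs_nonneg s) with h4 | h4
    · exact h4
    · exfalso
      apply h2
      change ((Real.sqrt (2 * (cs s).re - 1) : ℝ) : ℂ) = 0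
      rw [← h4]; simp
  have hc : cs s ≠ 0 := by
    intro h0
    rw [h0, Complex.zero_re] at h3
    linarith
  have h4 : 0 < (2 * (cs s).re - 1) / ‖cs s‖ ^ 2 := by positivity
  have h5 : ‖(1 - ks) s‖ ^ 2 < 1 ^ 2 := by rw [h1]; linarith
  exact (sq_lt_sq₀ (norm_nonneg _) zero_le_one).1 h5

lemma exc_ae : ∀ᵐ t ∂mu, ∃ δ > 0, ∀ s, rs s ≠ 0 →
    δ ≤ ‖1 - (toCircle t : ℂ) * conj ((1 - ks) s)‖ := by
  -- the exceptional set
  set Ex : Set Circ := {t | ∃ s : Circ, (toCircle s : ℂ).im = 0 ∧ (toCircle t : ℂ) = (1 - ks) s}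
    with hEx
  have hfin : Ex.Finite := by
    have h1 : Ex ⊆ (fun t : Circ => (toCircle t : ℂ)) ⁻¹'
        ((fun s => (1 - ks) s) '' {s : Circ | (toCircle s : ℂ).im = 0}) := by
      rintro t ⟨s, hs1, hs2⟩
      exact ⟨s, hs1, hs2.symm⟩
    refine Set.Finite.subset (Set.Finite.preimage ?_ (finite_real.image _)) h1
    intro s _ t _ hst
    exact toCircle_inj (Circle.ext hst)
  have hnull := mu_finite_zero hfin
  have hae : ∀ᵐ t ∂mu, t ∉ Ex := measure_eq_zero_iff_ae_notMem.1 hnull
  filter_upwards [hae] with t ht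
  have hK : IsCompact {s : Circ | (toCircle s : ℂ).im ≤ 0} :=
    (isClosed_le continuous_im_circle continuous_const).isCompact
  have hKne : {s : Circ | (toCircle s : ℂ).im ≤ 0}.Nonempty := by
    refine ⟨((-(Real.pi / 2) : ℝ) : Circ), ?_⟩
    change (toCircle ((-(Real.pi / 2) : ℝ) : Circ) : ℂ).im ≤ 0
    rw [toCircle_neg_pi_div_two]
    simp
  have hcont : Continuous (fun s : Circ => ‖1 - (toCircle t : ℂ) * conj ((1 - ks) s)‖) :=
    (continuous_const.sub (continuous_const.mul
      (Complex.continuous_conj.comp (map_continuous (1 - ks))))).norm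
  obtain ⟨s₀, hs₀, hmin⟩ := hK.exists_isMinOn hKne hcont.continuousOn
  refine ⟨‖1 - (toCircle t : ℂ) * conj ((1 - ks) s₀)‖, ?_, ?_⟩
  · rw [gt_iff_lt, norm_pos_iff]
    intro h0
    have h1 : (toCircle t : ℂ) * conj ((1 - ks) s₀) = 1 := (sub_eq_zero.1 h0).symm
    rcases lt_or_eq_of_le (show (toCircle s₀ : ℂ).im ≤ 0 from hs₀) with h2 | h2
    · have h3 := norm_φs_lt_of h2
      have h4 := congrArg norm h1
      rw [norm_mul, Circle.norm_coe, one_mul, RCLike.norm_conj, norm_one] at h4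
      linarith
    · apply ht
      refine ⟨s₀, h2, ?_⟩
      have h3 := norm_φs_eq_one_of h2
      have h4 : conj ((1 - ks) s₀) * (1 - ks) s₀ = 1 := by
        rw [mul_comm, Complex.mul_conj, Complex.normSq_eq_norm_sq, h3]
        norm_num
      calc (toCircle t : ℂ) = (toCircle t : ℂ) * (conj ((1 - ks) s₀) * (1 - ks) s₀) := by
            rw [h4, mul_one]
        _ = (1 - ks) s₀ := by rw [← mul_assoc, h1, one_mul]
  · intro s hs
    have h1 : (toCircle s : ℂ).im ≤ 0 := by
      by_contra hcon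
      exact hs ((rs_eq_zero_iff s).2 (not_le.1 hcon).le)
    exact hmin h1

/-- The symbols have all the required properties. -/
theorem sym : Sym ks cs rs where
  anκ := isAn_ks
  anc := isAn_cs
  mul := ks_mul_cs
  ρreal := rs_star
  ρsq := rs_sq
  inj := fun _ _ _ _ h => cs_inj h
  posβ := pos_upper
  posγ := pos_lower
  exc := exc_ae

end Pool.Agent.P8b2208
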