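import Pool.Agent.P8b2208.Basic

open MeasureTheory AddCircle Filter Topology
open scoped ENNReal InnerProductSpace ComplexConjugate

set_option linter.unusedSectionVars false
set_option linter.unusedSimpArgs false

namespace Pool.Agent.P8b2208

section hardy

variable {E : Type*} [NormedAddCommGroup E] [InnerProductSpace ℂ E] [CompleteSpace E]

lemma rieszProj_mem (f : L2 E) : rieszProj f ∈ H2 E := Submodule.starProjection_apply_mem _ _

lemma rieszProj_of_mem {f : L2 E} (hf : f ∈ H2 E) : rieszProj f = f :=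
  Submodule.starProjection_eq_self_iff.2 hf

lemma mono_mem {n : ℤ} (hn : 0 ≤ n) (e : E) : mono n e ∈ H2 E := by
  rw [mem_H2_iff]
  intro m hm
  rw [coeff_mono_ne (by omega)]

lemma inner_rieszProj_left (f g : L2 E) (hg : g ∈ H2 E) : ⟪rieszProj f, g⟫_ℂ = ⟪f, g⟫_ℂ := by
  conv_rhs => rw [← rieszProj_of_mem hg]
  unfold rieszProj
  rw [Submodule.inner_starProjection_left_eq_right]

lemma inner_rieszProj_right (f g : L2 E) (hg : g ∈ H2 E) : ⟪g, rieszProj f⟫_ℂ = ⟪g, f⟫_ℂ := by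
  rw [← inner_conj_symm, inner_rieszProj_left f g hg, inner_conj_symm]

lemma coeff_rieszProj_of_nonneg {n : ℤ} (hn : 0 ≤ n) (f : L2 E) :
    coeff n (rieszProj f) = coeff n f := by
  apply ext_inner_left ℂ
  intro e
  rw [← inner_mono_left, ← inner_mono_left, inner_rieszProj_right _ _ (mono_mem hn e)]

lemma coeff_rieszProj_of_neg {n : ℤ} (hn : n < 0) (f : L2 E) :
    coeff n (rieszProj f) = 0 := (mem_H2_iff _).1 (rieszProj_mem f) n hn

lemma norm_rieszProj_le (f : L2 E) : ‖rieszProj f‖ ≤ ‖f‖ :=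
  Submodule.norm_starProjection_apply_le _ _

/-- The trigonometric polynomials are dense. -/
lemma dense_span_mono :
    (Submodule.span ℂ {f : L2 E | ∃ (n : ℤ) (e : E), f = mono n e}).topologicalClosure = ⊤ := by
  rw [Submodule.topologicalClosure_eq_top_iff, Submodule.eq_bot_iff]
  intro f hf
  apply eq_zero_of_coeff_eq_zero
  intro n
  apply ext_inner_left ℂ
  intro e
  rw [inner_zero_right, ← inner_mono_left]
  rw [Submodule.mem_orthogonal] at hf
  exact hf _ (Submodule.subset_span ⟨n, e, rfl⟩)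

/-- Analytic trigonometric polynomials are dense in `H²(E)`. -/
lemma H2_eq_closure_span :
    (Submodule.span ℂ {f : L2 E | ∃ (n : ℕ) (e : E), f = mono n e}).topologicalClosure = H2 E := by
  apply le_antisymm
  · apply Submodule.topologicalClosure_minimal _ _ isClosed_H2
    rw [Submodule.span_le]
    rintro _ ⟨n, e, rfl⟩
    exact mono_mem (by positivity) e
  · intro f hf
    rw [← Submodule.orthogonal_orthogonal_eq_closure, Submodule.mem_orthogonal]
    intro g hg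
    rw [Submodule.mem_orthogonal] at hg
    -- the Riesz projection of `g` vanishes
    have h0 : rieszProj g = 0 := by
      apply eq_zero_of_coeff_eq_zero
      intro n
      rcases lt_or_ge n 0 with hn | hn
      · exact coeff_rieszProj_of_neg hn g
      · rw [coeff_rieszProj_of_nonneg hn]
        apply ext_inner_left ℂ
        intro e
        rw [inner_zero_right, ← inner_mono_left]
        obtain ⟨m, rfl⟩ := Int.eq_ofNat_of_zero_le hn
        exact hg _ (Submodule.subset_span ⟨m, e, rfl⟩)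
    rw [← inner_rieszProj_left g f hf, h0, inner_zero_left]

/-- `P₊ (ζ̄^n f) → 0`. -/
lemma tendsto_rieszProj_zm (f : L2 E) :
    Tendsto (fun n : ℕ => rieszProj (zm (-(n : ℤ)) f)) atTop (𝓝 0) := by
  have hmem : f ∈ (Submodule.span ℂ
      {f : L2 E | ∃ (n : ℤ) (e : E), f = mono n e}).topologicalClosure := by
    rw [dense_span_mono]; trivial
  -- work with an epsilon argument
  rw [Metric.tendsto_atTop]
  intro ε hε
  rw [← SetLike.mem_coe, Submodule.topologicalClosure_coe, Metric.mem_closure_iff] at hmem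
  obtain ⟨g, hg, hfg⟩ := hmem (ε / 2) (by positivity)
  have hg' : ∃ N : ℕ, ∀ n ≥ N, rieszProj (zm (-(n : ℤ)) g) = 0 := by
    refine Submodule.span_induction ?_ ?_ ?_ ?_ hg
    · rintro _ ⟨m, e, rfl⟩
      refine ⟨m.toNat + 1, fun n hn => ?_⟩
      rw [zm_mono]
      apply eq_zero_of_coeff_eq_zero
      intro k
      rcases lt_or_ge k 0 with hk | hk
      · exact coeff_rieszProj_of_neg hk _
      · rw [coeff_rieszProj_of_nonneg hk, coeff_mono_ne (by omega)]
    · exact ⟨0, fun n _ => by simp⟩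
    · rintro x y _ _ ⟨N, hN⟩ ⟨M, hM⟩
      refine ⟨max N M, fun n hn => ?_⟩
      rw [map_add, map_add, hN n (le_trans (le_max_left _ _) hn),
        hM n (le_trans (le_max_right _ _) hn), add_zero]
    · rintro a x _ ⟨N, hN⟩
      exact ⟨N, fun n hn => by rw [map_smul, map_smul, hN n hn, smul_zero]⟩
  obtain ⟨N, hN⟩ := hg'
  refine ⟨N, fun n hn => ?_⟩
  rw [dist_zero_right]
  have h1 : rieszProj (zm (-(n : ℤ)) f) = rieszProj (zm (-(n : ℤ)) (f - g)) := by
    rw [map_sub, map_sub, hN n hn, sub_zero]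
  rw [h1]
  calc ‖rieszProj (zm (-(n : ℤ)) (f - g))‖ ≤ ‖zm (-(n : ℤ)) (f - g)‖ := norm_rieszProj_le _
    _ = ‖f - g‖ := norm_zm _ _
    _ < ε := by rw [← dist_eq_norm]; linarith

/-- The isometric embedding `e ↦ ζ^n e`. -/
noncomputable def monoLI (n : ℤ) : E →ₗᵢ[ℂ] L2 E where
  toLinearMap := (mono n : E →L[ℂ] L2 E)
  norm_map' := by
    intro e
    have h1 : ⟪mono n e, mono n e⟫_ℂ = ⟪e, e⟫_ℂ := by
      rw [inner_mono_left, coeff_mono_self]
    have h2 : ‖mono n e‖ ^ 2 = ‖e‖ ^ 2 := by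
      rw [← inner_self_eq_norm_sq (𝕜 := ℂ), ← inner_self_eq_norm_sq (𝕜 := ℂ), h1]
    have h3 := (sq_eq_sq₀ (norm_nonneg _) (norm_nonneg _)).1 h2
    exact h3

lemma norm_mono (n : ℤ) (e : E) : ‖mono n e‖ = ‖e‖ := (monoLI n).norm_map e

lemma orthogonalFamily_mono :
    OrthogonalFamily ℂ (fun _ : ℕ => E) (fun n : ℕ => (monoLI (n : ℤ) : E →ₗᵢ[ℂ] L2 E)) := by
  intro i j hij v w
  change ⟪mono (i : ℤ) v, mono (j : ℤ) w⟫_ℂ = 0
  rw [inner_mono_left, coeff_mono_ne (by exact_mod_cast hij), inner_zero_right]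

/-- Synthesis of an `H²` function from its Fourier coefficients. -/
noncomputable def synth : lp (fun _ : ℕ => E) 2 →ₗᵢ[ℂ] L2 E :=
  orthogonalFamily_mono.linearIsometry

lemma coeff_synth (a : lp (fun _ : ℕ => E) 2) (n : ℤ) :
    coeff n (synth a) = if 0 ≤ n then a n.toNat else 0 := by
  unfold synth
  have h1 := orthogonalFamily_mono.hasSum_linearIsometry (E := L2 E) a
  have h2 := (h1.mapL (coeff n))
  refine h2.unique ?_
  have h3 : ∀ i : ℕ, coeff n ((monoLI (i : ℤ)) (a i)) = if n = i then a i else 0 := by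
    intro i
    exact coeff_mono _ _ _
  simp only [h3]
  split_ifs with hn
  · obtain ⟨m, rfl⟩ := Int.eq_ofNat_of_zero_le hn
    simp only [Int.toNat_natCast]
    have := hasSum_single (f := fun i : ℕ => if ((m : ℕ) : ℤ) = i then a i else 0) m (by
      intro b hb
      rw [if_neg (by exact_mod_cast hb.symm)])
    simpa using this
  · have h4 : ∀ i : ℕ, (if n = i then a i else 0) = 0 := by
      intro i
      rw [if_neg (by omega)]
    simp only [h4]
    exact hasSum_zero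

end hardy

section obs

variable {E H : Type*} [NormedAddCommGroup E] [InnerProductSpace ℂ E] [CompleteSpace E]
  [NormedAddCommGroup H] [InnerProductSpace ℂ H] [CompleteSpace H]

lemma obs_sum_le {S : H →L[ℂ] H} {C : H →L[ℂ] E} (h : ∀ x, ‖S x‖ ^ 2 + ‖C x‖ ^ 2 ≤ ‖x‖ ^ 2)
    (x : H) (N : ℕ) :
    ∑ i ∈ Finset.range N, ‖C ((S ^ i) x)‖ ^ 2 + ‖(S ^ N) x‖ ^ 2 ≤ ‖x‖ ^ 2 := by
  induction N with
  | zero => simp
  | succ N ih =>
    rw [Finset.sum_range_succ]
    have h1 := h ((S ^ N) x)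
    have h2 : (S ^ (N + 1)) x = S ((S ^ N) x) := by
      rw [pow_succ']; rfl
    rw [h2]
    linarith

lemma obs_summable {S : H →L[ℂ] H} {C : H →L[ℂ] E}
    (h : ∀ x, ‖S x‖ ^ 2 + ‖C x‖ ^ 2 ≤ ‖x‖ ^ 2) (x : H) :
    Summable fun i : ℕ => ‖C ((S ^ i) x)‖ ^ 2 := by
  apply summable_of_sum_range_le (c := ‖x‖ ^ 2)
  · intro n; positivity
  · intro n
    have := obs_sum_le h x n
    have h2 : 0 ≤ ‖(S ^ n) x‖ ^ 2 := by positivity
    linarith

lemma norm_sq_lp (a : lp (fun _ : ℕ => E) 2) : ‖a‖ ^ 2 = ∑' i : ℕ, ‖a i‖ ^ 2 := by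
  have h := lp.norm_rpow_eq_tsum (p := 2) (by norm_num) a
  simpa using h

lemma obs_memℓp {S : H →L[ℂ] H} {C : H →L[ℂ] E}
    (h : ∀ x, ‖S x‖ ^ 2 + ‖C x‖ ^ 2 ≤ ‖x‖ ^ 2) (x : H) :
    Memℓp (fun i : ℕ => C ((S ^ i) x)) 2 := by
  apply memℓp_gen
  simpa using obs_summable h x

/-- The observability operator `x ↦ ∑ ζ^n C S^n x`. -/
noncomputable def obs (S : H →L[ℂ] H) (C : H →L[ℂ] E)
    (h : ∀ x, ‖S x‖ ^ 2 + ‖C x‖ ^ 2 ≤ ‖x‖ ^ 2) : H →L[ℂ] L2 E :=
  LinearMap.mkContinuous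
    { toFun := fun x => synth ⟨fun i : ℕ => C ((S ^ i) x), obs_memℓp h x⟩
      map_add' := by
        intro x y
        rw [← map_add]
        congr 1
        ext i
        simp only [map_add, lp.coeFn_add, Pi.add_apply]
      map_smul' := by
        intro c x
        rw [← map_smul]
        congr 1
        ext i
        simp } 1 (by
    intro x
    simp only [LinearMap.coe_mk, AddHom.coe_mk, LinearIsometry.norm_map, one_mul]
    have h1 := norm_sq_lp (⟨fun i : ℕ => C ((S ^ i) x), obs_memℓp h x⟩ :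
      lp (fun _ : ℕ => E) 2)
    have h2 : ∑' i : ℕ, ‖C ((S ^ i) x)‖ ^ 2 ≤ ‖x‖ ^ 2 := by
      apply Real.tsum_le_of_sum_range_le
      · intro n; positivity
      · intro n
        have := obs_sum_le h x n
        have h2 : 0 ≤ ‖(S ^ n) x‖ ^ 2 := by positivity
        linarith
    have h3 := h1.trans_le h2
    exact (sq_le_sq₀ (norm_nonneg _) (norm_nonneg _)).1 h3)

variable {S : H →L[ℂ] H} {C : H →L[ℂ] E} (h : ∀ x, ‖S x‖ ^ 2 + ‖C x‖ ^ 2 ≤ ‖x‖ ^ 2)

lemma coeff_obs (x : H) (n : ℤ) :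
    coeff n (obs S C h x) = if 0 ≤ n then C ((S ^ n.toNat) x) else 0 := by
  change coeff n (synth _) = _
  rw [coeff_synth]

lemma coeff_obs_natCast (x : H) (n : ℕ) : coeff (n : ℤ) (obs S C h x) = C ((S ^ n) x) := by
  rw [coeff_obs, if_pos (by positivity)]
  simp

lemma obs_mem (x : H) : obs S C h x ∈ H2 E := by
  rw [mem_H2_iff]
  intro n hn
  rw [coeff_obs, if_neg (by omega)]

lemma obs_rec (x : H) : obs S C h x = mono 0 (C x) + zm 1 (obs S C h (S x)) := by
  apply ext_coeff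
  intro n
  rw [map_add, coeff_zm, coeff_mono]
  rcases lt_trichotomy n 0 with hn | hn | hn
  · rw [coeff_obs, if_neg (by omega), if_neg (by omega), coeff_obs, if_neg (by omega), add_zero]
  · subst hn
    rw [coeff_obs, if_pos le_rfl, if_pos rfl, coeff_obs, if_neg (by omega), add_zero]
    simp
  · obtain ⟨m, rfl⟩ : ∃ m : ℕ, n = (m : ℤ) + 1 := ⟨(n - 1).toNat, by omega⟩
    rw [if_neg (by omega), zero_add, add_sub_cancel_right, coeff_obs_natCast,
      coeff_obs, if_pos (by omega)]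
    have : ((m : ℤ) + 1).toNat = m + 1 := by omega
    rw [this, pow_succ]
    rfl

lemma norm_obs_le (x : H) : ‖obs S C h x‖ ≤ ‖x‖ := by
  have := (obs S C h).le_opNorm x
  refine this.trans ?_
  have h1 : ‖obs S C h‖ ≤ 1 := LinearMap.mkContinuous_norm_le _ zero_le_one _
  nlinarith [norm_nonneg x]

/-- if `‖S x‖² + ‖C x‖² = ‖x‖²` and `S ^ n → 0` strongly then `obs` is isometric. -/
lemma norm_obs_eq (h' : ∀ x, ‖S x‖ ^ 2 + ‖C x‖ ^ 2 = ‖x‖ ^ 2)
    (hS : ∀ x, Tendsto (fun n : ℕ => (S ^ n) x) atTop (𝓝 0)) (x : H) :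
    ‖obs S C h x‖ = ‖x‖ := by
  have h1 : ‖obs S C h x‖ ^ 2 = ∑' i : ℕ, ‖C ((S ^ i) x)‖ ^ 2 := by
    change ‖synth _‖ ^ 2 = _
    rw [LinearIsometry.norm_map]
    exact norm_sq_lp (⟨fun i : ℕ => C ((S ^ i) x), obs_memℓp h x⟩ :
      lp (fun _ : ℕ => E) 2)
  have h2 : ∀ N : ℕ, ∑ i ∈ Finset.range N, ‖C ((S ^ i) x)‖ ^ 2 = ‖x‖ ^ 2 - ‖(S ^ N) x‖ ^ 2 := by
    intro N
    induction N with
    | zero => simp
    | succ N ih =>
      rw [Finset.sum_range_succ, ih]
      have h1 := h' ((S ^ N) x)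
      have h2 : (S ^ (N + 1)) x = S ((S ^ N) x) := by
        rw [pow_succ']; rfl
      rw [h2]
      linarith
  have h3 : HasSum (fun i : ℕ => ‖C ((S ^ i) x)‖ ^ 2) (‖x‖ ^ 2) := by
    rw [(obs_summable h x).hasSum_iff_tendsto_nat]
    simp only [h2]
    have h4 : Tendsto (fun n : ℕ => ‖(S ^ n) x‖ ^ 2) atTop (𝓝 0) := by
      have := ((hS x).norm).pow 2
      simpa using this
    simpa using (tendsto_const_nhds (x := ‖x‖ ^ 2)).sub h4
  rw [h3.tsum_eq] at h1
  exact (sq_eq_sq₀ (norm_nonneg _) (norm_nonneg _)).1 h1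

end obs

end Pool.Agent.P8b2208
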