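import Mathlib

/-!
The definitions used in the statement: `L²` and Hardy spaces of functions on the circle with
values in a Hilbert space, the Riesz projection, bounded analytic operator functions, their
boundary functions, inner and `*`-outer functions, the model space `K_θ`, the kernel of `θ*` on
`L²(𝕋; F)`, the backward shift and its cyclic vectors.
-/

open MeasureTheory AddCircle Filter Topology
open scoped ENNReal InnerProductSpace ComplexConjugate

set_option linter.unusedSectionVars false
set_option linter.unusedSimpArgs false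

namespace Pool.Agent.P8b2208

/-- The unit circle, parametrised as `ℝ / 2πℤ`; the class of `t` stands for the point
`ζ = e^{it}`, which is `AddCircle.toCircle t`. -/
abbrev Circ : Type := AddCircle (2 * Real.pi)

instance fact_two_pi_pos : Fact (0 < 2 * Real.pi) := ⟨Real.two_pi_pos⟩

/-- `L²(𝕋; E)` for normalised Lebesgue measure on the circle. -/
abbrev L2 (E : Type*) [NormedAddCommGroup E] : Type _ :=
  Lp E 2 (haarAddCircle : Measure Circ)

variable {E F : Type*} [NormedAddCommGroup E] [InnerProductSpace ℂ E] [CompleteSpace E]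
  [NormedAddCommGroup F] [InnerProductSpace ℂ F] [CompleteSpace F]

lemma integrable_L2 (f : L2 E) : Integrable f (haarAddCircle : Measure Circ) :=
  (Lp.memLp f).integrable (by norm_num)

/-- The Hardy space `H²(E)`: the functions in `L²(𝕋; E)` all of whose Fourier coefficients of
negative index vanish. -/
def H2 (E : Type*) [NormedAddCommGroup E] [InnerProductSpace ℂ E] [CompleteSpace E] :
    Submodule ℂ (L2 E) where
  carrier := {f | ∀ n : ℤ, n < 0 → fourierCoeff f n = 0}
  add_mem' := by
    intro f g hf hg n hn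
    rw [fourierCoeff_congr_ae (Lp.coeFn_add f g), fourierCoeff.add (integrable_L2 f)
      (integrable_L2 g)]
    simp [hf n hn, hg n hn]
  zero_mem' := by
    intro n _
    rw [fourierCoeff_congr_ae (Lp.coeFn_zero E 2 _)]
    simp [fourierCoeff]
  smul_mem' := by
    intro c f hf n hn
    rw [fourierCoeff_congr_ae (Lp.coeFn_smul c f)]
    have := fourierCoeff.const_smul (f : Circ → E) c n
    rw [show (c • (f : Circ → E)) = c • f from rfl] at *
    rw [this, hf n hn, smul_zero]

/-- Fourier coefficients depend continuously on the function in `L²`. -/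
lemma continuous_fourierCoeff (n : ℤ) : Continuous (fun f : L2 E => fourierCoeff f n) := by
  have hl : LipschitzWith 1 (fun f : L2 E => fourierCoeff f n) := by
    apply LipschitzWith.of_dist_le_mul
    intro f g
    rw [dist_eq_norm, dist_eq_norm, NNReal.coe_one, one_mul]
    have h1 : fourierCoeff f n - fourierCoeff g n = fourierCoeff (f - g : L2 E) n := by
      rw [fourierCoeff_congr_ae (Lp.coeFn_sub f g), fourierCoeff, fourierCoeff, fourierCoeff,
        ← integral_sub ((integrable_L2 f).fourier_smul _) ((integrable_L2 g).fourier_smul _)]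
      apply integral_congr_ae
      filter_upwards with t
      rw [Pi.sub_apply, smul_sub]
    rw [h1]
    set k : L2 E := f - g
    have h2 : ‖fourierCoeff k n‖ ≤ ∫ t, ‖k t‖ ∂(haarAddCircle : Measure Circ) := by
      unfold fourierCoeff
      refine (norm_integral_le_integral_norm _).trans (le_of_eq ?_)
      apply integral_congr_ae
      filter_upwards with t
      rw [norm_smul, fourier_apply, Circle.norm_coe, one_mul]
    have h3 : ∫ t, ‖k t‖ ∂(haarAddCircle : Measure Circ) ≤ ‖k‖ := by
      rw [integral_norm_eq_lintegral_enorm (Lp.aestronglyMeasurable k), Lp.norm_def,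
        ← eLpNorm_one_eq_lintegral_enorm]
      apply ENNReal.toReal_mono (Lp.eLpNorm_ne_top k)
      exact eLpNorm_le_eLpNorm_of_exponent_le (by norm_num) (Lp.aestronglyMeasurable k)
    exact h2.trans h3
  exact hl.continuous

lemma isClosed_H2 : IsClosed (H2 E : Set (L2 E)) := by
  have h : (H2 E : Set (L2 E)) =
      ⋂ n : {n : ℤ // n < 0}, (fun f : L2 E => fourierCoeff f n.1) ⁻¹' {0} := by
    ext f
    simp only [SetLike.mem_coe, Set.mem_iInter, Set.mem_preimage, Set.mem_singleton_iff,
      Subtype.forall]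
    rfl
  rw [h]
  exact isClosed_iInter fun n => isClosed_singleton.preimage (continuous_fourierCoeff n.1)

instance instCompleteH2 : CompleteSpace (H2 E) := isClosed_H2.completeSpace_coe

/-- The Riesz projection `P₊`: the orthogonal projection of `L²(𝕋; E)` onto `H²(E)`. -/
noncomputable def rieszProj : L2 E →L[ℂ] L2 E := (H2 E).starProjection

/-- `θ ∈ H^∞(E, F)`: an analytic function on the open unit disc with values in the bounded
operators `E → F`, bounded in operator norm. (Values outside the disc play no role.) -/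
def IsHInf (θ : ℂ → E →L[ℂ] F) : Prop :=
  DifferentiableOn ℂ θ (Metric.ball 0 1) ∧
    ∃ C : ℝ, ∀ z ∈ Metric.ball (0 : ℂ) 1, ‖θ z‖ ≤ C

/-- `θb` is the boundary function of `θ`: for almost every `ζ = e^{it}` on the circle,
`θ(rζ) x → θb(ζ) x` as `r → 1⁻` for every vector `x` (strong radial limits). -/
def IsBoundaryFn (θ : ℂ → E →L[ℂ] F) (θb : Circ → E →L[ℂ] F) : Prop :=
  ∀ᵐ t ∂(haarAddCircle : Measure Circ), ∀ x : E,
    Tendsto (fun r : ℝ => θ ((r : ℂ) * (toCircle t : ℂ)) x) (𝓝[<] 1) (𝓝 (θb t x))

/-- Inner: the boundary values are isometries almost everywhere. -/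
def IsInner (θb : Circ → E →L[ℂ] F) : Prop :=
  ∀ᵐ t ∂(haarAddCircle : Measure Circ), ∀ x : E, ‖θb t x‖ = ‖x‖

/-- The set `Θ H²(E)` of all products `Θ f`, `f ∈ H²(E)`, inside `L²(𝕋; F)`. -/
def mulH2 (Θ : Circ → E →L[ℂ] F) : Set (L2 F) :=
  {g | ∃ f ∈ H2 E, ∀ᵐ t ∂(haarAddCircle : Measure Circ), g t = Θ t (f t)}

/-- A bounded analytic function `Θ` with values in the operators `E → F` is outer if
`Θ H²(E)` is dense in `H²(F)`. -/
def IsOuter (Θ : ℂ → E →L[ℂ] F) : Prop :=
  ∃ Θb : Circ → E →L[ℂ] F, IsBoundaryFn Θ Θb ∧ closure (mulH2 Θb) = (H2 F : Set (L2 F))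

/-- `θ~(z) = θ(z̄)*`. -/
noncomputable def tilde (θ : ℂ → E →L[ℂ] F) : ℂ → F →L[ℂ] E :=
  fun z => ContinuousLinearMap.adjoint (θ (conj z))

/-- `θ` is `*`-outer: `θ~` is outer. -/
def IsStarOuter (θ : ℂ → E →L[ℂ] F) : Prop := IsOuter (tilde θ)

/-- The model space `K_θ = H²(F) ⊖ θ H²(E)`. -/
noncomputable def modelSpace (θb : Circ → E →L[ℂ] F) : Submodule ℂ (L2 F) :=
  H2 F ⊓ (Submodule.span ℂ (mulH2 θb))ᗮ

/-- `Ker θ*`: the `h ∈ L²(𝕋; F)` with `θ(ζ)* h(ζ) = 0` almost everywhere. -/
def kerStar (θb : Circ → E →L[ℂ] F) : Set (L2 F) :=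
  {h | ∀ᵐ t ∂(haarAddCircle : Measure Circ), ContinuousLinearMap.adjoint (θb t) (h t) = 0}

lemma memLp_backShift (f : L2 F) :
    MemLp (fun t : Circ => (toCircle t : ℂ)⁻¹ • (f t - fourierCoeff f 0)) 2
      (haarAddCircle : Measure Circ) := by
  have h1 : MemLp (fun t : Circ => f t - fourierCoeff f 0) 2 (haarAddCircle : Measure Circ) :=
    (Lp.memLp f).sub (memLp_const _)
  refine MemLp.of_le h1 ?_ ?_
  · have h2 : Continuous (fun t : Circ => (toCircle t : ℂ)⁻¹) := by
      have h3 := (fourier (-1) : C(Circ, ℂ)).continuous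
      refine h3.congr fun t => ?_
      rw [fourier_neg, fourier_one, ← Circle.coe_inv_eq_conj]
      rfl
    exact h2.aestronglyMeasurable.smul h1.1
  · filter_upwards with t
    rw [norm_smul, norm_inv, Circle.norm_coe, inv_one, one_mul]

/-- The backward shift `f ↦ (f - f(0)) / z`; on `K_θ` this is the adjoint `T*` of the model
operator `T f = P_θ (z f)`. Here `f(0)` is the zeroth Fourier coefficient of `f`. -/
noncomputable def backShift (f : L2 F) : L2 F := (memLp_backShift f).toLp _

/-- `x` is cyclic for `T*`: the closed linear span of `{T*^n x : n ≥ 0}` is all of `K_θ`. -/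
def IsCyclicBackShift (θb : Circ → E →L[ℂ] F) (x : L2 F) : Prop :=
  (Submodule.span ℂ (Set.range fun n : ℕ => backShift^[n] x)).topologicalClosure = modelSpace θb

end Pool.Agent.P8b2208
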