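import Pool.Agent.P8b2208.Boundary
import Pool.Agent.P8b2208.Statement

open MeasureTheory AddCircle Filter Topology
open scoped ENNReal InnerProductSpace ComplexConjugate

set_option linter.unusedSectionVars false
set_option linter.unusedSimpArgs false

namespace Pool.Agent.P8b2208

open ContinuousLinearMap

variable {H L : Type*} [NormedAddCommGroup H] [InnerProductSpace ℂ H] [CompleteSpace H]
  [NormedAddCommGroup L] [InnerProductSpace ℂ L] [CompleteSpace L]

variable {K : H →L[ℂ] H} {Γ : H →L[ℂ] L}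

namespace IsColl

lemma isHInf (h : IsColl K Γ) : IsHInf (cθ K Γ) := by
  constructor
  · intro z hz
    rw [mem_ball_zero_iff] at hz
    exact (h.differentiableAt_θ hz).differentiableWithinAt
  · refine ⟨1, fun z hz => ?_⟩
    rw [mem_ball_zero_iff] at hz
    exact h.opNorm_θ_le hz

lemma isBoundaryFn (hb : RadialConv K Γ) : IsBoundaryFn (cθ K Γ) (cθb K Γ) := by
  filter_upwards [hb.tendsto] with t ht x
  exact ((ContinuousLinearMap.apply ℂ L x).continuous.tendsto _).comp ht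

lemma isInner (h : IsColl K Γ) (hb : RadialConv K Γ) : IsInner (cθb K Γ) := h.isometry_ae hb

/-- The observability operator `V`. -/
noncomputable def V (h : IsColl K Γ) : H →L[ℂ] L2 L :=
  obs (cTs K) (cD K Γ) (fun x => (h.norm_Ts x).le)

/-- The observability operator of the adjoint colligation. -/
noncomputable def V' (h : IsColl K Γ) : H →L[ℂ] L2 L :=
  obs (cT K) (cE K Γ) (fun x => (h.norm_T x).le)

/-- Multiplication by the boundary function. -/
noncomputable def M (h : IsColl K Γ) (hb : RadialConv K Γ) : L2 L →L[ℂ] L2 L :=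
  mulOp ((h.memLp_θb hb).toLp _)

variable (h : IsColl K Γ) (hb : RadialConv K Γ)
include h

lemma coeff_V (x : H) (n : ℤ) :
    coeff n (h.V x) = if 0 ≤ n then cD K Γ ((cTs K ^ n.toNat) x) else 0 := coeff_obs _ x n

lemma coeff_V' (x : H) (n : ℤ) :
    coeff n (h.V' x) = if 0 ≤ n then cE K Γ ((cT K ^ n.toNat) x) else 0 := coeff_obs _ x n

lemma V_mem (x : H) : h.V x ∈ H2 L := obs_mem _ x

lemma V'_mem (x : H) : h.V' x ∈ H2 L := obs_mem _ x

lemma V_rec (x : H) : h.V x = mono 0 (cD K Γ x) + zm 1 (h.V (cTs K x)) := obs_rec _ x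

lemma V'_rec (x : H) : h.V' x = mono 0 (cE K Γ x) + zm 1 (h.V' (cT K x)) := obs_rec _ x

lemma norm_V_le (x : H) : ‖h.V x‖ ≤ ‖x‖ := norm_obs_le _ x

lemma norm_V'_le (x : H) : ‖h.V' x‖ ≤ ‖x‖ := norm_obs_le _ x

lemma coeFn_M (f : L2 L) : h.M hb f =ᵐ[mu] fun t => cθb K Γ t (f t) := by
  filter_upwards [coeFn_mulOp ((h.memLp_θb hb).toLp _) f, (h.memLp_θb hb).coeFn_toLp] with t h1 h2
  unfold M
  rw [h1, h2]

lemma M_zm (n : ℤ) (f : L2 L) : h.M hb (zm n f) = zm n (h.M hb f) := mulOp_zm _ _ _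

lemma M_mono_zero (u : L) : h.M hb (mono 0 u) = mono 0 (cO K Γ u) + zm 1 (h.V (cEs K Γ u)) := by
  apply ext_coeff
  intro n
  rw [map_add, coeff_mono, coeff_zm, h.coeff_V, coeff_eq_fourierCoeff,
    fourierCoeff_congr_ae (g := fun t : Circ => cθb K Γ t u), h.fourierCoeff_θb hb]
  filter_upwards [h.coeFn_M hb (mono 0 u), coeFn_mono 0 u] with t h1 h2
  rw [h1, h2]
  simp

lemma M_mono (n : ℤ) (u : L) :
    h.M hb (mono n u) = zm n (mono 0 (cO K Γ u) + zm 1 (h.V (cEs K Γ u))) := by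
  rw [← h.M_mono_zero hb, ← h.M_zm hb, zm_mono, add_zero]

lemma zm_mem_H2 {n : ℤ} (hn : 0 ≤ n) {f : L2 L} (hf : f ∈ H2 L) : zm n f ∈ H2 L := by
  rw [mem_H2_iff] at hf ⊢
  intro m hm
  rw [coeff_zm]
  exact hf _ (by omega)

lemma M_mono_mem {n : ℤ} (hn : 0 ≤ n) (u : L) : h.M hb (mono n u) ∈ H2 L := by
  rw [h.M_mono hb]
  apply h.zm_mem_H2 hn
  apply (H2 L).add_mem (mono_mem le_rfl _)
  exact h.zm_mem_H2 zero_le_one (h.V_mem _)

omit h in
/-- To check that a closed subspace contains the image of `H²`, check monomials. -/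
lemma H2_induction {A : L2 L →L[ℂ] L2 L} {W : Submodule ℂ (L2 L)} (hW : IsClosed (W : Set (L2 L)))
    (hA : ∀ (n : ℕ) (u : L), A (mono n u) ∈ W) {f : L2 L} (hf : f ∈ H2 L) : A f ∈ W := by
  have h1 : H2 L ≤ W.comap (A : L2 L →ₗ[ℂ] L2 L) := by
    rw [← H2_eq_closure_span]
    apply Submodule.topologicalClosure_minimal
    · rw [Submodule.span_le]
      rintro _ ⟨n, u, rfl⟩
      exact hA n u
    · exact hW.preimage A.continuous
  exact h1 hf

lemma M_mem {f : L2 L} (hf : f ∈ H2 L) : h.M hb f ∈ H2 L :=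
  H2_induction isClosed_H2 (fun n u => h.M_mono_mem hb (by positivity) u) hf

lemma mem_mulH2_iff (g : L2 L) : g ∈ mulH2 (cθb K Γ) ↔ ∃ f ∈ H2 L, h.M hb f = g := by
  constructor
  · rintro ⟨f, hf, hg⟩
    refine ⟨f, hf, ?_⟩
    apply Lp.ext
    filter_upwards [h.coeFn_M hb f, hg] with t h1 h2
    rw [h1, h2]
  · rintro ⟨f, hf, rfl⟩
    exact ⟨f, hf, h.coeFn_M hb f⟩

lemma mem_modelSpace_iff (g : L2 L) :
    g ∈ modelSpace (cθb K Γ) ↔ g ∈ H2 L ∧ ∀ f ∈ H2 L, ⟪h.M hb f, g⟫_ℂ = 0 := by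
  unfold modelSpace
  rw [Submodule.mem_inf]
  refine and_congr_right fun _ => ?_
  constructor
  · intro hg f hf
    rw [Submodule.mem_orthogonal] at hg
    exact hg _ (Submodule.subset_span ((h.mem_mulH2_iff hb _).2 ⟨f, hf, rfl⟩))
  · intro hg
    rw [Submodule.mem_orthogonal]
    intro u hu
    refine Submodule.span_induction ?_ ?_ ?_ ?_ hu
    · intro x hx
      obtain ⟨f, hf, rfl⟩ := (h.mem_mulH2_iff hb _).1 hx
      exact hg f hf
    · exact inner_zero_left _
    · intro x y _ _ hx hy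
      rw [inner_add_left, hx, hy, add_zero]
    · intro a x _ hx
      rw [inner_smul_left, hx, mul_zero]

lemma inner_V (x : H) (G : L2 L) : ⟪h.V x, G⟫_ℂ = ⟪x, adjoint h.V G⟫_ℂ := by
  rw [adjoint_inner_right]

lemma inner_V' (x : H) (G : L2 L) : ⟪h.V' x, G⟫_ℂ = ⟪x, adjoint h.V' G⟫_ℂ := by
  rw [adjoint_inner_right]

/-- recursion for the adjoint of `V`. -/
lemma adjoint_V_rec (G : L2 L) :
    adjoint h.V G = cDs K Γ (coeff 0 G) + cT K (adjoint h.V (zm (-1) G)) := by
  apply ext_inner_left ℂ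
  intro x
  rw [adjoint_inner_right, h.V_rec, inner_add_left, inner_mono_left, inner_zm_left, inner_cD,
    ← adjoint_inner_right, inner_cTs, ← inner_add_right]

lemma adjoint_V'_rec (G : L2 L) :
    adjoint h.V' G = cEs K Γ (coeff 0 G) + cTs K (adjoint h.V' (zm (-1) G)) := by
  apply ext_inner_left ℂ
  intro x
  rw [adjoint_inner_right, h.V'_rec, inner_add_left, inner_mono_left, inner_zm_left, inner_cE,
    ← adjoint_inner_right, inner_cT, ← inner_add_right]

lemma adjoint_V_rieszProj (G : L2 L) : adjoint h.V (rieszProj G) = adjoint h.V G := by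
  apply ext_inner_left ℂ
  intro x
  rw [adjoint_inner_right, adjoint_inner_right, inner_rieszProj_right _ _ (h.V_mem x)]

lemma adjoint_V'_rieszProj (G : L2 L) : adjoint h.V' (rieszProj G) = adjoint h.V' G := by
  apply ext_inner_left ℂ
  intro x
  rw [adjoint_inner_right, adjoint_inner_right, inner_rieszProj_right _ _ (h.V'_mem x)]

include hb in
/-- `K_θ ⊆ V H`. -/
lemma exists_of_mem_modelSpace {F : L2 L} (hF : F ∈ modelSpace (cθb K Γ)) :
    F = h.V (adjoint h.V F) := by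
  rw [h.mem_modelSpace_iff hb] at hF
  obtain ⟨hF2, horth⟩ := hF
  set y : ℕ → H := fun n => adjoint h.V (zm (-(n : ℤ)) F) with hy
  have hrec : ∀ n : ℕ, y n = cDs K Γ (coeff n F) + cT K (y (n + 1)) := by
    intro n
    simp only [hy]
    rw [h.adjoint_V_rec, coeff_zm, zm_zm]
    have e1 : (0 : ℤ) - -(n : ℤ) = n := by ring
    have e2 : (-1 : ℤ) + -(n : ℤ) = -((n + 1 : ℕ) : ℤ) := by push_cast; ring
    rw [e1, e2]
  have hcond : ∀ n : ℕ, cOs K Γ (coeff n F) + cE K Γ (y (n + 1)) = 0 := by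
    intro n
    apply ext_inner_left ℂ
    intro u
    have h1 := horth (mono n u) (mono_mem (by positivity) u)
    rw [h.M_mono hb, inner_zm_left, inner_add_left, inner_mono_left, coeff_zm, inner_zm_left,
      zm_zm, inner_cO, h.inner_V, inner_cEs, ← inner_add_right] at h1
    have e1 : (0 : ℤ) - -(n : ℤ) = n := by ring
    have e2 : (-1 : ℤ) + -(n : ℤ) = -((n + 1 : ℕ) : ℤ) := by push_cast; ring
    rw [e1, e2] at h1
    rw [inner_zero_right, ← h1]
  have h1 : ∀ n : ℕ, cTs K (y n) = y (n + 1) := by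
    intro n
    conv_lhs => rw [hrec n, map_add]
    have e1 := h.id5' (coeff n F)
    have e2 := h.id4 (y (n + 1))
    have e3 : cOs K Γ (coeff n F) = - cE K Γ (y (n + 1)) := eq_neg_of_add_eq_zero_left (hcond n)
    rw [e3, map_neg] at e1
    have e4 : cTs K (cDs K Γ (coeff n F)) = cEs K Γ (cE K Γ (y (n + 1))) := by
      rw [← sub_eq_zero, sub_eq_add_neg]; exact e1
    rw [e4, add_comm]
    exact e2
  have h2 : ∀ n : ℕ, cD K Γ (y n) = coeff n F := by
    intro n
    conv_lhs => rw [hrec n, map_add]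
    have e1 := h.id5 (y (n + 1))
    have e2 := h.id6 (coeff n F)
    have e3 : cE K Γ (y (n + 1)) = - cOs K Γ (coeff n F) := eq_neg_of_add_eq_zero_right (hcond n)
    rw [e3, map_neg] at e1
    have e4 : cD K Γ (cT K (y (n + 1))) = cO K Γ (cOs K Γ (coeff n F)) := by
      rw [← sub_eq_zero, sub_eq_add_neg]; exact e1
    rw [e4]
    exact e2
  have h3 : ∀ n : ℕ, y n = (cTs K ^ n) (y 0) := by
    intro n
    induction n with
    | zero => simp
    | succ n ih =>
      rw [← h1, ih, pow_succ']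
      rfl
  have hy0 : y 0 = adjoint h.V F := by
    simp only [hy]
    simp [zm_zero]
  apply ext_coeff
  intro n
  rw [h.coeff_V, ← hy0]
  split_ifs with hn
  · obtain ⟨m, rfl⟩ := Int.eq_ofNat_of_zero_le hn
    rw [Int.toNat_natCast, ← h3, h2]
  · exact (mem_H2_iff _).1 hF2 n (by omega)

lemma norm_V_eq (hS : ∀ x, Tendsto (fun n : ℕ => (cTs K ^ n) x) atTop (𝓝 0)) (x : H) :
    ‖h.V x‖ = ‖x‖ := norm_obs_eq _ h.norm_Ts hS x

lemma adjoint_V_V (hS : ∀ x, Tendsto (fun n : ℕ => (cTs K ^ n) x) atTop (𝓝 0)) (x : H) :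
    adjoint h.V (h.V x) = x := by
  apply ext_inner_left ℂ
  intro y
  rw [adjoint_inner_right]
  let Vi : H →ₗᵢ[ℂ] L2 L := ⟨h.V.toLinearMap, h.norm_V_eq hS⟩
  exact Vi.inner_map_map y x

lemma adjoint_V_zm_V (hS : ∀ x, Tendsto (fun n : ℕ => (cTs K ^ n) x) atTop (𝓝 0)) (x : H)
    (n : ℕ) : adjoint h.V (zm (-(n : ℤ)) (h.V x)) = (cTs K ^ n) x := by
  rw [← h.adjoint_V_rieszProj]
  have h1 : rieszProj (zm (-(n : ℤ)) (h.V x)) = h.V ((cTs K ^ n) x) := by
    apply ext_coeff
    intro m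
    rcases lt_or_ge m 0 with hm | hm
    · rw [coeff_rieszProj_of_neg hm, h.coeff_V, if_neg (by omega)]
    · obtain ⟨k, rfl⟩ := Int.eq_ofNat_of_zero_le hm
      rw [coeff_rieszProj_of_nonneg hm, coeff_zm, h.coeff_V, h.coeff_V, if_pos (by omega),
        if_pos hm, Int.toNat_natCast]
      have : ((k : ℤ) - -(n : ℤ)).toNat = k + n := by omega
      rw [this, pow_add]
      rfl
  rw [h1, h.adjoint_V_V hS]

include hb in
/-- `V H ⊆ K_θ`. -/
lemma V_mem_modelSpace (hS : ∀ x, Tendsto (fun n : ℕ => (cTs K ^ n) x) atTop (𝓝 0)) (x : H) :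
    h.V x ∈ modelSpace (cθb K Γ) := by
  rw [h.mem_modelSpace_iff hb]
  refine ⟨h.V_mem x, fun f hf => ?_⟩
  have h1 : h.M hb f ∈ (Submodule.span ℂ {h.V x})ᗮ := by
    refine H2_induction (Submodule.isClosed_orthogonal _) (fun n u => ?_) hf
    rw [Submodule.mem_orthogonal_singleton_iff_inner_left]
    rw [h.M_mono hb, inner_zm_left, inner_add_left, inner_mono_left, coeff_zm, inner_zm_left,
      zm_zm, inner_cO, h.inner_V, inner_cEs, ← inner_add_right]
    have e1 : (-1 : ℤ) + -(n : ℤ) = -((n + 1 : ℕ) : ℤ) := by push_cast; ring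
    have e2 : (0 : ℤ) - -(n : ℤ) = n := by ring
    rw [e1, e2, h.adjoint_V_zm_V hS, h.coeff_V, if_pos (by positivity), Int.toNat_natCast]
    have e3 := h.id2' ((cTs K ^ n) x)
    rw [add_comm] at e3
    rw [pow_succ']
    change ⟪u, cOs K Γ (cD K Γ ((cTs K ^ n) x)) + cE K Γ (cTs K ((cTs K ^ n) x))⟫_ℂ = 0
    rw [e3, inner_zero_right]
  rwa [Submodule.mem_orthogonal_singleton_iff_inner_left] at h1

/-! ### `*`-outer -/

lemma adjoint_V'_mono (k : ℤ) (e : L) :
    adjoint h.V' (mono k e) = if 0 ≤ k then (cTs K ^ k.toNat) (cEs K Γ e) else 0 := by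
  apply ext_inner_left ℂ
  intro x
  rw [adjoint_inner_right, inner_mono_right, h.coeff_V']
  split_ifs with hk
  · rw [inner_cE]
    generalize k.toNat = n
    generalize cEs K Γ e = z
    clear hk
    induction n generalizing x with
    | zero => simp
    | succ n ih =>
      rw [pow_succ, pow_succ']
      change ⟪(cT K ^ n) (cT K x), z⟫_ℂ = ⟪x, cTs K ((cTs K ^ n) z)⟫_ℂ
      rw [ih, inner_cT]
  · rw [inner_zero_left, inner_zero_right]

lemma coeff_zero_M (f : L2 L) :
    coeff 0 (h.M hb f) = cO K Γ (coeff 0 f) + cD K Γ (adjoint h.V' (refl (zm 1 f))) := by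
  -- both sides are continuous linear in `f`
  let A : L2 L →L[ℂ] L := (coeff 0).comp (h.M hb)
  let B : L2 L →L[ℂ] L := (cO K Γ).comp (coeff 0) +
    (cD K Γ).comp ((adjoint h.V').comp (refl.toContinuousLinearMap.comp (zm 1)))
  have hAB : (⊤ : Submodule ℂ (L2 L)) ≤
      LinearMap.ker ((A - B : L2 L →L[ℂ] L) : L2 L →ₗ[ℂ] L) := by
    rw [← dense_span_mono]
    apply Submodule.topologicalClosure_minimal
    · rw [Submodule.span_le]
      rintro _ ⟨m, e, rfl⟩
      rw [SetLike.mem_coe, LinearMap.mem_ker]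
      change coeff 0 (h.M hb (mono m e)) - (cO K Γ (coeff 0 (mono m e)) +
        cD K Γ (adjoint h.V' (refl (zm 1 (mono m e))))) = 0
      rw [sub_eq_zero, h.M_mono hb, coeff_zm, map_add, coeff_mono, coeff_zm, h.coeff_V, zm_mono,
        refl_mono, h.adjoint_V'_mono, coeff_mono]
      have e1 : (0 : ℤ) - m - 1 = -(1 + m) := by ring
      rw [e1]
      congr 1
      · by_cases hm : m = 0
        · subst hm; simp
        · rw [if_neg (by omega), if_neg (by omega), map_zero]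
      · split_ifs
        · rfl
        · rw [map_zero]
    · exact ContinuousLinearMap.isClosed_ker (A - B)
  have h1 := hAB (Submodule.mem_top (x := f))
  rw [LinearMap.mem_ker] at h1
  change coeff 0 (h.M hb f) - (cO K Γ (coeff 0 f) +
    cD K Γ (adjoint h.V' (refl (zm 1 f)))) = 0 at h1
  exact sub_eq_zero.1 h1

end IsColl

end Pool.Agent.P8b2208
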