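import Pool.Agent.P8b2208.Model

open MeasureTheory AddCircle Filter Topology
open scoped ENNReal InnerProductSpace ComplexConjugate

set_option linter.unusedSectionVars false
set_option linter.unusedSimpArgs false

namespace Pool.Agent.P8b2208

open ContinuousLinearMap

variable {H L : Type*} [NormedAddCommGroup H] [InnerProductSpace ℂ H] [CompleteSpace H]
  [NormedAddCommGroup L] [InnerProductSpace ℂ L] [CompleteSpace L]

variable {K : H →L[ℂ] H} {Γ : H →L[ℂ] L}

namespace IsColl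

/-- boundary function of `θ~`. -/
noncomputable def tildeB (K : H →L[ℂ] H) (Γ : H →L[ℂ] L) (t : Circ) : L →L[ℂ] L :=
  adjoint (cθb K Γ (-t))

lemma toCircle_neg_conj (t : Circ) : (toCircle (-t) : ℂ) = conj (toCircle t : ℂ) := by
  rw [AddCircle.toCircle_neg, Circle.coe_inv_eq_conj]

lemma isBoundaryFn_tilde (hb : RadialConv K Γ) : IsBoundaryFn (tilde (cθ K Γ)) (tildeB K Γ) := by
  have h1 := ae_neg (p := fun t => Tendsto (fun r : ℝ => cθ K Γ ((r : ℂ) * toCircle t)) (𝓝[<] 1)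
    (𝓝 (cθb K Γ t))) hb.tendsto
  filter_upwards [h1] with t ht x
  have h2 : Tendsto (fun r : ℝ => adjoint (cθ K Γ ((r : ℂ) * toCircle (-t)))) (𝓝[<] 1)
      (𝓝 (adjoint (cθb K Γ (-t)))) :=
    ((adjoint : (L →L[ℂ] L) ≃ₗᵢ⋆[ℂ] (L →L[ℂ] L)).continuous.tendsto _).comp ht
  have h3 := ((ContinuousLinearMap.apply ℂ L x).continuous.tendsto _).comp h2
  refine h3.congr fun r => ?_
  change adjoint (cθ K Γ ((r : ℂ) * toCircle (-t))) x = tilde (cθ K Γ) ((r : ℂ) * toCircle t) x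
  unfold tilde
  rw [map_mul, Complex.conj_ofReal, toCircle_neg_conj]

variable (h : IsColl K Γ) (hb : RadialConv K Γ)
include h

lemma memLp_tildeB (hb : RadialConv K Γ) : MemLp (tildeB K Γ) ∞ mu := by
  have h1 := h.memLp_θb hb
  have h2 : MemLp (fun t => cθb K Γ (-t)) ∞ mu :=
    h1.comp_measurePreserving measurePreserving_neg
  refine MemLp.of_le h2 ?_ ?_
  · exact (adjoint : (L →L[ℂ] L) ≃ₗᵢ⋆[ℂ] (L →L[ℂ] L)).continuous.comp_aestronglyMeasurable h2.1
  · filter_upwards with t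
    unfold tildeB
    rw [LinearIsometryEquiv.norm_map]

/-- Multiplication by the boundary function of `θ~`. -/
noncomputable def Mt (h : IsColl K Γ) (hb : RadialConv K Γ) : L2 L →L[ℂ] L2 L :=
  mulOp ((h.memLp_tildeB hb).toLp _)

lemma coeFn_Mt (f : L2 L) : h.Mt hb f =ᵐ[mu] fun t => tildeB K Γ t (f t) := by
  filter_upwards [coeFn_mulOp ((h.memLp_tildeB hb).toLp _) f,
    (h.memLp_tildeB hb).coeFn_toLp] with t h1 h2
  unfold Mt
  rw [h1, h2]

lemma inner_Mt (f g : L2 L) : ⟪h.Mt hb f, g⟫_ℂ = ⟪refl f, h.M hb (refl g)⟫_ℂ := by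
  unfold Mt M
  apply inner_mulOp_tilde
  have h1 := ae_neg (p := fun t => ((h.memLp_θb hb).toLp _) t = cθb K Γ t)
    (h.memLp_θb hb).coeFn_toLp
  filter_upwards [(h.memLp_tildeB hb).coeFn_toLp, h1] with t h2 h3
  rw [h2, h3]
  rfl

lemma mem_mulH2_tilde_iff (g : L2 L) :
    g ∈ mulH2 (tildeB K Γ) ↔ ∃ f ∈ H2 L, h.Mt hb f = g := by
  constructor
  · rintro ⟨f, hf, hg⟩
    refine ⟨f, hf, ?_⟩
    apply Lp.ext
    filter_upwards [h.coeFn_Mt hb f, hg] with t h1 h2
    rw [h1, h2]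
  · rintro ⟨f, hf, rfl⟩
    exact ⟨f, hf, h.coeFn_Mt hb f⟩

/-- `θ~ H² ⊆ H²`. -/
lemma Mt_mem {f : L2 L} (hf : f ∈ H2 L) : h.Mt hb f ∈ H2 L := by
  rw [mem_H2_iff]
  intro m hm
  apply ext_inner_right ℂ
  intro e
  rw [inner_zero_left, ← inner_mono_right, h.inner_Mt, refl_mono, inner_refl_left]
  have h1 : rieszProj (refl (h.M hb (mono (-m) e))) = 0 := by
    apply eq_zero_of_coeff_eq_zero
    intro k
    rcases lt_or_ge k 0 with hk | hk
    · exact coeff_rieszProj_of_neg hk _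
    · rw [coeff_rieszProj_of_nonneg hk, coeff_refl]
      have h2 := h.M_mono_mem hb (n := 0) le_rfl e
      have h3 : h.M hb (mono (-m) e) = zm (-m) (h.M hb (mono 0 e)) := by
        rw [← h.M_zm hb, zm_mono, add_zero]
      rw [h3, coeff_zm]
      exact (mem_H2_iff _).1 h2 _ (by omega)
  rw [← inner_rieszProj_right _ _ hf, h1, inner_zero_right]

lemma orth_eq_zero (hT : ∀ x, Tendsto (fun n : ℕ => (cT K ^ n) x) atTop (𝓝 0) → x = 0)
    {g : L2 L} (hg : g ∈ H2 L) (horth : ∀ f ∈ H2 L, ⟪h.Mt hb f, g⟫_ℂ = 0) : g = 0 := by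
  set x : ℕ → H := fun n => adjoint h.V' (zm (-(n : ℤ)) g) with hx
  have hrec : ∀ n : ℕ, x n = cEs K Γ (coeff n g) + cTs K (x (n + 1)) := by
    intro n
    simp only [hx]
    rw [h.adjoint_V'_rec, coeff_zm, zm_zm]
    have e1 : (0 : ℤ) - -(n : ℤ) = n := by ring
    have e2 : (-1 : ℤ) + -(n : ℤ) = -((n + 1 : ℕ) : ℤ) := by push_cast; ring
    rw [e1, e2]
  have hcond : ∀ n : ℕ, cO K Γ (coeff n g) + cD K Γ (x (n + 1)) = 0 := by
    intro n
    apply ext_inner_left ℂ
    intro u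
    have h1 := horth (mono n u) (mono_mem (by positivity) u)
    rw [h.inner_Mt, refl_mono, inner_mono_left] at h1
    have h2 : coeff (-(n : ℤ)) (h.M hb (refl g)) = coeff 0 (h.M hb (zm n (refl g))) := by
      rw [h.M_zm, coeff_zm, zero_sub]
    rw [h2, h.coeff_zero_M, coeff_zm, coeff_refl, zm_zm, zm_refl, refl_refl] at h1
    have e1 : -((0 : ℤ) - (n : ℤ)) = n := by ring
    have e2 : -((1 : ℤ) + (n : ℤ)) = -((n + 1 : ℕ) : ℤ) := by push_cast; ring
    rw [e1, e2] at h1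
    rw [inner_zero_right]
    exact h1
  have h1 : ∀ n : ℕ, cT K (x n) = x (n + 1) := by
    intro n
    conv_lhs => rw [hrec n, map_add]
    have e1 := h.id2 (coeff n g)
    have e2 := h.id1 (x (n + 1))
    have e3 : cO K Γ (coeff n g) = - cD K Γ (x (n + 1)) := eq_neg_of_add_eq_zero_left (hcond n)
    rw [e3, map_neg] at e1
    have e4 : cT K (cEs K Γ (coeff n g)) = cDs K Γ (cD K Γ (x (n + 1))) := by
      rw [← sub_eq_zero, sub_eq_add_neg]; exact e1
    rw [e4, add_comm]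
    exact e2
  have h2 : ∀ n : ℕ, cE K Γ (x n) = coeff n g := by
    intro n
    conv_lhs => rw [hrec n, map_add]
    have e1 := h.id2' (x (n + 1))
    have e2 := h.id3 (coeff n g)
    have e3 : cD K Γ (x (n + 1)) = - cO K Γ (coeff n g) := eq_neg_of_add_eq_zero_right (hcond n)
    rw [e3, map_neg] at e1
    have e4 : cE K Γ (cTs K (x (n + 1))) = cOs K Γ (cO K Γ (coeff n g)) := by
      rw [← sub_eq_zero, sub_eq_add_neg]; exact e1
    rw [e4]
    exact e2
  have h3 : ∀ n : ℕ, x n = (cT K ^ n) (x 0) := by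
    intro n
    induction n with
    | zero => simp
    | succ n ih =>
      rw [← h1, ih, pow_succ']
      rfl
  have h4 : Tendsto x atTop (𝓝 0) := by
    have h5 := tendsto_rieszProj_zm g
    have h6 : ∀ n, x n = adjoint h.V' (rieszProj (zm (-(n : ℤ)) g)) := by
      intro n
      rw [h.adjoint_V'_rieszProj]
    have h7 := ((adjoint h.V').continuous.tendsto 0).comp h5
    rw [map_zero] at h7
    exact h7.congr fun n => (h6 n).symm
  have h5 : x 0 = 0 := hT _ (h4.congr h3)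
  apply eq_zero_of_coeff_eq_zero
  intro n
  rcases lt_or_ge n 0 with hn | hn
  · exact (mem_H2_iff _).1 hg n hn
  · obtain ⟨m, rfl⟩ := Int.eq_ofNat_of_zero_le hn
    rw [← h2, h3, h5, map_zero, map_zero]

include hb in
lemma isStarOuter (hT : ∀ x, Tendsto (fun n : ℕ => (cT K ^ n) x) atTop (𝓝 0) → x = 0) :
    IsStarOuter (cθ K Γ) := by
  refine ⟨tildeB K Γ, isBoundaryFn_tilde hb, ?_⟩
  set S : Submodule ℂ (L2 L) := (H2 L).map (h.Mt hb : L2 L →ₗ[ℂ] L2 L) with hS
  have h1 : mulH2 (tildeB K Γ) = (S : Set (L2 L)) := by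
    ext g
    rw [h.mem_mulH2_tilde_iff hb, hS]
    rfl
  rw [h1, ← Submodule.topologicalClosure_coe]
  congr 1
  have h2 : S.topologicalClosure ≤ H2 L := by
    apply Submodule.topologicalClosure_minimal _ _ isClosed_H2
    rintro _ ⟨f, hf, rfl⟩
    exact h.Mt_mem hb hf
  have : CompleteSpace S.topologicalClosure :=
    (Submodule.isClosed_topologicalClosure S).completeSpace_coe
  have h3 := Submodule.sup_orthogonal_inf_of_hasOrthogonalProjection h2
  have h4 : S.topologicalClosureᗮ ⊓ H2 L = ⊥ := by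
    rw [Submodule.eq_bot_iff]
    rintro g ⟨hg1, hg2⟩
    apply h.orth_eq_zero hb hT hg2
    intro f hf
    exact (Submodule.mem_orthogonal _ _).1 hg1 _
      (Submodule.le_topologicalClosure _ ⟨f, hf, rfl⟩)
  rw [h4, sup_bot_eq] at h3
  exact h3

/-! ### The kernel of `θ*` and cyclicity -/

lemma inner_M_kerStar {k : L2 L} (hk : k ∈ kerStar (cθb K Γ)) (f : L2 L) :
    ⟪h.M hb f, k⟫_ℂ = 0 := by
  rw [L2.inner_def, integral_congr_ae (g := fun _ => (0 : ℂ))]
  · simp
  · filter_upwards [h.coeFn_M hb f, hk] with t h1 h2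
    rw [h1, ← adjoint_inner_right, h2, inner_zero_right]

omit h in
lemma zm_mem_kerStar {k : L2 L} (hk : k ∈ kerStar (cθb K Γ)) (n : ℤ) :
    zm n k ∈ kerStar (cθb K Γ) := by
  change ∀ᵐ t ∂mu, adjoint (cθb K Γ t) (zm n k t) = 0
  filter_upwards [coeFn_zm n k, hk] with t h1 h2
  rw [h1, map_smul, h2, smul_zero]

lemma zm_V_sub (g : H) : zm 1 (h.V g) - h.V (cT K g) = h.M hb (mono 0 (cE K Γ g)) := by
  apply ext_coeff
  intro n
  rw [h.M_mono_zero hb, map_sub, map_add, coeff_zm, coeff_mono, coeff_zm, h.coeff_V, h.coeff_V,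
    h.coeff_V]
  rcases lt_trichotomy n 0 with hn | hn | hn
  · rw [if_neg (by omega), if_neg (by omega), if_neg (by omega), if_neg (by omega)]
    simp
  · subst hn
    rw [if_neg (by omega), if_pos le_rfl, if_pos rfl]
    have := h.id5 g
    simp only [Int.toNat_zero, pow_zero, zero_sub]
    rw [if_neg (by omega), add_zero]
    exact neg_eq_of_add_eq_zero_right this
  · obtain ⟨m, rfl⟩ : ∃ m : ℕ, n = (m : ℤ) + 1 := ⟨(n - 1).toNat, by omega⟩
    rw [add_sub_cancel_right, if_pos (by positivity), if_pos (by positivity), if_neg (by omega),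
      if_pos (by positivity), Int.toNat_natCast, zero_add]
    have e1 : ((m : ℤ) + 1).toNat = m + 1 := by omega
    rw [e1, pow_succ]
    change cD K Γ ((cTs K ^ m) g) - cD K Γ ((cTs K ^ m) (cTs K (cT K g))) =
      cD K Γ ((cTs K ^ m) (cEs K Γ (cE K Γ g)))
    rw [← map_sub, ← map_sub]
    congr 2
    have := h.id4 g
    rw [sub_eq_iff_eq_add, add_comm]
    exact this.symm

include hb in
lemma inner_kerStar_zm_V {k : L2 L} (hk : k ∈ kerStar (cθb K Γ)) (n : ℕ) (g : H) :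
    ⟪k, zm (n : ℤ) (h.V g)⟫_ℂ = ⟪k, h.V ((cT K ^ n) g)⟫_ℂ := by
  induction n generalizing g with
  | zero => simp [zm_zero]
  | succ n ih =>
    have h1 : zm ((n + 1 : ℕ) : ℤ) (h.V g) = zm (n : ℤ) (h.V (cT K g)) +
        h.M hb (zm (n : ℤ) (mono 0 (cE K Γ g))) := by
      rw [h.M_zm, ← map_add, ← h.zm_V_sub hb, add_sub_cancel, zm_zm]
      push_cast
      rfl
    have h2 : ⟪k, h.M hb (zm (n : ℤ) (mono 0 (cE K Γ g)))⟫_ℂ = 0 := by
      rw [← inner_conj_symm, h.inner_M_kerStar hb hk, map_zero]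
    rw [h1, inner_add_right, h2, add_zero, ih, pow_succ]
    rfl

include hb in
lemma norm_inner_kerStar_le {k : L2 L} (hk : k ∈ kerStar (cθb K Γ)) (n : ℕ) (g : H) :
    ‖⟪k, h.V g⟫_ℂ‖ ≤ ‖k‖ * ‖(cT K ^ n) g‖ := by
  have h1 : ⟪k, h.V g⟫_ℂ = ⟪zm (n : ℤ) k, zm (n : ℤ) (h.V g)⟫_ℂ := by
    rw [inner_zm_left, zm_zm, neg_add_cancel, zm_zero]
  rw [h1, h.inner_kerStar_zm_V hb (zm_mem_kerStar hk n)]
  calc _ ≤ ‖zm (n : ℤ) k‖ * ‖h.V ((cT K ^ n) g)‖ := norm_inner_le_norm _ _
    _ ≤ _ := by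
      rw [norm_zm]
      gcongr
      exact h.norm_V_le _

omit h in
lemma coeff_backShift (f : L2 L) (n : ℤ) :
    coeff n (backShift f) = if n = -1 then 0 else coeff (n + 1) f := by
  have h1 : backShift f = zm (-1) (f - mono 0 (coeff 0 f)) := by
    apply Lp.ext
    filter_upwards [(memLp_backShift f).coeFn_toLp, coeFn_zm (-1) (f - mono 0 (coeff 0 f)),
      Lp.coeFn_sub f (mono 0 (coeff 0 f)), coeFn_mono 0 (coeff 0 f)] with t h1 h2 h3 h4
    unfold backShift
    rw [h1, h2, h3, Pi.sub_apply, h4, fourier_neg, fourier_one, ← Circle.coe_inv_eq_conj,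
      coeff_eq_fourierCoeff]
    simp
  rw [h1, coeff_zm, map_sub, coeff_mono]
  split_ifs with h2 h3 h3
  · rw [h2]; simp
  · omega
  · omega
  · rw [sub_zero, sub_neg_eq_add]

omit h in
lemma backShift_eq {f : L2 L} (hf : f ∈ H2 L) : backShift f = rieszProj (zm (-1) f) := by
  apply ext_coeff
  intro n
  rw [coeff_backShift]
  rcases lt_or_ge n 0 with hn | hn
  · rw [coeff_rieszProj_of_neg hn]
    split_ifs with h1
    · rfl
    · exact (mem_H2_iff _).1 hf _ (by omega)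
  · rw [if_neg (by omega), coeff_rieszProj_of_nonneg hn, coeff_zm, sub_neg_eq_add]

omit h in
lemma backShift_iterate (k : L2 L) (n : ℕ) :
    backShift^[n] (rieszProj k) = rieszProj (zm (-(n : ℤ)) k) := by
  induction n with
  | zero => simp [zm_zero]
  | succ n ih =>
    rw [Function.iterate_succ_apply', ih, backShift_eq (rieszProj_mem _)]
    apply ext_coeff
    intro m
    rcases lt_or_ge m 0 with hm | hm
    · rw [coeff_rieszProj_of_neg hm, coeff_rieszProj_of_neg hm]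
    · rw [coeff_rieszProj_of_nonneg hm, coeff_rieszProj_of_nonneg hm, coeff_zm,
        coeff_rieszProj_of_nonneg (by omega), coeff_zm, coeff_zm]
      congr 1
      push_cast; ring_nf

include hb in
lemma rieszProj_kerStar_mem {k : L2 L} (hk : k ∈ kerStar (cθb K Γ)) :
    rieszProj k ∈ modelSpace (cθb K Γ) := by
  rw [h.mem_modelSpace_iff hb]
  refine ⟨rieszProj_mem _, fun f hf => ?_⟩
  rw [inner_rieszProj_right _ _ (h.M_mem hb hf), h.inner_M_kerStar hb hk]

omit h in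
lemma isClosed_modelSpace (θb : Circ → L →L[ℂ] L) : IsClosed (modelSpace θb : Set (L2 L)) := by
  unfold modelSpace
  rw [Submodule.coe_inf]
  exact isClosed_H2.inter (Submodule.isClosed_orthogonal _)

include hb in
/-- The main abstract statement: under the quasianalyticity hypothesis `hQ`, every `P₊ k` with
`k ∈ Ker θ*` is zero or cyclic. -/
theorem cyclic_or_zero
    (hQ : ∀ (ℓ : H →L[ℂ] ℂ) (f : H), f ≠ 0 → (∃ C : ℝ, ∀ (g : H) (n : ℕ),
      ‖ℓ g‖ ≤ C * ‖(cT K ^ n) g‖) → (∀ n : ℕ, ℓ ((cT K ^ n) f) = 0) → ℓ = 0)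
    {k : L2 L} (hk : k ∈ kerStar (cθb K Γ)) :
    rieszProj k = 0 ∨ IsCyclicBackShift (cθb K Γ) (rieszProj k) := by
  by_cases hcyc : IsCyclicBackShift (cθb K Γ) (rieszProj k)
  · exact Or.inr hcyc
  left
  set W : Submodule ℂ (L2 L) :=
    Submodule.span ℂ (Set.range fun n : ℕ => backShift^[n] (rieszProj k)) with hW
  have h1 : W.topologicalClosure ≤ modelSpace (cθb K Γ) := by
    apply Submodule.topologicalClosure_minimal _ _ (isClosed_modelSpace _)
    rw [hW, Submodule.span_le]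
    rintro _ ⟨n, rfl⟩
    simp only [backShift_iterate]
    exact h.rieszProj_kerStar_mem hb (zm_mem_kerStar hk _)
  have : CompleteSpace W.topologicalClosure :=
    (Submodule.isClosed_topologicalClosure W).completeSpace_coe
  have h2 := Submodule.sup_orthogonal_inf_of_hasOrthogonalProjection h1
  have h3 : W.topologicalClosureᗮ ⊓ modelSpace (cθb K Γ) ≠ ⊥ := by
    intro h3
    rw [h3, sup_bot_eq] at h2
    exact hcyc h2
  obtain ⟨v, hv, hv0⟩ := Submodule.exists_mem_ne_zero_of_ne_bot h3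
  obtain ⟨hv1, hv2⟩ := hv
  obtain ⟨f, hf⟩ : ∃ f : H, v = h.V f := ⟨_, h.exists_of_mem_modelSpace hb hv2⟩
  have hf0 : f ≠ 0 := by
    rintro rfl
    rw [map_zero] at hf
    exact hv0 hf
  let ℓ : H →L[ℂ] ℂ := (innerSL ℂ k).comp h.V
  have hℓ : ℓ = 0 := by
    apply hQ ℓ f hf0
    · exact ⟨‖k‖, fun g n => h.norm_inner_kerStar_le hb hk n g⟩
    · intro n
      change ⟪k, h.V ((cT K ^ n) f)⟫_ℂ = 0
      rw [← h.inner_kerStar_zm_V hb hk, inner_zm_right, ← hf,
        ← inner_rieszProj_left _ _ (hf ▸ h.V_mem f : v ∈ H2 L), ← backShift_iterate]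
      exact (Submodule.mem_orthogonal _ _).1 hv1 _
        (Submodule.le_topologicalClosure _ (Submodule.subset_span ⟨n, rfl⟩))
  -- hence `P₊ k` is orthogonal to itself
  have h4 := h.rieszProj_kerStar_mem hb hk
  have h5 : rieszProj k = h.V (adjoint h.V (rieszProj k)) := h.exists_of_mem_modelSpace hb h4
  have h6 : ⟪rieszProj k, rieszProj k⟫_ℂ = 0 := by
    rw [inner_rieszProj_left _ _ (rieszProj_mem k)]
    conv_lhs => rw [h5]
    exact congrArg (fun A : H →L[ℂ] ℂ => A (adjoint h.V (rieszProj k))) hℓ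
  exact inner_self_eq_zero.1 h6

include hb in
lemma modelSpace_ne_bot [Nontrivial H]
    (hS : ∀ x, Tendsto (fun n : ℕ => (cTs K ^ n) x) atTop (𝓝 0)) :
    modelSpace (cθb K Γ) ≠ ⊥ := by
  obtain ⟨x, hx⟩ := exists_ne (0 : H)
  intro h1
  have h2 := h.V_mem_modelSpace hb hS x
  rw [h1, Submodule.mem_bot] at h2
  have h3 := h.norm_V_eq hS x
  rw [h2, norm_zero] at h3
  exact hx (norm_eq_zero.1 h3.symm)

end IsColl

end Pool.Agent.P8b2208
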