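import Pool.Agent.P8b2208.Hardy

open MeasureTheory AddCircle Filter Topology
open scoped ENNReal InnerProductSpace ComplexConjugate

set_option linter.unusedSectionVars false
set_option linter.unusedSimpArgs false

namespace Pool.Agent.P8b2208

variable {E F : Type*} [NormedAddCommGroup E] [InnerProductSpace ℂ E] [CompleteSpace E]
  [NormedAddCommGroup F] [InnerProductSpace ℂ F] [CompleteSpace F]

section refl

/-- The reflection `t ↦ -t` preserves normalised Lebesgue measure. -/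
lemma measurePreserving_neg : MeasurePreserving (fun t : Circ => -t) mu mu :=
  Measure.measurePreserving_neg mu

lemma ae_neg {p : Circ → Prop} (h : ∀ᵐ t ∂mu, p t) : ∀ᵐ t ∂mu, p (-t) :=
  measurePreserving_neg.quasiMeasurePreserving.ae h

/-- Reflection `f(ζ) ↦ f(ζ̄)` on `L²(𝕋; E)`. -/
noncomputable def refl : L2 E →ₗᵢ[ℂ] L2 E :=
  Lp.compMeasurePreservingₗᵢ ℂ (fun t : Circ => -t) measurePreserving_neg

lemma coeFn_refl (f : L2 E) : refl f =ᵐ[mu] fun t => f (-t) :=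
  Lp.coeFn_compMeasurePreserving f measurePreserving_neg

lemma refl_mono (n : ℤ) (e : E) : refl (mono n e) = mono (-n) e := by
  apply Lp.ext
  have h1 := ae_neg (p := fun t => (mono n e : L2 E) t = fourier n t • e) (coeFn_mono n e)
  filter_upwards [coeFn_refl (mono n e), h1, coeFn_mono (-n) e] with t h1 h2 h3
  rw [h1, h2, h3]
  congr 1
  simp [fourier_apply]

lemma refl_refl (f : L2 E) : refl (refl f) = f := by
  apply Lp.ext
  have h1 := ae_neg (p := fun t => (refl f : L2 E) t = f (-t)) (coeFn_refl f)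
  filter_upwards [coeFn_refl (refl f), h1] with t h1 h2
  rw [h1, h2, neg_neg]

lemma inner_refl_left (f g : L2 E) : ⟪refl f, g⟫_ℂ = ⟪f, refl g⟫_ℂ := by
  have := (refl (E := E)).inner_map_map f (refl g)
  rwa [refl_refl] at this

lemma coeff_refl (n : ℤ) (f : L2 E) : coeff n (refl f) = coeff (-n) f := by
  apply ext_inner_left ℂ
  intro e
  rw [← inner_mono_left, ← inner_refl_left, refl_mono, inner_mono_left]

lemma zm_refl (n : ℤ) (f : L2 E) : zm n (refl f) = refl (zm (-n) f) := by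
  apply ext_coeff
  intro m
  rw [coeff_zm, coeff_refl, coeff_refl, coeff_zm]
  congr 2
  ring

end refl

section mulOp

/-- Multiplication by a bounded operator-valued function. -/
noncomputable def mulOp (Θ : Lp (E →L[ℂ] F) ∞ mu) : L2 E →L[ℂ] L2 F :=
  (ContinuousLinearMap.id ℂ (E →L[ℂ] F)).holderL mu ∞ 2 2 Θ

lemma coeFn_mulOp (Θ : Lp (E →L[ℂ] F) ∞ mu) (f : L2 E) :
    mulOp Θ f =ᵐ[mu] fun t => Θ t (f t) :=
  ContinuousLinearMap.coeFn_holder (r := 2) (ContinuousLinearMap.id ℂ (E →L[ℂ] F)) Θ f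

lemma mulOp_ext {Θ : Lp (E →L[ℂ] F) ∞ mu} {f : L2 E} {g : L2 F}
    (h : ∀ᵐ t ∂mu, g t = Θ t (f t)) : mulOp Θ f = g := by
  apply Lp.ext
  filter_upwards [coeFn_mulOp Θ f, h] with t h1 h2
  rw [h1, h2]

lemma mulOp_zm (Θ : Lp (E →L[ℂ] F) ∞ mu) (n : ℤ) (f : L2 E) :
    mulOp Θ (zm n f) = zm n (mulOp Θ f) := by
  apply mulOp_ext
  filter_upwards [coeFn_zm n (mulOp Θ f), coeFn_mulOp Θ f, coeFn_zm n f] with t h1 h2 h3
  rw [h1, h2, h3, map_smul]

lemma coeFn_mulOp_mono_zero (Θ : Lp (E →L[ℂ] F) ∞ mu) (e : E) :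
    mulOp Θ (mono 0 e) =ᵐ[mu] fun t => Θ t e := by
  filter_upwards [coeFn_mulOp Θ (mono 0 e), coeFn_mono 0 e] with t h1 h2
  rw [h1, h2]
  simp

/-- If `Θ'(t) = Θ(-t)*` then `⟪Θ' f, g⟫ = ⟪R f, Θ R g⟫`. -/
lemma inner_mulOp_tilde {Θ : Lp (E →L[ℂ] F) ∞ mu} {Θ' : Lp (F →L[ℂ] E) ∞ mu}
    (h : ∀ᵐ t ∂mu, Θ' t = ContinuousLinearMap.adjoint (Θ (-t))) (f : L2 F) (g : L2 E) :
    ⟪mulOp Θ' f, g⟫_ℂ = ⟪refl f, mulOp Θ (refl g)⟫_ℂ := by
  rw [← (refl (E := F)).inner_map_map, refl_refl, L2.inner_def, L2.inner_def]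
  apply integral_congr_ae
  have h1 := ae_neg (p := fun t => (mulOp Θ (refl g) : L2 F) t = Θ t ((refl g : L2 E) t))
    (coeFn_mulOp Θ (refl g))
  have h2 := ae_neg (p := fun t => (refl g : L2 E) t = g (-t)) (coeFn_refl g)
  filter_upwards [coeFn_mulOp Θ' f, h, h1, h2, coeFn_refl (mulOp Θ (refl g))] with t h3 h4 h5 h6 h7
  rw [h3, h4, h7, h5, h6, neg_neg, ContinuousLinearMap.adjoint_inner_left]

/-- If `Θ'(t) = Θ(t)*` then `⟪Θ' f, g⟫ = ⟪f, Θ g⟫`. -/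
lemma norm_mulOp_of_isometry {Θ : Lp (E →L[ℂ] F) ∞ mu}
    (h : ∀ᵐ t ∂mu, ∀ x : E, ‖Θ t x‖ = ‖x‖) (f : L2 E) : ‖mulOp Θ f‖ = ‖f‖ := by
  apply le_antisymm
  · have h1 : ‖mulOp Θ f‖ ≤ 1 * ‖f‖ := by
      refine Lp.norm_le_mul_norm_of_ae_le_mul ?_
      filter_upwards [coeFn_mulOp Θ f, h] with t h1 h2
      rw [h1, h2, one_mul]
    rwa [one_mul] at h1
  · have h1 : ‖f‖ ≤ 1 * ‖mulOp Θ f‖ := by
      refine Lp.norm_le_mul_norm_of_ae_le_mul ?_
      filter_upwards [coeFn_mulOp Θ f, h] with t h1 h2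
      rw [h1, h2, one_mul]
    rwa [one_mul] at h1

end mulOp

end Pool.Agent.P8b2208
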