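import Pool.Agent.P8b2208.Uniq

open MeasureTheory AddCircle Filter Topology
open scoped ENNReal InnerProductSpace ComplexConjugate

set_option linter.unusedSectionVars false
set_option linter.unusedSimpArgs false

namespace Pool.Agent.P8b2208

open ContinuousLinearMap

/-- The properties of the symbols used in the construction. -/
structure Sym (κ c ρ : C(Circ, ℂ)) : Prop where
  anκ : IsAn κ
  anc : IsAn c
  mul : κ * c = 1
  ρreal : star ρ = ρ
  ρsq : ρ * ρ = c + star c - 1
  inj : ∀ s t, ρ s = 0 → ρ t = 0 → c s = c t → s = t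
  posβ : mu {t | ρ t = 0} ≠ 0
  posγ : mu {t | ρ t ≠ 0} ≠ 0
  exc : ∀ᵐ t ∂mu, ∃ δ > 0, ∀ s, ρ s ≠ 0 → δ ≤ ‖1 - (toCircle t : ℂ) * conj ((1 - κ) s)‖

variable {κ c ρ : C(Circ, ℂ)}

lemma seq_tendsto_zero {E : Type*} [NormedAddCommGroup E] [NormedSpace ℂ E] {a : ℂ}
    (ha : ‖a‖ < 1) {x y : ℕ → E} (hxy : ∀ n, x (n + 1) = a • x n + y n)
    (hy : Tendsto y atTop (𝓝 0)) : Tendsto x atTop (𝓝 0) := by
  rw [Metric.tendsto_atTop] at hy ⊢
  intro ε hε
  have ha' : 0 < 1 - ‖a‖ := by linarith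
  obtain ⟨N, hN⟩ := hy (ε * (1 - ‖a‖) / 2) (by positivity)
  have h1 : ∀ j : ℕ, ‖x (N + j)‖ ≤ ‖a‖ ^ j * ‖x N‖ + ε / 2 := by
    intro j
    induction j with
    | zero => simp; positivity
    | succ j ih =>
      have h2 := hN (N + j) (by omega)
      rw [dist_zero_right] at h2
      calc ‖x (N + (j + 1))‖ = ‖a • x (N + j) + y (N + j)‖ := by rw [← hxy]; rfl
        _ ≤ ‖a‖ * ‖x (N + j)‖ + ‖y (N + j)‖ := by
            refine (norm_add_le _ _).trans ?_
            rw [norm_smul]
        _ ≤ ‖a‖ * (‖a‖ ^ j * ‖x N‖ + ε / 2) + ε * (1 - ‖a‖) / 2 := by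
            gcongr
        _ = ‖a‖ ^ (j + 1) * ‖x N‖ + ε / 2 := by ring
  have h3 : Tendsto (fun j : ℕ => ‖a‖ ^ j * ‖x N‖) atTop (𝓝 (0 * ‖x N‖)) :=
    (tendsto_pow_atTop_nhds_zero_of_lt_one (norm_nonneg _) ha).mul_const _
  rw [zero_mul, Metric.tendsto_atTop] at h3
  obtain ⟨M, hM⟩ := h3 (ε / 2) (by positivity)
  refine ⟨N + M, fun n hn => ?_⟩
  obtain ⟨j, rfl⟩ : ∃ j, n = N + j := ⟨n - N, by omega⟩
  have h4 := hM j (by omega)
  rw [dist_zero_right, Real.norm_of_nonneg (by positivity)] at h4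
  rw [dist_zero_right]
  have := h1 j
  linarith

namespace Sym

variable (hs : Sym κ c ρ)
include hs

lemma c_ne_zero (t : Circ) : c t ≠ 0 := by
  have h := congrArg (fun f : C(Circ, ℂ) => f t) hs.mul
  simp only [ContinuousMap.mul_apply, ContinuousMap.one_apply] at h
  intro h0
  rw [h0, mul_zero] at h
  exact zero_ne_one h

lemma κ_eq (t : Circ) : κ t = (c t)⁻¹ := by
  have h := congrArg (fun f : C(Circ, ℂ) => f t) hs.mul
  simp only [ContinuousMap.mul_apply, ContinuousMap.one_apply] at h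
  exact eq_inv_of_mul_eq_one_left h

/-- `ρ` is real valued -/
lemma ρ_im (t : Circ) : (ρ t).im = 0 := by
  have h := congrArg (fun f : C(Circ, ℂ) => f t) hs.ρreal
  simp only [ContinuousMap.star_apply] at h
  exact Complex.conj_eq_iff_im.1 h

lemma ρ_sq_re (t : Circ) : (ρ t).re ^ 2 = 2 * (c t).re - 1 := by
  have h := congrArg (fun f : C(Circ, ℂ) => (f t).re) hs.ρsq
  simp only [ContinuousMap.mul_apply, ContinuousMap.add_apply, ContinuousMap.sub_apply,
    ContinuousMap.star_apply, ContinuousMap.one_apply, Complex.mul_re, Complex.sub_re,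
    Complex.add_re, Complex.one_re] at h
  rw [hs.ρ_im t] at h
  have h2 : (star (c t)).re = (c t).re := rfl
  rw [h2] at h
  nlinarith

lemma norm_ρ_sq (t : Circ) : ‖ρ t‖ ^ 2 = 2 * (c t).re - 1 := by
  rw [← hs.ρ_sq_re, ← Complex.normSq_eq_norm_sq, Complex.normSq_apply, hs.ρ_im t]
  ring

/-- `|φ|² = 1 - ρ²/|c|²`. -/
lemma norm_φ_sq (t : Circ) : ‖(1 - κ) t‖ ^ 2 = 1 - ‖ρ t‖ ^ 2 / ‖c t‖ ^ 2 := by
  have h1 : (1 - κ) t = (c t - 1) / c t := by
    simp only [ContinuousMap.sub_apply, ContinuousMap.one_apply]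
    rw [hs.κ_eq t]
    have := hs.c_ne_zero t
    field_simp
  have hc : ‖c t‖ ^ 2 ≠ 0 := by
    have := hs.c_ne_zero t
    positivity
  rw [h1, norm_div, div_pow, hs.norm_ρ_sq, eq_sub_iff_add_eq, ← add_div, div_eq_one_iff_eq hc,
    ← Complex.normSq_eq_norm_sq, ← Complex.normSq_eq_norm_sq, Complex.normSq_apply,
    Complex.normSq_apply]
  simp only [Complex.sub_re, Complex.one_re, Complex.sub_im, Complex.one_im]
  ring

lemma norm_φ_le (t : Circ) : ‖(1 - κ) t‖ ≤ 1 := by
  have h := hs.norm_φ_sq t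
  have h2 : 0 ≤ ‖ρ t‖ ^ 2 / ‖c t‖ ^ 2 := by positivity
  have h3 : ‖(1 - κ) t‖ ^ 2 ≤ 1 ^ 2 := by rw [h]; linarith
  exact (sq_le_sq₀ (norm_nonneg _) zero_le_one).1 h3

lemma norm_φ_eq {t : Circ} (ht : ρ t = 0) : ‖(1 - κ) t‖ = 1 := by
  have h := hs.norm_φ_sq t
  rw [ht, norm_zero] at h
  have h3 : ‖(1 - κ) t‖ ^ 2 = 1 ^ 2 := by rw [h]; ring
  exact (sq_eq_sq₀ (norm_nonneg _) zero_le_one).1 h3

lemma norm_φ_lt {t : Circ} (ht : ρ t ≠ 0) : ‖(1 - κ) t‖ < 1 := by
  have h := hs.norm_φ_sq t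
  have hc := hs.c_ne_zero t
  have h2 : 0 < ‖ρ t‖ ^ 2 / ‖c t‖ ^ 2 := by positivity
  have h3 : ‖(1 - κ) t‖ ^ 2 < 1 ^ 2 := by rw [h]; linarith
  exact (sq_lt_sq₀ (norm_nonneg _) zero_le_one).1 h3

lemma norm_φ_le' : ‖(1 - κ : C(Circ, ℂ))‖ ≤ 1 :=
  (ContinuousMap.norm_le _ zero_le_one).2 hs.norm_φ_le

/-- the colligation -/
lemma coll : IsColl (toep κ hs.anκ) (gam ρ) :=
  isColl_toep hs.anκ hs.anc hs.mul hs.ρreal hs.ρsq

/-- `T` is multiplication by `φ = 1 - κ`. -/
lemma coe_T (f : HH) : ((cT (toep κ hs.anκ) f : HH) : L2 ℂ) = mulC (1 - κ) (f : L2 ℂ) := by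
  rw [cT_apply, Submodule.coe_sub, coe_toep, mulC_sub, mulC_one]

lemma coe_T_pow (n : ℕ) (f : HH) :
    (((cT (toep κ hs.anκ) ^ n) f : HH) : L2 ℂ) = mulC ((1 - κ) ^ n) (f : L2 ℂ) := by
  induction n with
  | zero => simp [mulC_one]
  | succ n ih =>
    rw [pow_succ', pow_succ', mulC_mul, ← ih]
    exact hs.coe_T _

lemma Ts_prj (g : L2 ℂ) : cTs (toep κ hs.anκ) (prj g) = prj (mulC (star (1 - κ)) g) := by
  rw [cTs_apply, adjoint_toep_prj, star_sub, star_one, mulC_sub, mulC_one, map_sub]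

/-- `|φ̂(0)| < 1`. -/
lemma norm_coeff_φ_lt : ‖fourierCoeff (1 - κ : C(Circ, ℂ)) 0‖ < 1 := by
  have hcont : Continuous (fun t : Circ => ‖(1 - κ) t‖) := (map_continuous (1 - κ)).norm
  have hint : Integrable (fun t : Circ => ‖(1 - κ) t‖) mu :=
    hcont.integrable_of_hasCompactSupport (HasCompactSupport.of_compactSpace _)
  have h1 : ‖fourierCoeff (1 - κ : C(Circ, ℂ)) 0‖ ≤ ∫ t, ‖(1 - κ) t‖ ∂mu := by
    unfold fourierCoeff
    refine (norm_integral_le_integral_norm _).trans (le_of_eq ?_)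
    apply integral_congr_ae
    filter_upwards with t
    rw [norm_smul, norm_fourier_apply, one_mul]
  have h2 : 0 < ∫ t, (1 - ‖(1 - κ) t‖) ∂mu := by
    rw [integral_pos_iff_support_of_nonneg]
    · refine lt_of_lt_of_le (pos_iff_ne_zero.2 hs.posγ) (measure_mono ?_)
      intro t ht
      rw [Function.mem_support]
      have := hs.norm_φ_lt ht
      intro h0
      linarith
    · intro t
      have := hs.norm_φ_le t
      simp only [Pi.zero_apply]
      linarith
    · exact (integrable_const 1).sub hint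
  rw [integral_sub (integrable_const 1) hint] at h2
  simp only [integral_const, probReal_univ, smul_eq_mul, mul_one] at h2
  linarith

lemma Ts_mono (k : ℕ) (e : ℂ) : cTs (toep κ hs.anκ) (prj (mono k e)) =
    ∑ m ∈ Finset.range (k + 1),
      conj (fourierCoeff (1 - κ : C(Circ, ℂ)) ((k : ℤ) - m)) • prj (mono (m : ℤ) e) := by
  rw [hs.Ts_prj]
  have h1 : ∀ (g : L2 ℂ), ((prj g : HH) : L2 ℂ) = rieszProj g := fun g => rfl
  have hφan : IsAn (1 - κ) := by
    intro n hn
    have h2 : ((1 - κ : C(Circ, ℂ)) : Circ → ℂ) = (fun _ => (1 : ℂ)) + fun t => (-1 : ℂ) * κ t := by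
      funext t
      simp [sub_eq_add_neg]
    have h3 : Integrable (fun t => (-1 : ℂ) * κ t) mu :=
      (continuous_const.mul (map_continuous κ)).integrable_of_hasCompactSupport
        (HasCompactSupport.of_compactSpace _)
    rw [h2, fourierCoeff.add (integrable_const _) h3, Pi.add_apply, fourierCoeff_const,
      if_neg (by omega), fourierCoeff.const_mul, hs.anκ n hn]
    simp
  apply Subtype.ext
  rw [h1]
  apply ext_coeff
  intro n
  have h4 : ((∑ m ∈ Finset.range (k + 1),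
      conj (fourierCoeff (1 - κ : C(Circ, ℂ)) ((k : ℤ) - m)) • prj (mono (m : ℤ) e) : HH) : L2 ℂ) =
      ∑ m ∈ Finset.range (k + 1),
      conj (fourierCoeff (1 - κ : C(Circ, ℂ)) ((k : ℤ) - m)) • (mono (m : ℤ) e : L2 ℂ) := by
    rw [Submodule.coe_sum]
    apply Finset.sum_congr rfl
    intro m _
    rw [Submodule.coe_smul, h1, rieszProj_of_mem (mono_mem (by positivity) e)]
  rw [h4, map_sum]
  simp only [map_smul, coeff_mono, smul_eq_mul]
  rcases lt_or_ge n 0 with hn | hn
  · rw [coeff_rieszProj_of_neg hn]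
    symm
    apply Finset.sum_eq_zero
    intro m _
    rw [if_neg (by omega), mul_zero]
  · obtain ⟨j, rfl⟩ := Int.eq_ofNat_of_zero_le hn
    rw [coeff_rieszProj_of_nonneg hn, coeff_mulC_mono]
    have h5 : fourierCoeff (star (1 - κ) : C(Circ, ℂ)) ((j : ℤ) - k) =
        conj (fourierCoeff (1 - κ : C(Circ, ℂ)) ((k : ℤ) - j)) := by
      unfold fourierCoeff
      rw [← integral_conj]
      apply integral_congr_ae
      filter_upwards with t
      simp only [smul_eq_mul, map_mul, ContinuousMap.star_apply]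
      rw [← fourier_neg, neg_neg]
      have e1 : -((j : ℤ) - k) = k - j := by ring
      rw [e1]
      rfl
    rw [h5]
    by_cases hjk : j ≤ k
    · rw [Finset.sum_eq_single j]
      · simp
      · intro b _ hb
        rw [if_neg (by exact_mod_cast hb.symm), mul_zero]
      · intro h6
        exact absurd (Finset.mem_range.2 (by omega)) h6
    · rw [hφan _ (by omega), map_zero, zero_mul]
      symm
      apply Finset.sum_eq_zero
      intro m hm
      have := Finset.mem_range.1 hm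
      rw [if_neg (by omega), mul_zero]

/-- `T*^n → 0` strongly. -/
lemma tendsto_Ts (x : HH) : Tendsto (fun n : ℕ => (cTs (toep κ hs.anκ) ^ n) x) atTop (𝓝 0) := by
  set S := cTs (toep κ hs.anκ) with hS
  have hS1 : ∀ n : ℕ, ‖S ^ n‖ ≤ 1 := by
    intro n
    induction n with
    | zero =>
      rw [pow_zero]
      exact ContinuousLinearMap.norm_id_le
    | succ n ih =>
      rw [pow_succ]
      refine (ContinuousLinearMap.opNorm_comp_le (S ^ n) S).trans ?_
      have := hs.coll.norm_Ts_le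
      nlinarith [norm_nonneg (S ^ n), norm_nonneg S]
  -- monomials
  have h1 : ∀ k : ℕ, ∀ e : ℂ, Tendsto (fun n : ℕ => (S ^ n) (prj (mono (k : ℤ) e))) atTop (𝓝 0) := by
    intro k
    induction k using Nat.strong_induction_on with
    | _ k ih =>
      intro e
      refine seq_tendsto_zero (a := conj (fourierCoeff (1 - κ : C(Circ, ℂ)) 0))
        (y := fun n => ∑ m ∈ Finset.range k,
          conj (fourierCoeff (1 - κ : C(Circ, ℂ)) ((k : ℤ) - m)) • (S ^ n) (prj (mono (m : ℤ) e)))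
        ?_ ?_ ?_
      · rw [RCLike.norm_conj]
        exact hs.norm_coeff_φ_lt
      · intro n
        have h2 : (S ^ (n + 1)) (prj (mono (k : ℤ) e)) = (S ^ n) (S (prj (mono (k : ℤ) e))) := by
          rw [pow_succ]; rfl
        rw [h2, hS, hs.Ts_mono, Finset.sum_range_succ, map_add, map_sum]
        simp only [map_smul, sub_self]
        rw [add_comm]
      · have h3 : (0 : HH) = ∑ m ∈ Finset.range k,
            conj (fourierCoeff (1 - κ : C(Circ, ℂ)) ((k : ℤ) - m)) • (0 : HH) := by simp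
        rw [h3]
        apply tendsto_finsetSum
        intro m hm
        exact (ih m (Finset.mem_range.1 hm) e).const_smul _
  -- closure
  have h2 : ∀ g : L2 ℂ, Tendsto (fun n : ℕ => (S ^ n) (prj g)) atTop (𝓝 0) := by
    intro g
    have hmem : g ∈ (Submodule.span ℂ
        {f : L2 ℂ | ∃ (n : ℤ) (e : ℂ), f = mono n e}).topologicalClosure := by
      rw [dense_span_mono]; trivial
    rw [Metric.tendsto_atTop]
    intro ε hε
    rw [← SetLike.mem_coe, Submodule.topologicalClosure_coe, Metric.mem_closure_iff] at hmem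
    obtain ⟨p, hp, hgp⟩ := hmem (ε / 2) (by positivity)
    have h3 : Tendsto (fun n : ℕ => (S ^ n) (prj p)) atTop (𝓝 0) := by
      refine Submodule.span_induction ?_ ?_ ?_ ?_ hp
      · rintro _ ⟨n, e, rfl⟩
        rcases lt_or_ge n 0 with hn | hn
        · have h4 : prj (mono n e : L2 ℂ) = 0 := by
            apply Subtype.ext
            change rieszProj (mono n e : L2 ℂ) = 0
            apply eq_zero_of_coeff_eq_zero
            intro m
            rcases lt_or_ge m 0 with hm | hm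
            · exact coeff_rieszProj_of_neg hm _
            · rw [coeff_rieszProj_of_nonneg hm, coeff_mono_ne (by omega)]
          simp [h4]
        · obtain ⟨k, rfl⟩ := Int.eq_ofNat_of_zero_le hn
          exact h1 k e
      · simp
      · intro x y _ _ hx hy
        have := hx.add hy
        simpa only [map_add, add_zero] using this
      · intro a x _ hx
        have := hx.const_smul a
        simpa only [map_smul, smul_zero] using this
    rw [Metric.tendsto_atTop] at h3
    obtain ⟨N, hN⟩ := h3 (ε / 2) (by positivity)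
    refine ⟨N, fun n hn => ?_⟩
    have h5 := hN n hn
    rw [dist_zero_right] at h5 ⊢
    have h6 : (S ^ n) (prj g) = (S ^ n) (prj (g - p)) + (S ^ n) (prj p) := by
      rw [← map_add, ← map_add, sub_add_cancel]
    rw [h6]
    have h7 : ‖(S ^ n) (prj (g - p))‖ ≤ ‖g - p‖ := by
      refine ((S ^ n).le_opNorm _).trans ?_
      have := hS1 n
      have h8 := norm_prj_le (g - p)
      calc _ ≤ 1 * ‖prj (g - p)‖ := by gcongr
        _ ≤ _ := by rw [one_mul]; exact h8
    rw [dist_eq_norm] at hgp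
    calc _ ≤ ‖(S ^ n) (prj (g - p))‖ + ‖(S ^ n) (prj p)‖ := norm_add_le _ _
      _ < ε := by linarith
  have h3 := h2 (x : L2 ℂ)
  rwa [prj_coe] at h3

end Sym

end Pool.Agent.P8b2208
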