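import Pool.Agent.P8b2208.Sym

open MeasureTheory AddCircle Filter Topology
open scoped ENNReal InnerProductSpace ComplexConjugate

set_option linter.unusedSectionVars false
set_option linter.unusedSimpArgs false

namespace Pool.Agent.P8b2208

open ContinuousLinearMap

section pairing

variable {X : Type*} [TopologicalSpace X] [CompactSpace X] [MeasurableSpace X] [BorelSpace X]
  (ν : Measure X) [IsFiniteMeasure ν] {w : X → ℂ}

lemma integrable_cont_mul (hw : Integrable w ν) (G : C(X, ℂ)) :
    Integrable (fun t => G t * w t) ν :=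
  hw.bdd_mul G.continuous.aestronglyMeasurable
    (Eventually.of_forall fun x => G.norm_coe_le_norm x)

lemma integrable_cont_mul_real (hw : Integrable w ν) (G : C(X, ℝ)) :
    Integrable (fun t => (G t : ℂ) * w t) ν :=
  integrable_cont_mul ν hw ⟨fun t => (G t : ℂ), Complex.continuous_ofReal.comp G.continuous⟩

lemma continuous_pair (hw : Integrable w ν) :
    Continuous (fun G : C(X, ℂ) => ∫ t, G t * w t ∂ν) := by
  have h1 : LipschitzWith (Real.toNNReal (∫ t, ‖w t‖ ∂ν)) (fun G : C(X, ℂ) => ∫ t, G t * w t ∂ν) := by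
    apply LipschitzWith.of_dist_le_mul
    intro G G'
    rw [dist_eq_norm, dist_eq_norm,
      Real.coe_toNNReal _ (integral_nonneg fun _ => norm_nonneg _),
      ← integral_sub (integrable_cont_mul ν hw G) (integrable_cont_mul ν hw G'),
      mul_comm, ← integral_const_mul]
    apply norm_integral_le_of_norm_le (hw.norm.const_mul _)
    filter_upwards with t
    rw [← sub_mul, norm_mul]
    gcongr
    exact (G - G').norm_coe_le_norm t
  exact h1.continuous

lemma continuous_pair_real (hw : Integrable w ν) :
    Continuous (fun G : C(X, ℝ) => ∫ t, (G t : ℂ) * w t ∂ν) := by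
  have h1 : LipschitzWith (Real.toNNReal (∫ t, ‖w t‖ ∂ν))
      (fun G : C(X, ℝ) => ∫ t, (G t : ℂ) * w t ∂ν) := by
    apply LipschitzWith.of_dist_le_mul
    intro G G'
    rw [dist_eq_norm, dist_eq_norm,
      Real.coe_toNNReal _ (integral_nonneg fun _ => norm_nonneg _),
      ← integral_sub (integrable_cont_mul_real ν hw G) (integrable_cont_mul_real ν hw G'),
      mul_comm, ← integral_const_mul]
    apply norm_integral_le_of_norm_le (hw.norm.const_mul _)
    filter_upwards with t
    rw [← sub_mul, norm_mul, ← Complex.ofReal_sub, Complex.norm_real]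
    gcongr
    exact (G - G').norm_coe_le_norm t
  exact h1.continuous

end pairing

/-- Stone-Weierstrass consequence: if `∫_β u q^m = 0` for all `m`, where `q` is real valued and
injective on the closed set `β`, then `u = 0` on `β`. -/
lemma ae_zero_of_moments {β : Set Circ} (hβ : IsClosed β) {u : Circ → ℂ} (hu : Integrable u mu)
    (y : C(Circ, ℝ)) (hy : ∀ s ∈ β, ∀ t ∈ β, y s = y t → s = t)
    (hmom : ∀ m : ℕ, ∫ t in β, ((y t : ℝ) : ℂ) ^ m * u t ∂mu = 0) :
    ∀ᵐ t ∂mu, t ∈ β → u t = 0 := by
  have hcomp : CompactSpace β := isCompact_iff_compactSpace.1 hβ.isCompact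
  set ν : Measure β := mu.comap Subtype.val with hν
  have hfin : IsFiniteMeasure ν := by
    constructor
    rw [hν, comap_subtype_coe_apply hβ.measurableSet]
    exact measure_lt_top _ _
  have hint : Integrable (fun x : β => u x) ν := by
    rw [hν]
    exact (integrableOn_iff_comap_subtypeVal hβ.measurableSet).1 hu.integrableOn
  have hmom' : ∀ m : ℕ, ∫ x : β, (((y x : ℝ) : ℂ) ^ m * u x) ∂ν = 0 := by
    intro m
    rw [hν, integral_subtype_comap hβ.measurableSet (fun t => ((y t : ℝ) : ℂ) ^ m * u t)]
    exact hmom m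
  let yβ : C(β, ℝ) := ⟨fun x => y x, y.continuous.comp continuous_subtype_val⟩
  have hsep : (Algebra.adjoin ℝ {yβ}).SeparatesPoints := by
    intro s t hst
    refine ⟨yβ, ⟨yβ, Algebra.subset_adjoin rfl, rfl⟩, ?_⟩
    intro h
    exact hst (Subtype.ext (hy s s.2 t t.2 h))
  have hsw := ContinuousMap.subalgebra_topologicalClosure_eq_top_of_separatesPoints _ hsep
  have hall : ∀ G : C(β, ℝ), ∫ x : β, ((G x : ℝ) : ℂ) * u x ∂ν = 0 := by
    have hclosed : IsClosed {G : C(β, ℝ) | ∫ x : β, ((G x : ℝ) : ℂ) * u x ∂ν = 0} :=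
      isClosed_singleton.preimage (continuous_pair_real ν hint)
    have hsub : ((Algebra.adjoin ℝ {yβ} : Subalgebra ℝ C(β, ℝ)) : Set C(β, ℝ)) ⊆
        {G : C(β, ℝ) | ∫ x : β, ((G x : ℝ) : ℂ) * u x ∂ν = 0} := by
      intro G hG
      rw [SetLike.mem_coe, Algebra.adjoin_singleton_eq_range_aeval] at hG
      obtain ⟨P, rfl⟩ := hG
      change ∫ x : β, (((Polynomial.aeval yβ P : C(β, ℝ)) x : ℝ) : ℂ) * u x ∂ν = 0
      induction P using Polynomial.induction_on' with
      | add p q hp hq =>
        have h1 : (fun x : β => (((Polynomial.aeval yβ (p + q) : C(β, ℝ)) x : ℝ) : ℂ) * u x) =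
            fun x : β => (((Polynomial.aeval yβ p : C(β, ℝ)) x : ℝ) : ℂ) * u x +
              (((Polynomial.aeval yβ q : C(β, ℝ)) x : ℝ) : ℂ) * u x := by
          funext x
          rw [map_add, ContinuousMap.add_apply, Complex.ofReal_add]
          ring
        rw [h1, integral_add (integrable_cont_mul_real ν hint _)
          (integrable_cont_mul_real ν hint _), hp, hq, add_zero]
      | monomial n a =>
        have h1 : (fun x : β => (((Polynomial.aeval yβ (Polynomial.monomial n a) : C(β, ℝ)) x : ℝ) :
            ℂ) * u x) = fun x : β => (a : ℂ) * ((((y x : ℝ) : ℂ) ^ n) * u x) := by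
          funext x
          have h2 : (Polynomial.aeval yβ (Polynomial.monomial n a) : C(β, ℝ)) x =
              a * (y x) ^ n := by
            rw [Polynomial.aeval_monomial]; rfl
          rw [h2]
          push_cast
          rw [mul_assoc]
        rw [h1, integral_const_mul, hmom' n, mul_zero]
    intro G
    have hG : G ∈ (Algebra.adjoin ℝ {yβ}).topologicalClosure := by
      rw [hsw]; trivial
    have hG' : G ∈ closure ((Algebra.adjoin ℝ {yβ} : Subalgebra ℝ C(β, ℝ)) : Set C(β, ℝ)) := hG
    exact closure_minimal hsub hclosed hG'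
  have hae : (fun x : β => u x) =ᵐ[ν] 0 :=
    ae_eq_zero_of_forall_continuous ν hint (fun G _ => hall G)
  rw [hν] at hae
  have h2 : ∀ᵐ x : β ∂(mu.comap (Subtype.val : β → Circ)), u x = 0 := hae
  rw [← ae_restrict_iff_subtype hβ.measurableSet (p := fun t => u t = 0)] at h2
  exact (ae_restrict_iff' hβ.measurableSet).1 h2

end Pool.Agent.P8b2208
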