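import Pool.Agent.P8b2208.Sym2

open MeasureTheory AddCircle Filter Topology
open scoped ENNReal InnerProductSpace ComplexConjugate

set_option linter.unusedSectionVars false
set_option linter.unusedSimpArgs false

namespace Pool.Agent.P8b2208

open ContinuousLinearMap

/-- Multiplication by the indicator function of a measurable set. -/
noncomputable def mulI (s : Set Circ) (hs : MeasurableSet s) : L2 ℂ →L[ℂ] L2 ℂ :=
  (ContinuousLinearMap.lsmul ℂ ℂ).holderL mu ∞ 2 2
    (indicatorConstLp ∞ hs (measure_ne_top mu s) (1 : ℂ))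

lemma coeFn_mulI (s : Set Circ) (hs : MeasurableSet s) (f : L2 ℂ) :
    mulI s hs f =ᵐ[mu] fun t => s.indicator (fun t => f t) t := by
  have h1 : mulI s hs f =ᵐ[mu] fun t => (ContinuousLinearMap.lsmul ℂ ℂ)
      ((indicatorConstLp ∞ hs (measure_ne_top mu s) (1 : ℂ)) t) (f t) :=
    ContinuousLinearMap.coeFn_holder (r := 2) (ContinuousLinearMap.lsmul ℂ ℂ)
      (indicatorConstLp ∞ hs (measure_ne_top mu s) (1 : ℂ)) f
  have h2 := indicatorConstLp_coeFn (p := ∞) (hs := hs) (hμs := measure_ne_top mu s) (c := (1 : ℂ))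
  filter_upwards [h1, h2] with t h1 h2
  rw [h1, h2]
  by_cases ht : t ∈ s
  · simp [ht]
  · simp [ht]

lemma norm_sq_mulI (s : Set Circ) (hs : MeasurableSet s) (f : L2 ℂ) :
    ‖mulI s hs f‖ ^ 2 = ∫ t in s, ‖f t‖ ^ 2 ∂mu := by
  rw [norm_sq_L2, ← integral_indicator hs]
  apply integral_congr_ae
  filter_upwards [coeFn_mulI s hs f] with t h1
  rw [h1]
  by_cases ht : t ∈ s
  · simp [ht]
  · simp [ht]

variable {κ c ρ : C(Circ, ℂ)}

/-- The set where `ρ` vanishes. -/
def zset (ρ : C(Circ, ℂ)) : Set Circ := {t | ρ t = 0}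

lemma isClosed_zset (ρ : C(Circ, ℂ)) : IsClosed (zset ρ) :=
  isClosed_singleton.preimage (map_continuous ρ)

lemma measurableSet_zset (ρ : C(Circ, ℂ)) : MeasurableSet (zset ρ) :=
  (isClosed_zset ρ).measurableSet

namespace Sym

variable (hs : Sym κ c ρ)
include hs

lemma norm_T_pow_sq (n : ℕ) (x : HH) :
    ‖(cT (toep κ hs.anκ) ^ n) x‖ ^ 2 = ∫ t, (‖(1 - κ) t‖ ^ n) ^ 2 * ‖(x : L2 ℂ) t‖ ^ 2 ∂mu := by
  have h1 : ‖(cT (toep κ hs.anκ) ^ n) x‖ = ‖mulC ((1 - κ) ^ n) (x : L2 ℂ)‖ := by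
    rw [← hs.coe_T_pow]; rfl
  rw [h1, norm_sq_L2]
  apply integral_congr_ae
  filter_upwards [coeFn_mulC ((1 - κ) ^ n) (x : L2 ℂ)] with t h2
  rw [h2, norm_smul, mul_pow, ContinuousMap.pow_apply, norm_pow]

lemma integrable_T_pow (n : ℕ) (x : HH) :
    Integrable (fun t => (‖(1 - κ) t‖ ^ n) ^ 2 * ‖(x : L2 ℂ) t‖ ^ 2) mu := by
  have h1 := integrable_norm_sq (mulC ((1 - κ) ^ n) (x : L2 ℂ))
  refine h1.congr ?_
  filter_upwards [coeFn_mulC ((1 - κ) ^ n) (x : L2 ℂ)] with t h2
  rw [h2, norm_smul, mul_pow, ContinuousMap.pow_apply, norm_pow]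

lemma mulI_le (n : ℕ) (x : HH) :
    ‖mulI (zset ρ) (measurableSet_zset ρ) (x : L2 ℂ)‖ ^ 2 ≤
      ‖(cT (toep κ hs.anκ) ^ n) x‖ ^ 2 := by
  rw [norm_sq_mulI, hs.norm_T_pow_sq, ← integral_indicator (measurableSet_zset ρ)]
  apply integral_mono_ae ((integrable_norm_sq (x : L2 ℂ)).indicator (measurableSet_zset ρ))
    (hs.integrable_T_pow n x)
  filter_upwards with t
  by_cases ht : t ∈ zset ρ
  · rw [Set.indicator_of_mem ht, hs.norm_φ_eq ht]
    simp
  · rw [Set.indicator_of_notMem ht]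
    positivity

/-- `‖T^n x‖² → ∫_β |x|²`. -/
lemma tendsto_norm_T_pow (x : HH) :
    Tendsto (fun n : ℕ => ‖(cT (toep κ hs.anκ) ^ n) x‖ ^ 2) atTop
      (𝓝 (‖mulI (zset ρ) (measurableSet_zset ρ) (x : L2 ℂ)‖ ^ 2)) := by
  simp only [hs.norm_T_pow_sq]
  rw [norm_sq_mulI, ← integral_indicator (measurableSet_zset ρ)]
  apply tendsto_integral_of_dominated_convergence (fun t => ‖(x : L2 ℂ) t‖ ^ 2)
  · intro n
    exact (hs.integrable_T_pow n x).1
  · exact integrable_norm_sq _
  · intro n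
    filter_upwards with t
    rw [Real.norm_of_nonneg (by positivity)]
    have h1 : (‖(1 - κ) t‖ ^ n) ^ 2 ≤ 1 :=
      pow_le_one₀ (by positivity) (pow_le_one₀ (norm_nonneg _) (hs.norm_φ_le t))
    nlinarith [sq_nonneg ‖(x : L2 ℂ) t‖]
  · filter_upwards with t
    by_cases ht : t ∈ zset ρ
    · rw [Set.indicator_of_mem ht, hs.norm_φ_eq ht]
      simp
    · rw [Set.indicator_of_notMem ht]
      have h1 := hs.norm_φ_lt (show ρ t ≠ 0 from ht)
      have h2 := (tendsto_pow_atTop_nhds_zero_of_lt_one (norm_nonneg _) h1).pow 2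
      have h3 := h2.mul_const (‖(x : L2 ℂ) t‖ ^ 2)
      simpa using h3

/-- `T` is of class `C_{1·}`. -/
lemma eq_zero_of_tendsto (x : HH)
    (hx : Tendsto (fun n : ℕ => (cT (toep κ hs.anκ) ^ n) x) atTop (𝓝 0)) : x = 0 := by
  have h1 : Tendsto (fun n : ℕ => ‖(cT (toep κ hs.anκ) ^ n) x‖ ^ 2) atTop (𝓝 0) := by
    have := hx.norm.pow 2
    simpa using this
  have h2 := tendsto_nhds_unique (hs.tendsto_norm_T_pow x) h1
  have h3 : mulI (zset ρ) (measurableSet_zset ρ) (x : L2 ℂ) = 0 := by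
    rw [← norm_eq_zero]
    exact pow_eq_zero_iff (two_ne_zero) |>.1 h2
  apply Subtype.ext
  change (x : L2 ℂ) = 0
  apply eq_zero_of_vanishing (N := zset ρ) hs.posβ x.2
  change ∀ᵐ t ∂mu, t ∈ zset ρ → (x : L2 ℂ) t = 0
  have h4 := coeFn_mulI (zset ρ) (measurableSet_zset ρ) (x : L2 ℂ)
  rw [h3] at h4
  filter_upwards [h4, Lp.coeFn_zero ℂ 2 mu] with t h5 h6 ht
  rw [h6, Set.indicator_of_mem ht] at h5
  exact h5.symm

lemma φ_ne_one (t : Circ) : (1 - κ) t ≠ 1 := by
  intro h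
  simp only [ContinuousMap.sub_apply, ContinuousMap.one_apply] at h
  have h1 : κ t = 0 := by
    have : κ t = 1 - (1 - κ t) := by ring
    rw [this, h, sub_self]
  rw [hs.κ_eq] at h1
  exact inv_ne_zero (hs.c_ne_zero t) h1

lemma norm_half_lt : ‖((1 / 2 : ℂ) • (1 + (1 - κ)) : C(Circ, ℂ))‖ < 1 := by
  rw [ContinuousMap.norm_lt_iff _ zero_lt_one]
  intro t
  rw [ContinuousMap.smul_apply, ContinuousMap.add_apply, ContinuousMap.one_apply, norm_smul]
  have h1 := hs.norm_φ_le t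
  have h2 := hs.φ_ne_one t
  set z := (1 - κ) t with hz
  have h3 : ‖1 + z‖ < 2 := by
    have h4 : ‖1 + z‖ ≤ ‖(1 : ℂ)‖ + ‖z‖ := norm_add_le _ _
    rw [norm_one] at h4
    rcases lt_or_eq_of_le h4 with h5 | h5
    · linarith
    · rcases lt_or_eq_of_le h1 with h6 | h6
      · linarith
      · exfalso
        -- equality in the triangle inequality
        have h7 : ‖1 + z‖ ^ 2 = 4 := by rw [h5, h6]; norm_num
        have h8 : ‖z‖ ^ 2 = 1 := by rw [h6]; norm_num
        rw [← Complex.normSq_eq_norm_sq, Complex.normSq_apply] at h7 h8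
        simp only [Complex.add_re, Complex.one_re, Complex.add_im, Complex.one_im] at h7
        have h9 : z.re = 1 := by nlinarith
        have h10 : z.im = 0 := by nlinarith
        exact h2 (Complex.ext h9 h10)
  have h4 : ‖(1 / 2 : ℂ)‖ = 1 / 2 := by simp
  rw [h4]
  linarith

lemma c_eq_tsum : HasSum (fun k : ℕ => ((1 / 2 : ℂ) • (1 + (1 - κ)) : C(Circ, ℂ)) ^ k)
    ((2 : ℂ) • c) := by
  have h1 := hs.norm_half_lt
  have h2 := (summable_geometric_of_norm_lt_one h1).hasSum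
  have h3 := mul_neg_geom_series _ h1
  have h4 : (1 - (1 / 2 : ℂ) • (1 + (1 - κ)) : C(Circ, ℂ)) = (1 / 2 : ℂ) • κ := by
    ext t
    simp only [ContinuousMap.sub_apply, ContinuousMap.one_apply, ContinuousMap.smul_apply,
      ContinuousMap.add_apply, smul_eq_mul]
    ring
  rw [h4] at h3
  have h5 : (∑' i : ℕ, ((1 / 2 : ℂ) • (1 + (1 - κ)) : C(Circ, ℂ)) ^ i) = (2 : ℂ) • c := by
    calc (∑' i : ℕ, ((1 / 2 : ℂ) • (1 + (1 - κ)) : C(Circ, ℂ)) ^ i)
        = ((2 : ℂ) • c) * (((1 / 2 : ℂ) • κ) *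
          ∑' i : ℕ, ((1 / 2 : ℂ) • (1 + (1 - κ)) : C(Circ, ℂ)) ^ i) := by
          rw [← mul_assoc]
          have : ((2 : ℂ) • c) * ((1 / 2 : ℂ) • κ) = 1 := by
            rw [smul_mul_smul_comm, mul_comm c κ, hs.mul]
            norm_num
          rw [this, one_mul]
      _ = (2 : ℂ) • c := by rw [h3, mul_one]
  rw [← h5]
  exact h2

/-- If all the moments `∫ u φ^n` vanish, so do all `∫ u P(c)`. -/
lemma moments {u : Circ → ℂ} (hu : Integrable u mu)
    (h : ∀ n : ℕ, ∫ t, ((1 - κ) ^ n : C(Circ, ℂ)) t * u t ∂mu = 0) (a : ℂ) (m : ℕ) :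
    ∫ t, ((a • (c - (1 / 2 : ℂ) • 1)) ^ m : C(Circ, ℂ)) t * u t ∂mu = 0 := by
  -- the closed subspace
  let Z : Submodule ℂ C(Circ, ℂ) :=
    { carrier := {G | ∀ n : ℕ, ∫ t, (G * (1 - κ) ^ n : C(Circ, ℂ)) t * u t ∂mu = 0}
      add_mem' := by
        intro G G' hG hG' n
        have h1 : (fun t => ((G + G') * (1 - κ) ^ n : C(Circ, ℂ)) t * u t) =
            fun t => (G * (1 - κ) ^ n : C(Circ, ℂ)) t * u t +
              (G' * (1 - κ) ^ n : C(Circ, ℂ)) t * u t := by
          funext t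
          rw [add_mul, ContinuousMap.add_apply]
          ring
        rw [h1, integral_add (integrable_cont_mul mu hu _) (integrable_cont_mul mu hu _),
          hG n, hG' n, add_zero]
      zero_mem' := by
        intro n
        simp
      smul_mem' := by
        intro b G hG n
        have h1 : (fun t => ((b • G) * (1 - κ) ^ n : C(Circ, ℂ)) t * u t) =
            fun t => b * ((G * (1 - κ) ^ n : C(Circ, ℂ)) t * u t) := by
          funext t
          rw [smul_mul_assoc, ContinuousMap.smul_apply, smul_eq_mul]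
          ring
        rw [h1, integral_const_mul, hG n, mul_zero] }
  have hZc : IsClosed (Z : Set C(Circ, ℂ)) := by
    have h1 : (Z : Set C(Circ, ℂ)) = ⋂ n : ℕ,
        {G | ∫ t, (G * (1 - κ) ^ n : C(Circ, ℂ)) t * u t ∂mu = 0} := by
      ext G
      simp only [Set.mem_iInter]
      rfl
    rw [h1]
    apply isClosed_iInter
    intro n
    have h2 : Continuous (fun G : C(Circ, ℂ) => G * (1 - κ) ^ n) :=
      continuous_id.mul continuous_const
    exact isClosed_singleton.preimage ((continuous_pair mu hu).comp h2)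
  have hone : (1 : C(Circ, ℂ)) ∈ Z := by
    intro n
    rw [one_mul]
    exact h n
  have hφ : ∀ G ∈ Z, G * (1 - κ) ∈ Z := by
    intro G hG n
    rw [mul_assoc, ← pow_succ']
    exact hG (n + 1)
  have hhalf : ∀ G ∈ Z, G * ((1 / 2 : ℂ) • (1 + (1 - κ))) ∈ Z := by
    intro G hG
    rw [mul_smul_comm, mul_add, mul_one]
    exact Z.smul_mem _ (Z.add_mem hG (hφ G hG))
  have hpow : ∀ k : ℕ, ∀ G ∈ Z, G * ((1 / 2 : ℂ) • (1 + (1 - κ))) ^ k ∈ Z := by
    intro k
    induction k with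
    | zero => intro G hG; simpa using hG
    | succ k ih =>
      intro G hG
      rw [pow_succ, ← mul_assoc]
      exact hhalf _ (ih G hG)
  have hc : ∀ G ∈ Z, G * ((2 : ℂ) • c) ∈ Z := by
    intro G hG
    have h1 := (hs.c_eq_tsum).mul_left G
    exact hZc.mem_of_tendsto h1 (Eventually.of_forall fun s =>
      Z.sum_mem fun k _ => hpow k G hG)
  have hq : ∀ G ∈ Z, G * (a • (c - (1 / 2 : ℂ) • 1)) ∈ Z := by
    intro G hG
    have h1 : G * (a • (c - (1 / 2 : ℂ) • 1)) = (a / 2) • (G * ((2 : ℂ) • c)) - (a / 2) • G := by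
      ext t
      simp only [ContinuousMap.mul_apply, ContinuousMap.smul_apply, ContinuousMap.sub_apply,
        ContinuousMap.one_apply, smul_eq_mul]
      ring
    rw [h1]
    exact Z.sub_mem (Z.smul_mem _ (hc G hG)) (Z.smul_mem _ hG)
  have hfin : ∀ m : ℕ, (a • (c - (1 / 2 : ℂ) • 1)) ^ m ∈ Z := by
    intro m
    induction m with
    | zero => rw [pow_zero]; exact hone
    | succ m ih => rw [pow_succ]; exact hq _ ih
  have h1 := hfin m 0
  rwa [pow_zero, mul_one] at h1

/-- If `∫_β u φ^n = 0` for all `n ≥ 0` then `u = 0` a.e. on `β`. -/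
lemma ae_zero {u : Circ → ℂ} (hu : Integrable u mu)
    (h : ∀ n : ℕ, ∫ t in zset ρ, ((1 - κ) ^ n : C(Circ, ℂ)) t * u t ∂mu = 0) :
    ∀ᵐ t ∂mu, t ∈ zset ρ → u t = 0 := by
  have hm := measurableSet_zset ρ
  have hre : ∀ t ∈ zset ρ, (c t).re = 1 / 2 := by
    intro t ht
    have h1 := hs.ρ_sq_re t
    rw [show ρ t = 0 from ht] at h1
    simp at h1
    linarith
  apply ae_zero_of_moments (isClosed_zset ρ) hu
    ⟨fun t => (c t).im, Complex.continuous_im.comp (map_continuous c)⟩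
  · intro s hs' t ht hst
    apply hs.inj s t hs' ht
    exact Complex.ext (by rw [hre s hs', hre t ht]) hst
  · intro m
    have hu' : Integrable ((zset ρ).indicator u) mu := hu.indicator hm
    have h' : ∀ n : ℕ, ∫ t, ((1 - κ) ^ n : C(Circ, ℂ)) t * (zset ρ).indicator u t ∂mu = 0 := by
      intro n
      rw [← h n, ← integral_indicator hm]
      apply integral_congr_ae
      filter_upwards with t
      by_cases ht : t ∈ zset ρ
      · simp [ht]
      · simp [ht]
    have h1 := hs.moments hu' h' (-Complex.I) m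
    rw [← integral_indicator hm, ← h1]
    apply integral_congr_ae
    filter_upwards with t
    by_cases ht : t ∈ zset ρ
    · rw [Set.indicator_of_mem ht, Set.indicator_of_mem ht]
      congr 1
      rw [ContinuousMap.pow_apply]
      congr 1
      simp only [ContinuousMap.smul_apply, ContinuousMap.sub_apply, ContinuousMap.one_apply,
        smul_eq_mul, ContinuousMap.coe_mk]
      apply Complex.ext
      · simp
      · simp only [Complex.ofReal_im, Complex.mul_im, Complex.neg_re, Complex.I_re, Complex.neg_im,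
          Complex.I_im, Complex.sub_re, Complex.sub_im, Complex.mul_re]
        rw [hre t ht]
        norm_num
    · rw [Set.indicator_of_notMem ht, Set.indicator_of_notMem ht, mul_zero]

end Sym

end Pool.Agent.P8b2208
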