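import Pool.Agent.P8b2208.Sym3

open MeasureTheory AddCircle Filter Topology
open scoped ENNReal InnerProductSpace ComplexConjugate

set_option linter.unusedSectionVars false
set_option linter.unusedSimpArgs false

namespace Pool.Agent.P8b2208

open ContinuousLinearMap

variable {κ c ρ : C(Circ, ℂ)}

lemma exists_tendsto_of_lipschitz {V : Type*} [NormedAddCommGroup V] [CompleteSpace V]
    {f : ℝ → V} {m B : ℝ} (hm : m < 1)
    (h : ∀ r r' : ℝ, r ∈ Set.Ioo m 1 → r' ∈ Set.Ioo m 1 → ‖f r - f r'‖ ≤ B * |r - r'|) :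
    ∃ Y, Tendsto f (𝓝[<] 1) (𝓝 Y) := by
  apply cauchy_map_iff_exists_tendsto.1
  rw [Metric.cauchy_iff]
  refine ⟨inferInstance, fun ε hε => ?_⟩
  set m' : ℝ := max m (1 - ε / (|B| + 1)) with hm'
  have hm1 : m' < 1 := by
    rw [hm']
    apply max_lt hm
    have : 0 < ε / (|B| + 1) := by positivity
    linarith
  refine ⟨f '' Set.Ioo m' 1, image_mem_map (Ioo_mem_nhdsLT hm1), ?_⟩
  rintro _ ⟨r, hr, rfl⟩ _ ⟨r', hr', rfl⟩
  have e2 : m ≤ m' := le_max_left _ _
  have e3 : 1 - ε / (|B| + 1) ≤ m' := le_max_right _ _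
  rw [dist_eq_norm]
  refine (h r r' ⟨lt_of_le_of_lt e2 hr.1, hr.2⟩ ⟨lt_of_le_of_lt e2 hr'.1, hr'.2⟩).trans_lt ?_
  have h7 : |r - r'| < ε / (|B| + 1) := by
    rw [abs_lt]
    constructor <;> linarith [hr.1, hr.2, hr'.1, hr'.2]
  calc B * |r - r'| ≤ (|B| + 1) * |r - r'| := by
        have := abs_nonneg (r - r')
        have := le_abs_self B
        nlinarith
    _ < (|B| + 1) * (ε / (|B| + 1)) := by
        have : 0 < |B| + 1 := by positivity
        gcongr
    _ = ε := by field_simp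

namespace Sym

variable (hs : Sym κ c ρ)
include hs

/-- Orthogonality to all `χ_β φ^n f` forces vanishing on `β`. -/
lemma ae_zero_of_orth {f : HH} (hf : f ≠ 0) {w : L2 ℂ}
    (h : ∀ n : ℕ, ⟪mulI (zset ρ) (measurableSet_zset ρ)
      (((cT (toep κ hs.anκ) ^ n) f : HH) : L2 ℂ), w⟫_ℂ = 0) :
    ∀ᵐ t ∂mu, t ∈ zset ρ → w t = 0 := by
  have hm := measurableSet_zset ρ
  have hint : Integrable (fun t => (f : L2 ℂ) t * conj (w t)) mu := by
    have h1 : MemLp (fun t => conj (w t)) 2 mu := (Lp.memLp w).star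
    exact (Lp.memLp (f : L2 ℂ)).integrable_mul h1
  have hz := hs.ae_zero hint ?_
  · have hf' : (f : L2 ℂ) ≠ 0 := by
      intro h0
      exact hf (Subtype.ext h0)
    filter_upwards [hz, ae_ne_zero_of_mem_H2 f.2 hf'] with t h1 h2 ht
    have h3 := h1 ht
    rcases mul_eq_zero.1 h3 with h4 | h4
    · exact absurd h4 h2
    · simpa using h4
  · intro n
    have h1 := h n
    rw [L2.inner_def] at h1
    have h2 : ∫ t in zset ρ, ((1 - κ) ^ n : C(Circ, ℂ)) t * ((f : L2 ℂ) t * conj (w t)) ∂mu =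
        conj (∫ t, ⟪mulI (zset ρ) (measurableSet_zset ρ)
          (((cT (toep κ hs.anκ) ^ n) f : HH) : L2 ℂ) t, w t⟫_ℂ ∂mu) := by
      rw [← integral_conj, ← integral_indicator hm]
      apply integral_congr_ae
      filter_upwards [coeFn_mulI (zset ρ) hm (((cT (toep κ hs.anκ) ^ n) f : HH) : L2 ℂ),
        coeFn_mulC ((1 - κ) ^ n) (f : L2 ℂ)] with t h3 h4
      rw [h3]
      by_cases ht : t ∈ zset ρ
      · rw [Set.indicator_of_mem ht, Set.indicator_of_mem ht, hs.coe_T_pow, h4]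
        simp only [RCLike.inner_apply, map_mul, smul_eq_mul, RCLike.conj_conj]
        ring
      · rw [Set.indicator_of_notMem ht, Set.indicator_of_notMem ht]
        simp
    rw [h2, h1, map_zero]

/-- The quasianalyticity property. -/
theorem quasi (ℓ : HH →L[ℂ] ℂ) (f : HH) (hf : f ≠ 0)
    (hC : ∃ C : ℝ, ∀ (g : HH) (n : ℕ), ‖ℓ g‖ ≤ C * ‖(cT (toep κ hs.anκ) ^ n) g‖)
    (h0 : ∀ n : ℕ, ℓ ((cT (toep κ hs.anκ) ^ n) f) = 0) : ℓ = 0 := by
  obtain ⟨C, hC⟩ := hC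
  set T := cT (toep κ hs.anκ) with hT
  set A : HH →L[ℂ] L2 ℂ := (mulI (zset ρ) (measurableSet_zset ρ)).comp (H2 ℂ).subtypeL with hA
  have hAapp : ∀ g : HH, A g = mulI (zset ρ) (measurableSet_zset ρ) (g : L2 ℂ) := fun _ => rfl
  -- bound by the seminorm
  have hbound : ∀ g : HH, ‖ℓ g‖ ≤ |C| * ‖A g‖ := by
    intro g
    have h1 : Tendsto (fun n : ℕ => |C| ^ 2 * ‖(T ^ n) g‖ ^ 2) atTop
        (𝓝 (|C| ^ 2 * ‖A g‖ ^ 2)) := (hs.tendsto_norm_T_pow g).const_mul _
    have h2 : ‖ℓ g‖ ^ 2 ≤ |C| ^ 2 * ‖A g‖ ^ 2 := by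
      apply ge_of_tendsto' h1
      intro n
      rw [← mul_pow]
      apply pow_le_pow_left₀ (norm_nonneg _)
      refine (hC g n).trans ?_
      gcongr
      exact le_abs_self C
    rw [← mul_pow] at h2
    exact (sq_le_sq₀ (norm_nonneg _) (by positivity)).1 h2
  set S' : Submodule ℂ HH := Submodule.span ℂ (Set.range fun n : ℕ => (T ^ n) f) with hS'
  have hℓS : ∀ v ∈ S', ℓ v = 0 := by
    intro v hv
    refine Submodule.span_induction ?_ ?_ ?_ ?_ hv
    · rintro _ ⟨n, rfl⟩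
      exact h0 n
    · exact map_zero ℓ
    · intro x y _ _ hx hy
      rw [map_add, hx, hy, add_zero]
    · intro a x _ hx
      rw [map_smul, hx, smul_zero]
  ext g
  rw [zero_apply]
  -- `A g` is in the closure of `A S'`
  have hcl : A g ∈ (S'.map (A : HH →L[ℂ] L2 ℂ).toLinearMap).topologicalClosure := by
    rw [← Submodule.orthogonal_orthogonal_eq_closure, Submodule.mem_orthogonal]
    intro w hw
    rw [Submodule.mem_orthogonal] at hw
    have h1 : ∀ᵐ t ∂mu, t ∈ zset ρ → w t = 0 := by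
      apply hs.ae_zero_of_orth hf
      intro n
      exact hw _ ⟨(T ^ n) f, Submodule.subset_span ⟨n, rfl⟩, rfl⟩
    rw [L2.inner_def]
    have h2 : ∫ t, ⟪w t, A g t⟫_ℂ ∂mu = ∫ t : Circ, (0 : ℂ) ∂mu := by
      apply integral_congr_ae
      filter_upwards [h1, coeFn_mulI (zset ρ) (measurableSet_zset ρ) (g : L2 ℂ)] with t h3 h4
      rw [hAapp, h4]
      by_cases ht : t ∈ zset ρ
      · rw [h3 ht, inner_zero_left]
      · rw [Set.indicator_of_notMem ht, inner_zero_right]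
    rw [h2, integral_zero]
  have hle : ∀ ε : ℝ, 0 < ε → ‖ℓ g‖ ≤ |C| * ε := by
    intro ε hε
    rw [← SetLike.mem_coe, Submodule.topologicalClosure_coe, Metric.mem_closure_iff] at hcl
    obtain ⟨_, ⟨v, hv, rfl⟩, hdist⟩ := hcl ε hε
    have h1 : ℓ g = ℓ (g - v) := by rw [map_sub, hℓS v hv, sub_zero]
    rw [h1]
    refine (hbound _).trans ?_
    gcongr
    rw [map_sub, ← dist_eq_norm]
    exact hdist.le
  have h2 : ‖ℓ g‖ ≤ 0 := by
    apply le_of_forall_pos_le_add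
    intro ε hε
    have h3 := hle (ε / (|C| + 1)) (by positivity)
    rw [zero_add]
    refine h3.trans ?_
    rw [mul_div_assoc', div_le_iff₀ (by positivity)]
    nlinarith [abs_nonneg C]
  exact norm_le_zero_iff.1 h2

/-- the symbol `κ̄ ρ / (1 - l φ̄)` -/
noncomputable def bfun (l : ℂ) (t : Circ) : ℂ :=
  conj (κ t) * ρ t / (1 - l * conj ((1 - κ) t))

lemma den_ne {l : ℂ} (hl : ‖l‖ < 1) (t : Circ) : 1 - l * conj ((1 - κ) t) ≠ 0 := by
  intro h
  have h1 : l * conj ((1 - κ) t) = 1 := (sub_eq_zero.1 h).symm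
  have h2 := congrArg norm h1
  rw [norm_mul, RCLike.norm_conj, norm_one] at h2
  have := hs.norm_φ_le t
  nlinarith [norm_nonneg l, norm_nonneg ((1 - κ) t)]

lemma continuous_bfun {l : ℂ} (hl : ‖l‖ < 1) : Continuous (bfun (κ := κ) (ρ := ρ) l) := by
  unfold bfun
  apply Continuous.div
  · exact (Complex.continuous_conj.comp (map_continuous κ)).mul (map_continuous ρ)
  · exact continuous_const.sub (continuous_const.mul
      (Complex.continuous_conj.comp (map_continuous (1 - κ))))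
  · exact hs.den_ne hl

lemma cQ_eq_prj {l : ℂ} (hl : ‖l‖ < 1) (u : L2 ℂ) :
    cQ (toep κ hs.anκ) (gam ρ) l u =
      prj (mulC ⟨bfun (κ := κ) (ρ := ρ) l, hs.continuous_bfun hl⟩ u) := by
  have h1 : cEs (toep κ hs.anκ) (gam ρ) u = prj (mulC (star κ * ρ) u) := by
    rw [cEs_apply, adjoint_gam ρ hs.ρreal, adjoint_toep_prj, mulC_mul]
  set b : C(Circ, ℂ) := ⟨bfun (κ := κ) (ρ := ρ) l, hs.continuous_bfun hl⟩ with hb
  have h2 : star κ * ρ = b - l • (star (1 - κ) * b) := by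
    ext t
    have hne := hs.den_ne hl t
    simp only [ContinuousMap.mul_apply, ContinuousMap.sub_apply, ContinuousMap.smul_apply,
      ContinuousMap.star_apply, hb, ContinuousMap.coe_mk, bfun, smul_eq_mul]
    simp only [ContinuousMap.sub_apply] at hne
    change conj (κ t) * ρ t = _ - l * (conj _ * _)
    field_simp
  change cR (toep κ hs.anκ) l (cEs (toep κ hs.anκ) (gam ρ) u) = _
  rw [h1, h2, mulC_sub, map_sub, mulC_smul, map_smul, mulC_mul, ← hs.Ts_prj]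
  exact hs.coll.cR_eq' hl _

/-- radial convergence -/
theorem radial : RadialConv (toep κ hs.anκ) (gam ρ) := by
  filter_upwards [hs.exc] with t ht
  obtain ⟨δ, hδ, hδ'⟩ := ht
  set ζ : ℂ := (toCircle t : ℂ) with hζ
  have hζ1 : ‖ζ‖ = 1 := Circle.norm_coe _
  -- lower bound near the boundary point
  have hlow : ∀ r : ℝ, 1 - δ / 2 < r → r < 1 → ∀ s, ρ s ≠ 0 →
      δ / 2 ≤ ‖1 - ((r : ℂ) * ζ) * conj ((1 - κ) s)‖ := by
    intro r hr1 hr2 s hs'
    have h1 := hδ' s hs'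
    have h2 : 1 - ζ * conj ((1 - κ) s) = (1 - ((r : ℂ) * ζ) * conj ((1 - κ) s)) -
        ((1 : ℂ) - r) * (ζ * conj ((1 - κ) s)) := by ring
    have h3 : ‖((1 : ℂ) - r) * (ζ * conj ((1 - κ) s))‖ ≤ δ / 2 := by
      rw [norm_mul, norm_mul, RCLike.norm_conj, hζ1, one_mul]
      have h4 : ‖((1 : ℂ) - r)‖ = 1 - r := by
        rw [← Complex.ofReal_one, ← Complex.ofReal_sub, Complex.norm_real, Real.norm_of_nonneg]
        linarith
      rw [h4]
      have := hs.norm_φ_le s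
      nlinarith [norm_nonneg ((1 - κ) s)]
    rw [h2] at h1
    have h5 := norm_sub_le (1 - ((r : ℂ) * ζ) * conj ((1 - κ) s))
      (((1 : ℂ) - r) * (ζ * conj ((1 - κ) s)))
    linarith
  set B : ℝ := ‖κ‖ * ‖ρ‖ * (4 / δ ^ 2) with hB
  have hB0 : 0 ≤ B := by positivity
  have hdist : ∀ r r' : ℝ, 0 ≤ r → 0 ≤ r' → 1 - δ / 2 < r → r < 1 → 1 - δ / 2 < r' → r' < 1 →
      ‖cQ (toep κ hs.anκ) (gam ρ) ((r : ℂ) * ζ) - cQ (toep κ hs.anκ) (gam ρ) ((r' : ℂ) * ζ)‖
        ≤ B * |r - r'| := by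
    intro r r' hr0 hr0' hr1 hr2 hr1' hr2'
    apply ContinuousLinearMap.opNorm_le_bound _ (by positivity)
    intro u
    have hl : ‖(r : ℂ) * ζ‖ < 1 := norm_real_mul_circle hr0 hr2 t
    have hl' : ‖(r' : ℂ) * ζ‖ < 1 := norm_real_mul_circle hr0' hr2' t
    rw [sub_apply, hs.cQ_eq_prj hl, hs.cQ_eq_prj hl', ← map_sub, ← mulC_sub]
    refine (norm_prj_le _).trans ((norm_mulC_le _ _).trans ?_)
    gcongr
    rw [ContinuousMap.norm_le _ (by positivity)]
    intro s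
    simp only [ContinuousMap.sub_apply, ContinuousMap.coe_mk, bfun]
    by_cases hρs : ρ s = 0
    · rw [hρs]
      simp only [mul_zero, zero_div, sub_zero, norm_zero]
      positivity
    · have hd := hlow r hr1 hr2 s hρs
      have hd' := hlow r' hr1' hr2' s hρs
      have hne := hs.den_ne hl s
      have hne' := hs.den_ne hl' s
      simp only [ContinuousMap.sub_apply] at hd hd' hne hne' ⊢
      set d := 1 - (r : ℂ) * ζ * conj ((1 : C(Circ, ℂ)) s - κ s) with hd_def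
      set d' := 1 - (r' : ℂ) * ζ * conj ((1 : C(Circ, ℂ)) s - κ s) with hd'_def
      have h1 : conj (κ s) * ρ s / d - conj (κ s) * ρ s / d' =
          conj (κ s) * ρ s * (((r : ℂ) - r') * (ζ * conj ((1 : C(Circ, ℂ)) s - κ s))) / (d * d') := by
        rw [div_sub_div _ _ hne hne']
        congr 1
        rw [hd_def, hd'_def]
        ring
      rw [h1, norm_div, norm_mul, norm_mul, norm_mul, norm_mul, norm_mul, RCLike.norm_conj,
        RCLike.norm_conj, hζ1, one_mul, div_le_iff₀ (by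
          have : 0 < ‖d‖ := by linarith
          have : 0 < ‖d'‖ := by linarith
          positivity)]
      have h2 : ‖((r : ℂ) - r')‖ = |r - r'| := by
        rw [← Complex.ofReal_sub, Complex.norm_real, Real.norm_eq_abs]
      rw [h2]
      have h3 : ‖(1 : C(Circ, ℂ)) s - κ s‖ ≤ 1 := hs.norm_φ_le s
      have h4 : ‖κ s‖ ≤ ‖κ‖ := κ.norm_coe_le_norm s
      have h5 : ‖ρ s‖ ≤ ‖ρ‖ := ρ.norm_coe_le_norm s
      have h6 : δ ^ 2 / 4 ≤ ‖d‖ * ‖d'‖ := by
        calc δ ^ 2 / 4 = (δ / 2) * (δ / 2) := by ring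
          _ ≤ _ := by gcongr
      calc ‖κ s‖ * ‖ρ s‖ * (|r - r'| * ‖(1 : C(Circ, ℂ)) s - κ s‖)
          ≤ ‖κ‖ * ‖ρ‖ * (|r - r'| * 1) := by gcongr
        _ = B * |r - r'| * (δ ^ 2 / 4) := by
            rw [hB]
            field_simp
        _ ≤ B * |r - r'| * (‖d‖ * ‖d'‖) := by gcongr
  -- conclude by completeness
  have hm1 : max 0 (1 - δ / 2) < 1 := by
    apply max_lt zero_lt_one
    linarith
  refine exists_tendsto_of_lipschitz (V := L2 ℂ →L[ℂ] HH)
    (f := fun r : ℝ => cQ (toep κ hs.anκ) (gam ρ) ((r : ℂ) * ζ)) hm1 (B := B) ?_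
  intro r r' hr hr'
  have e1 : 0 ≤ max 0 (1 - δ / 2) := le_max_left _ _
  have e2 : 1 - δ / 2 ≤ max 0 (1 - δ / 2) := le_max_right _ _
  exact hdist r r' (e1.trans hr.1.le) (e1.trans hr'.1.le)
      (lt_of_le_of_lt e2 hr.1) hr.2 (lt_of_le_of_lt e2 hr'.1) hr'.2

/-- The abstract conclusion for a symbol triple. -/
theorem conclusion :
    IsHInf (cθ (toep κ hs.anκ) (gam ρ)) ∧
    IsBoundaryFn (cθ (toep κ hs.anκ) (gam ρ)) (cθb (toep κ hs.anκ) (gam ρ)) ∧
    IsInner (cθb (toep κ hs.anκ) (gam ρ)) ∧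
    IsStarOuter (cθ (toep κ hs.anκ) (gam ρ)) ∧
    modelSpace (cθb (toep κ hs.anκ) (gam ρ)) ≠ ⊥ ∧
    ∀ k ∈ kerStar (cθb (toep κ hs.anκ) (gam ρ)),
      rieszProj k = 0 ∨ IsCyclicBackShift (cθb (toep κ hs.anκ) (gam ρ)) (rieszProj k) := by
  have hnt : Nontrivial HH := by
    refine ⟨prj (mono 0 (1 : ℂ)), 0, ?_⟩
    intro h0
    have h1 : (mono 0 (1 : ℂ) : L2 ℂ) = 0 := by
      have h2 := congrArg (fun x : HH => (x : L2 ℂ)) h0
      have h3 : rieszProj (mono 0 (1 : ℂ) : L2 ℂ) = 0 := h2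
      rwa [rieszProj_of_mem (mono_mem le_rfl _)] at h3
    have h4 := coeff_mono_self (E := ℂ) 0 1
    rw [h1, map_zero] at h4
    exact zero_ne_one h4
  exact ⟨hs.coll.isHInf, IsColl.isBoundaryFn hs.radial, hs.coll.isInner hs.radial,
    hs.coll.isStarOuter hs.radial hs.eq_zero_of_tendsto,
    hs.coll.modelSpace_ne_bot hs.radial hs.tendsto_Ts,
    fun k hk => hs.coll.cyclic_or_zero hs.radial hs.quasi hk⟩

end Sym

end Pool.Agent.P8b2208
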