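import Pool.Agent.P8b2208.Model2

open MeasureTheory AddCircle Filter Topology
open scoped ENNReal InnerProductSpace ComplexConjugate

set_option linter.unusedSectionVars false
set_option linter.unusedSimpArgs false

namespace Pool.Agent.P8b2208

open ContinuousLinearMap

/-- The scalar Hardy space as a Hilbert space. -/
abbrev HH : Type := ↥(H2 ℂ)

/-- A continuous symbol is analytic if its negative Fourier coefficients vanish. -/
def IsAn (b : C(Circ, ℂ)) : Prop := ∀ n : ℤ, n < 0 → fourierCoeff b n = 0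

lemma coeff_mulC_mono (b : C(Circ, ℂ)) (n m : ℤ) (e : ℂ) :
    coeff n (mulC b (mono m e)) = fourierCoeff b (n - m) * e := by
  rw [coeff_eq_fourierCoeff, fourierCoeff_congr_ae
    (g := fun t => (fourier m t : ℂ) • ((b t : ℂ) * e))]
  · rw [fourierCoeff_fourier_smul]
    unfold fourierCoeff
    rw [← integral_mul_const]
    apply integral_congr_ae
    filter_upwards with t
    simp only [smul_eq_mul]
    ring
  · filter_upwards [coeFn_mulC b (mono m e), coeFn_mono m e] with t h1 h2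
    rw [h1, h2]
    simp only [smul_eq_mul]
    ring

lemma mulC_mem {b : C(Circ, ℂ)} (hb : IsAn b) {f : L2 ℂ} (hf : f ∈ H2 ℂ) :
    mulC b f ∈ H2 ℂ := by
  refine IsColl.H2_induction isClosed_H2 (fun n u => ?_) hf
  rw [mem_H2_iff]
  intro m hm
  rw [coeff_mulC_mono, hb _ (by omega), zero_mul]

/-- The analytic Toeplitz operator with symbol `b`. -/
noncomputable def toep (b : C(Circ, ℂ)) (hb : IsAn b) : HH →L[ℂ] HH :=
  ((mulC b).comp (H2 ℂ).subtypeL).codRestrict (H2 ℂ) (fun f => mulC_mem hb f.2)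

lemma coe_toep (b : C(Circ, ℂ)) (hb : IsAn b) (f : HH) :
    ((toep b hb f : HH) : L2 ℂ) = mulC b (f : L2 ℂ) := rfl

/-- projection onto `H²`, with values in the subspace -/
noncomputable def prj : L2 ℂ →L[ℂ] HH := (H2 ℂ).orthogonalProjectionOnto

lemma inner_prj (f : HH) (g : L2 ℂ) : ⟪f, prj g⟫_ℂ = ⟪(f : L2 ℂ), g⟫_ℂ := by
  unfold prj
  exact Submodule.inner_orthogonalProjectionOnto_eq_of_mem_left f g

lemma prj_coe (f : HH) : prj (f : L2 ℂ) = f := by
  apply ext_inner_left ℂ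
  intro g
  rw [inner_prj]
  rfl

lemma norm_prj_le (g : L2 ℂ) : ‖prj g‖ ≤ ‖g‖ :=
  (H2 ℂ).norm_orthogonalProjectionOnto_apply_le g

/-- adjoint of a Toeplitz operator composed with the projection. -/
lemma adjoint_toep_prj (b : C(Circ, ℂ)) (hb : IsAn b) (g : L2 ℂ) :
    adjoint (toep b hb) (prj g) = prj (mulC (star b) g) := by
  apply ext_inner_left ℂ
  intro f
  rw [adjoint_inner_right, inner_prj, inner_prj, coe_toep, inner_mulC_left]

lemma toep_mul {b c : C(Circ, ℂ)} (hb : IsAn b) (hc : IsAn c) (h : b * c = 1) (f : HH) :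
    toep b hb (toep c hc f) = f := by
  apply Subtype.ext
  rw [coe_toep, coe_toep, ← mulC_mul, h, mulC_one]

/-- The operator `Γ f = ρ f`. -/
noncomputable def gam (ρ : C(Circ, ℂ)) : HH →L[ℂ] L2 ℂ := (mulC ρ).comp (H2 ℂ).subtypeL

lemma gam_apply (ρ : C(Circ, ℂ)) (f : HH) : gam ρ f = mulC ρ (f : L2 ℂ) := rfl

lemma adjoint_gam (ρ : C(Circ, ℂ)) (hρ : star ρ = ρ) (g : L2 ℂ) :
    adjoint (gam ρ) g = prj (mulC ρ g) := by
  apply ext_inner_left ℂ
  intro f
  rw [adjoint_inner_right, inner_prj, gam_apply, inner_mulC_left, hρ]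

/-- `Γ* Γ = C + C* - 1` when `ρ² = c + c̄ - 1`. -/
lemma adjoint_gam_gam {ρ c : C(Circ, ℂ)} (hc : IsAn c) (hρ : star ρ = ρ)
    (hρc : ρ * ρ = c + star c - 1) (f : HH) :
    adjoint (gam ρ) (gam ρ f) = toep c hc f + adjoint (toep c hc) f - f := by
  have h1 : adjoint (toep c hc) f = prj (mulC (star c) (f : L2 ℂ)) := by
    rw [← adjoint_toep_prj c hc, prj_coe]
  rw [adjoint_gam ρ hρ, gam_apply, ← mulC_mul, hρc, mulC_sub, mulC_add, mulC_one, map_sub, map_add,
    prj_coe, h1]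
  congr 2
  rw [← coe_toep c hc, prj_coe]

/-- A pair of mutually inverse analytic symbols with `2 Re c - 1 = ρ²` gives a colligation. -/
lemma isColl_toep {κ c ρ : C(Circ, ℂ)} (hκ : IsAn κ) (hc : IsAn c) (hκc : κ * c = 1)
    (hρ : star ρ = ρ) (hρc : ρ * ρ = c + star c - 1) : IsColl (toep κ hκ) (gam ρ) := by
  have h1 : ∀ f, toep κ hκ (toep c hc f) = f := toep_mul hκ hc hκc
  have h2 : ∀ f, toep c hc (toep κ hκ f) = f := toep_mul hc hκ (by rw [mul_comm c κ]; exact hκc)
  have h3 : ∀ f, adjoint (toep c hc) (adjoint (toep κ hκ) f) = f := by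
    intro f
    apply ext_inner_left ℂ
    intro g
    rw [adjoint_inner_right, adjoint_inner_right, h1]
  have h4 : ∀ f, adjoint (toep κ hκ) (adjoint (toep c hc) f) = f := by
    intro f
    apply ext_inner_left ℂ
    intro g
    rw [adjoint_inner_right, adjoint_inner_right, h2]
  constructor
  · intro x
    rw [adjoint_gam_gam hc hρ hρc, h3, map_sub, map_add, h1]
    abel
  · intro x
    rw [adjoint_gam_gam hc hρ hρc, h2, map_sub, map_add, h4]
    abel

/-- the norm in `L²`. -/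
lemma norm_sq_L2 (f : L2 ℂ) : ‖f‖ ^ 2 = ∫ t, ‖f t‖ ^ 2 ∂mu := by
  have h1 : ⟪f, f⟫_ℂ = ((∫ t, ‖f t‖ ^ 2 ∂mu : ℝ) : ℂ) := by
    rw [L2.inner_def, ← integral_complex_ofReal]
    apply integral_congr_ae
    filter_upwards with t
    rw [inner_self_eq_norm_sq_to_K]
    norm_cast
  have h2 := congrArg Complex.re h1
  rw [Complex.ofReal_re] at h2
  rw [← h2]
  exact (inner_self_eq_norm_sq (𝕜 := ℂ) f).symm

lemma integrable_norm_sq (f : L2 ℂ) : Integrable (fun t => ‖f t‖ ^ 2) mu :=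
  (Lp.memLp f).integrable_norm_pow (by norm_num)

end Pool.Agent.P8b2208
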