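import Pool.Agent.P8b2208.Toeplitz

open MeasureTheory AddCircle Filter Topology
open scoped ENNReal InnerProductSpace ComplexConjugate

set_option linter.unusedSectionVars false
set_option linter.unusedSimpArgs false

namespace Pool.Agent.P8b2208

open ContinuousLinearMap

/-- An integrable function annihilating all real continuous functions vanishes. -/
lemma ae_eq_zero_of_forall_continuous {X : Type*} [PseudoEMetricSpace X]
    [MeasurableSpace X] [BorelSpace X] (ν : Measure X) [IsFiniteMeasure ν]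
    {w : X → ℂ} (hw : Integrable w ν)
    (h : ∀ G : C(X, ℝ), (∃ B, ∀ x, |G x| ≤ B) → ∫ x, (G x : ℂ) * w x ∂ν = 0) : w =ᵐ[ν] 0 := by
  apply ae_eq_zero_of_forall_setIntegral_isClosed_eq_zero hw
  intro s hs
  have hδ : ∀ n : ℕ, (0 : ℝ) < 1 / ((n : ℝ) + 1) := fun n => by positivity
  have hδ' : Tendsto (fun n : ℕ => 1 / ((n : ℝ) + 1)) atTop (𝓝 0) :=
    tendsto_one_div_add_atTop_nhds_zero_nat
  have h1 := thickenedIndicator_tendsto_indicator_closure hδ hδ' s
  rw [tendsto_pi_nhds, hs.closure_eq] at h1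
  let G : ℕ → C(X, ℝ) := fun n =>
    ⟨fun x => ((thickenedIndicator (hδ n) s x : NNReal) : ℝ),
      NNReal.continuous_coe.comp (thickenedIndicator (hδ n) s).continuous⟩
  have hG1 : ∀ n x, |G n x| ≤ 1 := by
    intro n x
    have h2 := thickenedIndicator_le_one (hδ n) s x
    change |((thickenedIndicator (hδ n) s x : NNReal) : ℝ)| ≤ 1
    rw [abs_of_nonneg (NNReal.coe_nonneg _)]
    exact_mod_cast h2
  have h2 : Tendsto (fun n => ∫ x, (G n x : ℂ) * w x ∂ν) atTop
      (𝓝 (∫ x, s.indicator w x ∂ν)) := by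
    apply tendsto_integral_of_dominated_convergence (fun x => ‖w x‖)
    · intro n
      exact ((Complex.continuous_ofReal.comp (G n).continuous).aestronglyMeasurable).mul hw.1
    · exact hw.norm
    · intro n
      filter_upwards with x
      rw [norm_mul, Complex.norm_real, Real.norm_eq_abs]
      have := hG1 n x
      nlinarith [norm_nonneg (w x)]
    · filter_upwards with x
      have h3 := h1 x
      have h4 : Tendsto (fun n => ((G n x : ℝ) : ℂ)) atTop
          (𝓝 (((s.indicator (fun _ => (1 : NNReal)) x : NNReal) : ℝ) : ℂ)) :=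
        (Complex.continuous_ofReal.tendsto _).comp ((NNReal.continuous_coe.tendsto _).comp h3)
      have h5 := h4.mul_const (w x)
      convert h5 using 2
      by_cases hx : x ∈ s
      · simp [hx]
      · simp [hx]
  have h3 : ∀ n, ∫ x, (G n x : ℂ) * w x ∂ν = 0 := fun n => h (G n) ⟨1, hG1 n⟩
  simp only [h3] at h2
  have h4 := tendsto_nhds_unique h2 tendsto_const_nhds
  rwa [integral_indicator hs.measurableSet] at h4

/-- An integrable function on the circle all of whose Fourier coefficients vanish is zero. -/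
lemma ae_eq_zero_of_fourierCoeff {w : Circ → ℂ} (hw : Integrable w mu)
    (h : ∀ n, fourierCoeff w n = 0) : w =ᵐ[mu] 0 := by
  -- first: annihilates all continuous functions
  have h1 : ∀ G : C(Circ, ℂ), ∫ t, G t * w t ∂mu = 0 := by
    have hcont : Continuous (fun G : C(Circ, ℂ) => ∫ t, G t * w t ∂mu) := by
      have hint : ∀ G : C(Circ, ℂ), Integrable (fun t => G t * w t) mu := fun G =>
        hw.bdd_mul G.continuous.aestronglyMeasurable
          (Eventually.of_forall fun x => G.norm_coe_le_norm x)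
      let Λ : C(Circ, ℂ) →ₗ[ℂ] ℂ :=
        { toFun := fun G => ∫ t, G t * w t ∂mu
          map_add' := by
            intro G G'
            rw [← integral_add (hint G) (hint G')]
            apply integral_congr_ae
            filter_upwards with t
            simp [add_mul]
          map_smul' := by
            intro c G
            rw [RingHom.id_apply, smul_eq_mul, ← integral_const_mul]
            apply integral_congr_ae
            filter_upwards with t
            simp [mul_assoc] }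
      have : Continuous Λ := by
        apply AddMonoidHomClass.continuous_of_bound Λ (∫ t, ‖w t‖ ∂mu)
        intro G
        change ‖∫ t, G t * w t ∂mu‖ ≤ _
        rw [mul_comm (∫ t, ‖w t‖ ∂mu) ‖G‖, ← integral_const_mul]
        apply norm_integral_le_of_norm_le (hw.norm.const_mul _)
        filter_upwards with t
        rw [norm_mul]
        gcongr
        exact G.norm_coe_le_norm t
      exact this
    intro G
    have hG : G ∈ (Submodule.span ℂ (Set.range (@fourier (2 * Real.pi)))).topologicalClosure := by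
      rw [span_fourier_closure_eq_top]; trivial
    have hclosed : IsClosed {G : C(Circ, ℂ) | ∫ t, G t * w t ∂mu = 0} :=
      isClosed_singleton.preimage hcont
    rw [← SetLike.mem_coe, Submodule.topologicalClosure_coe] at hG
    refine closure_minimal ?_ hclosed hG
    intro G hG
    have hint : ∀ G : C(Circ, ℂ), Integrable (fun t => G t * w t) mu := fun G =>
        hw.bdd_mul G.continuous.aestronglyMeasurable
          (Eventually.of_forall fun x => G.norm_coe_le_norm x)
    refine Submodule.span_induction ?_ ?_ ?_ ?_ hG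
    · rintro _ ⟨n, rfl⟩
      have := h (-n)
      rw [fourierCoeff, neg_neg] at this
      exact this
    · simp
    · intro G G' _ _ h1 h2
      change ∫ t, (G t + G' t) * w t ∂mu = 0
      have h3 : (fun t => (G t + G' t) * w t) = fun t => G t * w t + G' t * w t := by
        funext t; ring
      rw [h3, integral_add (hint G) (hint G'), h1, h2, add_zero]
    · intro a G _ h1
      change ∫ t, (a * G t) * w t ∂mu = 0
      have h3 : (fun t => (a * G t) * w t) = fun t => a * (G t * w t) := by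
        funext t; ring
      rw [h3, integral_const_mul]
      rw [show ∫ t, G t * w t ∂mu = 0 from h1, mul_zero]
  apply ae_eq_zero_of_forall_continuous mu hw
  intro G _
  exact h1 ⟨fun t => (G t : ℂ), Complex.continuous_ofReal.comp G.continuous⟩

/-- The closed subspace of functions vanishing almost everywhere on a set. -/
def vanishing (N : Set Circ) : Submodule ℂ (L2 ℂ) where
  carrier := {f | ∀ᵐ t ∂mu, t ∈ N → f t = 0}
  add_mem' := by
    intro f g hf hg
    filter_upwards [hf, hg, Lp.coeFn_add f g] with t h1 h2 h3 hN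
    rw [h3, Pi.add_apply, h1 hN, h2 hN, add_zero]
  zero_mem' := by
    filter_upwards [Lp.coeFn_zero ℂ 2 mu] with t h1 _
    rw [h1]; rfl
  smul_mem' := by
    intro c f hf
    filter_upwards [hf, Lp.coeFn_smul c f] with t h1 h2 hN
    rw [h2, Pi.smul_apply, h1 hN, smul_zero]

lemma isClosed_vanishing (N : Set Circ) : IsClosed (vanishing N : Set (L2 ℂ)) := by
  apply IsSeqClosed.isClosed
  intro f g hf hfg
  have h1 := tendstoInMeasure_of_tendsto_Lp hfg
  obtain ⟨ns, -, hns⟩ := h1.exists_seq_tendsto_ae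
  have h2 : ∀ᵐ t ∂mu, ∀ n, t ∈ N → f n t = 0 := ae_all_iff.2 hf
  filter_upwards [hns, h2] with t h3 h4 hN
  have h5 : Tendsto (fun n => f (ns n) t) atTop (𝓝 0) := by
    simp only [h4 _ hN]; exact tendsto_const_nhds
  exact tendsto_nhds_unique h3 h5

lemma inner_zm_self (q : L2 ℂ) (m : ℤ) :
    ⟪q, zm m q⟫_ℂ = fourierCoeff (fun t => ((‖q t‖ ^ 2 : ℝ) : ℂ)) (-m) := by
  rw [L2.inner_def, fourierCoeff, neg_neg]
  apply integral_congr_ae
  filter_upwards [coeFn_zm m q] with t h1
  rw [h1, inner_smul_right, inner_self_eq_norm_sq_to_K]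
  simp

lemma fourierCoeff_conj_of_real (u : Circ → ℝ) (n : ℤ) :
    fourierCoeff (fun t => ((u t : ℝ) : ℂ)) n = conj (fourierCoeff (fun t => ((u t : ℝ) : ℂ)) (-n)) := by
  unfold fourierCoeff
  rw [← integral_conj]
  apply integral_congr_ae
  filter_upwards with t
  simp only [smul_eq_mul, map_mul, neg_neg, Complex.conj_ofReal]
  rw [fourier_neg]

lemma ae_const_of_fourierCoeff {w : Circ → ℂ} (hwi : Integrable w mu)
    (h : ∀ n : ℤ, n ≠ 0 → fourierCoeff w n = 0) : ∀ᵐ t ∂mu, w t = fourierCoeff w 0 := by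
  have hconst : (w + fun _ => -(fourierCoeff w 0)) =ᵐ[mu] 0 := by
    apply ae_eq_zero_of_fourierCoeff (hwi.add (integrable_const _))
    intro n
    rw [fourierCoeff.add hwi (integrable_const _), Pi.add_apply, fourierCoeff_const]
    by_cases hn : n = 0
    · subst hn
      rw [if_pos rfl]; ring
    · rw [h n hn, if_neg hn, add_zero]
  filter_upwards [hconst] with t ht
  have h1 : w t + -(fourierCoeff w 0) = 0 := ht
  exact eq_of_sub_eq_zero (by rw [sub_eq_add_neg]; exact h1)

/-- A function orthogonal to all its proper forward shifts and vanishing on a set of positive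
measure is zero. -/
lemma eq_zero_of_orth_shift {N : Set Circ} (hN : mu N ≠ 0) {q : L2 ℂ}
    (horth : ∀ m : ℕ, ⟪q, zm ((m : ℤ) + 1) q⟫_ℂ = 0) (hqv : q ∈ vanishing N) : q = 0 := by
  have hwi : Integrable (fun t => ((‖q t‖ ^ 2 : ℝ) : ℂ)) mu := (integrable_norm_sq q).ofReal
  have hneg : ∀ n : ℤ, n < 0 → fourierCoeff (fun t => ((‖q t‖ ^ 2 : ℝ) : ℂ)) n = 0 := by
    intro n hn
    obtain ⟨m, hm⟩ : ∃ m : ℕ, n = -((m : ℤ) + 1) := ⟨(-n - 1).toNat, by omega⟩
    rw [hm, ← inner_zm_self, horth]
  have hne : ∀ n : ℤ, n ≠ 0 → fourierCoeff (fun t => ((‖q t‖ ^ 2 : ℝ) : ℂ)) n = 0 := by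
    intro n hn
    rcases lt_or_gt_of_ne hn with h | h
    · exact hneg n h
    · rw [fourierCoeff_conj_of_real, hneg _ (by omega), map_zero]
  have hconst := ae_const_of_fourierCoeff hwi hne
  have hc0 : fourierCoeff (fun t => ((‖q t‖ ^ 2 : ℝ) : ℂ)) 0 = 0 := by
    by_contra hc0
    apply hN
    have h1 : ∀ᵐ t ∂mu, t ∉ N := by
      filter_upwards [hconst, hqv] with t h1 h2 hN
      rw [h2 hN, norm_zero] at h1
      apply hc0
      rw [← h1]
      simp
    exact measure_eq_zero_iff_ae_notMem.2 h1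
  apply (Lp.eq_zero_iff_ae_eq_zero).2
  filter_upwards [hconst] with t h1
  rw [hc0] at h1
  have h4 : ‖q t‖ ^ 2 = 0 := by exact_mod_cast h1
  have h5 := pow_eq_zero_iff (two_ne_zero) |>.1 h4
  simpa using h5

lemma zm_mem_vanishing {N : Set Circ} (n : ℤ) {f : L2 ℂ} (hf : f ∈ vanishing N) :
    zm n f ∈ vanishing N := by
  change ∀ᵐ t ∂mu, t ∈ N → zm n f t = 0
  filter_upwards [hf, coeFn_zm n f] with t h1 h2 hN
  rw [h2, h1 hN, smul_zero]

/-- The closed span of the proper forward shifts of `g`. -/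
noncomputable def fwd (g : L2 ℂ) : Submodule ℂ (L2 ℂ) :=
  (Submodule.span ℂ (Set.range fun n : ℕ => zm ((n : ℤ) + 1) g)).topologicalClosure

lemma isClosed_fwd (g : L2 ℂ) : IsClosed (fwd g : Set (L2 ℂ)) :=
  Submodule.isClosed_topologicalClosure _

instance (g : L2 ℂ) : CompleteSpace (fwd g) := (isClosed_fwd g).completeSpace_coe

lemma fwd_le {g : L2 ℂ} {S : Submodule ℂ (L2 ℂ)} (hS : IsClosed (S : Set (L2 ℂ)))
    (h : ∀ n : ℕ, zm ((n : ℤ) + 1) g ∈ S) : fwd g ≤ S := by
  apply Submodule.topologicalClosure_minimal _ _ hS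
  rw [Submodule.span_le]
  rintro _ ⟨n, rfl⟩
  exact h n

lemma zm_mem_fwd (g : L2 ℂ) (m : ℕ) : zm ((m : ℤ) + 1) g ∈ fwd g :=
  Submodule.le_topologicalClosure _ (Submodule.subset_span ⟨m, rfl⟩)

lemma zm_mem_fwd_of_mem (g : L2 ℂ) (m : ℕ) {f : L2 ℂ} (hf : f ∈ fwd g) :
    zm ((m : ℤ) + 1) f ∈ fwd g := by
  have h1 : fwd g ≤ (fwd g).comap (zm ((m : ℤ) + 1) : L2 ℂ →L[ℂ] L2 ℂ).toLinearMap := by
    apply fwd_le ((isClosed_fwd g).preimage (zm ((m : ℤ) + 1) : L2 ℂ →L[ℂ] L2 ℂ).continuous)
    intro n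
    rw [Submodule.mem_comap]
    have h2 : (zm ((m : ℤ) + 1) : L2 ℂ →L[ℂ] L2 ℂ).toLinearMap (zm ((n : ℤ) + 1) g) =
        zm (((m + n + 1 : ℕ) : ℤ) + 1) g := by
      have h3 : (zm ((m : ℤ) + 1) : L2 ℂ →L[ℂ] L2 ℂ).toLinearMap (zm ((n : ℤ) + 1) g) =
        zm ((m : ℤ) + 1) (zm ((n : ℤ) + 1) g) := rfl
      rw [h3, zm_zm]
      congr 2
      push_cast; ring
    rw [h2]
    exact zm_mem_fwd g _
  exact h1 hf

/-- F. and M. Riesz uniqueness, in `H²`: a function in `H²` vanishing on a set of positive measure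
has vanishing zeroth coefficient. -/
lemma coeff_zero_of_vanishing {N : Set Circ} (hN : mu N ≠ 0) {g : L2 ℂ} (hg : g ∈ H2 ℂ)
    (hgN : g ∈ vanishing N) : coeff 0 g = 0 := by
  obtain ⟨y, hy, hyo⟩ : ∃ y ∈ fwd g, g - y ∈ (fwd g)ᗮ :=
    ⟨(fwd g).starProjection g, Submodule.starProjection_apply_mem _ _,
      Submodule.sub_starProjection_mem_orthogonal g⟩
  have hWv : fwd g ≤ vanishing N :=
    fwd_le (isClosed_vanishing N) (fun n => zm_mem_vanishing _ hgN)
  have hq0 : g - y = 0 := by
    apply eq_zero_of_orth_shift hN _ ((vanishing N).sub_mem hgN (hWv hy))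
    intro m
    rw [map_sub]
    exact (Submodule.mem_orthogonal' _ _).1 hyo _
      ((fwd g).sub_mem (zm_mem_fwd g m) (zm_mem_fwd_of_mem g m hy))
  have hgW : g ∈ fwd g := by
    rw [sub_eq_zero] at hq0
    rw [hq0] at hy ⊢
    rw [← hq0] at hy
    rw [← hq0]
    exact hy
  have h1 : fwd g ≤ LinearMap.ker (coeff 0 : L2 ℂ →L[ℂ] ℂ).toLinearMap := by
    apply fwd_le (ContinuousLinearMap.isClosed_ker (coeff 0))
    intro n
    change coeff 0 (zm ((n : ℤ) + 1) g) = 0
    rw [coeff_zm]
    exact (mem_H2_iff _).1 hg _ (by omega)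
  exact h1 hgW

/-- F. and M. Riesz uniqueness in `H²`. -/
lemma eq_zero_of_vanishing {N : Set Circ} (hN : mu N ≠ 0) {g : L2 ℂ} (hg : g ∈ H2 ℂ)
    (hgN : g ∈ vanishing N) : g = 0 := by
  have h1 : ∀ n : ℕ, ∀ g : L2 ℂ, g ∈ H2 ℂ → g ∈ vanishing N → coeff (n : ℤ) g = 0 := by
    intro n
    induction n with
    | zero =>
      intro g hg hgN
      exact_mod_cast coeff_zero_of_vanishing hN hg hgN
    | succ n ih =>
      intro g hg hgN
      have h2 : zm (-1) g ∈ H2 ℂ := by
        rw [mem_H2_iff]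
        intro m hm
        rw [coeff_zm]
        rcases eq_or_ne m (-1) with h3 | h3
        · rw [h3]
          exact coeff_zero_of_vanishing hN hg hgN
        · exact (mem_H2_iff _).1 hg _ (by omega)
      have h3 : zm (-1) g ∈ vanishing N := by
        change ∀ᵐ t ∂mu, t ∈ N → zm (-1) g t = 0
        filter_upwards [hgN, coeFn_zm (-1) g] with t h1 h2 hN
        rw [h2, h1 hN, smul_zero]
      have h4 := ih (zm (-1) g) h2 h3
      rw [coeff_zm] at h4
      have e1 : (n : ℤ) - -1 = ((n + 1 : ℕ) : ℤ) := by push_cast; ring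
      rwa [e1] at h4
  apply eq_zero_of_coeff_eq_zero
  intro n
  rcases lt_or_ge n 0 with hn | hn
  · exact (mem_H2_iff _).1 hg n hn
  · obtain ⟨m, rfl⟩ := Int.eq_ofNat_of_zero_le hn
    exact h1 m g hg hgN

/-- a nonzero `H²` function is nonzero almost everywhere -/
lemma ae_ne_zero_of_mem_H2 {g : L2 ℂ} (hg : g ∈ H2 ℂ) (hg0 : g ≠ 0) : ∀ᵐ t ∂mu, g t ≠ 0 := by
  by_contra hcon
  apply hg0
  apply eq_zero_of_vanishing (N := {t | g t = 0}) _ hg
  · change ∀ᵐ t ∂mu, t ∈ {t | g t = 0} → g t = 0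
    filter_upwards with t ht using ht
  · intro h0
    apply hcon
    have := measure_eq_zero_iff_ae_notMem.1 h0
    filter_upwards [this] with t ht using ht

end Pool.Agent.P8b2208
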